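import Pool.Agent.Helper81.RV.Offset

/-!
# The base colouring is bounded by `a`
-/

open Finset

namespace Pool.Agent.Helper81.RV

open Pool.Agent.Helper34.RB hiding Dd Dsum Good
open Pool.Agent.Helper81.RU (Dd Dsum Good Dd_lt)

/-- Proof. Let `T`, `c` be given and `S` the set in `BddCol`, `x0 ∈ S`.  By `value_window` all values
`val (T.erase x)`, `x ∈ S`, agree.  By `same_cell` all cells `h x` have the same load `t`; if `t = 1`
they are in `{a c, ..., a c + a - 1}` and have one element each; if `t ≥ 2` they are the same cell, which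
has at most `a` elements in `S`: clear for `t ≤ a`, by `mult_cell` for `t > a`. -/
theorem base_det {X : Type} [LinearOrder X] {n a : ℕ} (ha : 2 ≤ a) (h : X → Fin n)
    {q : ℕ → ℕ} (M : ∀ s, ℕ → Finset X → ZMod (q s)) (Φ : ∀ s, (Fin (s - 1) → ZMod (q s)) → ℕ)
    {R w C N e : ℕ → ℕ} {TM K : ℕ} (hR : ∀ u, 1 ≤ R u)
    (hΦ : ∀ s, 2 ≤ s → s ≤ TM → Compr (q s) s (R s) a (Φ s))
    (hw : ∀ t, 2 ≤ t → R t + R (t - 1) ≤ w t + 1) (he : n / a ≤ e 1) (hC1 : R 1 + R 0 ≤ C 1)
    (hC : ∀ t, 1 ≤ t → t ≤ TM →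
      C t + e t + w t * N (t - 1) + w (t + 1) * N (t + 1) + 2 * (R t + R (t - 1) + R (t + 1)) ≤
        C (t + 1)) (hK : C (TM + 1) ≤ K) :
    BddCol a (Good h N q M TM) (fun E => val a h C w q M Φ TM E % K) := by
  classical
  have hmod : ∀ a b : ℕ, a ≤ b → a % K = b % K → b < a + K → a = b := by
    intro a b hab h1 h2
    have h3 : K ∣ b - a := (Nat.modEq_iff_dvd' hab).1 h1
    have h4 : b - a = 0 := Nat.eq_zero_of_dvd_of_lt h3 (by omega)
    omega
  intro T c
  -- the value of two members of the set is the same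
  have hval : ∀ x ∈ T, ∀ y ∈ T, Good h N q M TM (T.erase x) → Good h N q M TM (T.erase y) →
      val a h C w q M Φ TM (T.erase x) % K = val a h C w q M Φ TM (T.erase y) % K →
      val a h C w q M Φ TM (T.erase x) = val a h C w q M Φ TM (T.erase y) := by
    intro x hx y hy hgx hgy hxy
    have h1 := value_window hR hΦ he hC1 hC hx hgx
    have h2 := value_window hR hΦ he hC1 hC hy hgy
    rcases le_total (val a h C w q M Φ TM (T.erase x)) (val a h C w q M Φ TM (T.erase y)) with h3 | h3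
    · exact hmod _ _ h3 hxy (by omega)
    · exact (hmod _ _ h3 hxy.symm (by omega)).symm
  rcases Finset.eq_empty_or_nonempty (T.filter fun x => Good h N q M TM (T.erase x) ∧
      val a h C w q M Φ TM (T.erase x) % K = c) with hS | ⟨x0, hx0⟩
  · refine le_trans (le_of_eq ?_) (Nat.zero_le a)
    rw [Finset.card_eq_zero, ← hS]
  rw [Finset.mem_filter] at hx0
  obtain ⟨hx0T, hg0, hv0⟩ := hx0
  -- everything about one member
  have hmem : ∀ x ∈ T, Good h N q M TM (T.erase x) →
      val a h C w q M Φ TM (T.erase x) % K = c →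
      val a h C w q M Φ TM (T.erase x) = val a h C w q M Φ TM (T.erase x0) ∧
        ld h T (h x) = ld h T (h x0) ∧ (h x = h x0 ∨
          (ld h T (h x) = 1 ∧ (h x : ℕ) / a = (h x0 : ℕ) / a)) := by
    intro x hx hgx hvx
    have h1 := hval x hx x0 hx0T hgx hg0 (hvx.trans hv0.symm)
    exact ⟨h1, same_cell hR hΦ hw he hC hx hx0T hgx hg0 h1⟩
  have hpos : 0 < ld h T (h x0) := ld_pos hx0T
  have hself := ld_erase_self (h := h) hx0T
  have htTM : ld h T (h x0) ≤ TM := by
    have h1 : h x0 ∉ Bs h (T.erase x0) TM := by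
      rw [hg0.2.1]
      exact Finset.notMem_empty _
    rw [mem_Bs] at h1
    omega
  by_cases ht1 : ld h T (h x0) = 1
  · -- load `1`: the cells `a c, ..., a c + a - 1`
    have h2 : (Finset.Ico (a * ((h x0 : ℕ) / a)) (a * ((h x0 : ℕ) / a) + a)).card ≤ a := by
      rw [Nat.card_Ico]
      omega
    refine le_trans (Finset.card_le_card_of_injOn (fun x => ((h x : Fin n) : ℕ)) ?_ ?_) h2
    · intro x hx
      obtain ⟨hxT, hgx, hvx⟩ := Finset.mem_filter.mp (Finset.mem_coe.mp hx)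
      obtain ⟨-, -, h3⟩ := hmem x hxT hgx hvx
      have h4 : (h x : ℕ) / a = (h x0 : ℕ) / a := by
        rcases h3 with h3 | h3
        · rw [h3]
        · exact h3.2
      apply Finset.mem_coe.mpr
      rw [Finset.mem_Ico]
      change a * ((h x0 : ℕ) / a) ≤ (h x : ℕ) ∧ (h x : ℕ) < a * ((h x0 : ℕ) / a) + a
      rw [← h4]
      have h5 := Nat.div_add_mod (h x : ℕ) a
      have h6 := Nat.mod_lt (h x : ℕ) (show 0 < a by omega)
      omega
    · intro x hx y hy hxy
      obtain ⟨hxT, hgx, hvx⟩ := Finset.mem_filter.mp (Finset.mem_coe.mp hx)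
      obtain ⟨hyT, hgy, hvy⟩ := Finset.mem_filter.mp (Finset.mem_coe.mp hy)
      obtain ⟨-, h3, -⟩ := hmem x hxT hgx hvx
      have h4 : h x = h y := Fin.ext hxy
      have h5 : (cell h T (h x)).card ≤ 1 := by
        have h6 : (cell h T (h x)).card = ld h T (h x) := rfl
        omega
      exact Finset.card_le_one.mp h5 x (mem_cell.mpr ⟨hxT, rfl⟩) y (mem_cell.mpr ⟨hyT, h4.symm⟩)
  have hcell : ∀ x ∈ T, Good h N q M TM (T.erase x) →
      val a h C w q M Φ TM (T.erase x) % K = c → h x = h x0 := by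
    intro x hx hgx hvx
    obtain ⟨-, h3, h4⟩ := hmem x hx hgx hvx
    rcases h4 with h4 | h4
    · exact h4
    · exact absurd (h3.symm.trans h4.1) ht1
  by_cases ht2 : ld h T (h x0) ≤ a
  · have h1 : (cell h T (h x0)).card ≤ a := ht2
    refine le_trans (Finset.card_le_card ?_) h1
    intro x hx
    rw [Finset.mem_filter] at hx
    exact mem_cell.2 ⟨hx.1, hcell x hx.1 hx.2.1 hx.2.2⟩
  obtain ⟨s, hs⟩ : ∃ s, ld h T (h x0) = s + 1 := ⟨ld h T (h x0) - 1, by omega⟩
  have hs5 : 2 ≤ s := by omega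
  have hsTM : s ≤ TM := by omega
  have hsI : s ∈ Icc 2 TM := Finset.mem_Icc.2 ⟨hs5, hsTM⟩
  have htI : s + 1 ∈ Icc 2 TM := Finset.mem_Icc.2 ⟨by omega, by omega⟩
  refine le_trans (Finset.card_le_card ?_)
    (mult_cell (hΦ s hs5 hsTM) (M := M s) hs (Ds h (q s) (M s) s (Φ s) (T.erase x0)))
  intro x hx
  rw [Finset.mem_filter] at hx
  obtain ⟨hxT, hgx, hvx⟩ := hx
  obtain ⟨hv, -, -⟩ := hmem x hxT hgx hvx
  have hh := hcell x hxT hgx hvx
  have ht' : ld h T (h x) ≤ TM := by rw [hh]; exact htTM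
  have e1 := total_erase (a := a) (C := C) (w := w) (q := q) (M := M) (Φ := Φ) hxT ht'
  have e2 := total_erase (a := a) (C := C) (w := w) (q := q) (M := M) (Φ := Φ) hx0T htTM
  have x1 : xt a h T x = 0 := by unfold xt; rw [hh, if_neg ht1]
  have x2 : xt a h T x0 = 0 := by unfold xt; rw [if_neg ht1]
  rw [hh] at e1
  rw [hs] at e1 e2
  rw [x1] at e1
  rw [x2] at e2
  have e3 : Dd h q M Φ TM (s + 1) (T.erase x) = Dd h q M Φ TM (s + 1) (T.erase x0) := by
    unfold Dd
    rw [if_pos htI, if_pos htI]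
    exact Ds_erase_const hxT hx0T hh (by rw [hh, hs])
  rw [Nat.add_sub_cancel] at e1 e2
  have e4 : Dd h q M Φ TM s (T.erase x) = Dd h q M Φ TM s (T.erase x0) := by omega
  unfold Dd at e4
  rw [if_pos hsI, if_pos hsI] at e4
  rw [Finset.mem_filter]
  exact ⟨hxT, hh, hgx.2.2 s hsI, e4⟩

end Pool.Agent.Helper81.RV
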