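import Pool.Agent.Helper81.RU.Defs

/-!
# Project RV (MP_277c78_nt): `M_r(N) ≥ ((r - 1)/11) log N / log log N` for every `r ≥ 2`

As project RU, with three changes: multiplicity `a` (`a = 2, 3, 4`) instead of `2`; `a` adjacent cells of
load `1` share a value (term `∑ b ∈ Bs h E 1, b / a` of the potential); and the numbers of cells of
load `≥ t`, `2 ≤ t ≤ 40`, are controlled by the second moment.
-/

open Finset

namespace Pool.Agent.Helper81.RV

open Pool.Agent.Helper34.RB (Bs ld)

section

variable {X : Type} [LinearOrder X] {n : ℕ}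

/-- the potential of the cells of load `≥ 1`: groups of `a` adjacent cells -/
def grp (a : ℕ) (h : X → Fin n) (E : Finset X) : ℕ := ∑ b ∈ Bs h E 1, (b : ℕ) / a

/-- the number of pairs `(b, A)`, `A` a `t`-element subset of `E` in the cell `b` -/
def ZZ (h : X → Fin n) (E : Finset X) (t : ℕ) : ℕ := ∑ b : Fin n, (ld h E b).choose t

end

/-! ### the parameters (`m` bounds the sizes of the sets, `ν m` is the number of cells) -/

/-- the bound for the number of cells of load at least `t` -/
def NN (ν m t : ℕ) : ℕ :=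
  if t = 0 then ν * m else if t = 1 then m
  else if t ≤ 40 then 1001 * ν * m / (1000 * (ν ^ t * t.factorial))
  else 1000 * 5 ^ (t - 40) * ν * m / (4 ^ (t - 40) * (ν ^ t * t.factorial))

/-- the moduli of the digits -/
def qq (a s : ℕ) : ℕ := RU.qa (if s < a then 10 else s + 1)

/-- the ranges of the compressed digits -/
def RR (a s : ℕ) : ℕ := (s + 1) ^ (s + 1 - a)

/-- the weights of the addresses -/
def ww (a t : ℕ) : ℕ := if t ≤ 1 then 0 else RR a t + RR a (t - 1) - 1

/-- the range of the term `b / a` -/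
def hh (a ν m t : ℕ) : ℕ := if t = 1 then ν * m / a else 0

/-- the offsets of the loads -/
def CC (a ν m : ℕ) : ℕ → ℕ
  | 0 => 0
  | 1 => RR a 1 + RR a 0
  | (t + 2) => CC a ν m (t + 1) + hh a ν m (t + 1) + ww a (t + 1) * NN ν m t +
      ww a (t + 2) * NN ν m (t + 2) + 2 * (RR a (t + 1) + RR a t + RR a (t + 2))

lemma CC_succ (a ν m : ℕ) {t : ℕ} (ht : 1 ≤ t) :
    CC a ν m (t + 1) = CC a ν m t + hh a ν m t + ww a t * NN ν m (t - 1) +
      ww a (t + 1) * NN ν m (t + 1) + 2 * (RR a t + RR a (t - 1) + RR a (t + 1)) := by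
  obtain ⟨u, rfl⟩ := Nat.exists_eq_add_of_le ht
  rw [add_comm 1 u]
  rfl

end Pool.Agent.Helper81.RV
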