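import Pool.Agent.Helper34.RB.LoadAvg
import Pool.Agent.Helper81.RV.Defs

/-!
# RV-1: the second moment of the number of monochromatic `t`-subsets
-/

open Finset

namespace Pool.Agent.Helper81.RV

open Pool.Agent.Helper34.RB (Bs ld cell card_const_on)

section

variable {X : Type} [LinearOrder X] [Fintype X] {n : ℕ}

/-- Proof. A cell of load at least `t` contributes `(ld h E b).choose t ≥ 1` (`Nat.choose_pos`). -/
theorem Bs_le_ZZ (h : X → Fin n) (E : Finset X) (t : ℕ) : (Bs h E t).card ≤ ZZ h E t := by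
  unfold Bs ZZ
  rw [Finset.card_filter]
  refine Finset.sum_le_sum fun b _ => ?_
  split_ifs with hb
  · exact Nat.choose_pos hb
  · exact Nat.zero_le _

/-- the indicator of `h = b` on `A` -/
private def ind (h : X → Fin n) (b : Fin n) (A : Finset X) : ℝ :=
  if ∀ x ∈ A, h x = b then 1 else 0

private theorem ind_nonneg (h : X → Fin n) (b : Fin n) (A : Finset X) : 0 ≤ ind h b A := by
  unfold ind
  split_ifs <;> norm_num

private theorem ZZ_eq (h : X → Fin n) (E : Finset X) (t : ℕ) :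
    (ZZ h E t : ℝ) = ∑ b : Fin n, ∑ A ∈ E.powersetCard t, ind h b A := by
  unfold ZZ
  push_cast
  refine Finset.sum_congr rfl fun b _ => ?_
  unfold ind ld
  rw [Finset.sum_boole, ← Finset.card_powersetCard]
  congr 2
  ext A
  rw [mem_filter, mem_powersetCard, mem_powersetCard]
  constructor
  · rintro ⟨h1, h2⟩
    refine ⟨⟨fun x hx => ?_, h2⟩, fun x hx => ?_⟩
    · exact (mem_filter.1 (h1 hx)).1
    · exact (mem_filter.1 (h1 hx)).2
  · rintro ⟨⟨h1, h2⟩, h3⟩
    exact ⟨fun x hx => mem_filter.2 ⟨h1 hx, h3 x hx⟩, h2⟩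

private theorem ind_sum (hn : 0 < n) (b : Fin n) (A : Finset X) :
    ∑ h : X → Fin n, ind h b A = (Fintype.card (X → Fin n) : ℝ) / (n : ℝ) ^ A.card := by
  have hn' : (0 : ℝ) < n := by exact_mod_cast hn
  unfold ind
  rw [Finset.sum_boole, eq_div_iff (by positivity)]
  have := card_const_on A b
  exact_mod_cast this

private theorem card_two (A A' : Finset X) (hd : Disjoint A A') (b b' : Fin n) :
    (univ.filter fun h : X → Fin n => (∀ x ∈ A, h x = b) ∧ ∀ x ∈ A', h x = b').card *
      n ^ (A.card + A'.card) = Fintype.card (X → Fin n) := by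
  have h1 : (univ.filter fun h : X → Fin n => (∀ x ∈ A, h x = b) ∧ ∀ x ∈ A', h x = b') =
      Fintype.piFinset (fun x => if x ∈ A then ({b} : Finset (Fin n)) else
        if x ∈ A' then {b'} else univ) := by
    ext h
    simp only [mem_filter, mem_univ, true_and, Fintype.mem_piFinset]
    constructor
    · rintro ⟨h1, h2⟩ x
      split_ifs with hx hx'
      · simp [h1 x hx]
      · simp [h2 x hx']
      · simp
    · intro hh
      constructor
      · intro x hx
        have := hh x
        rw [if_pos hx] at this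
        simpa using this
      · intro x hx
        have := hh x
        rw [if_neg (fun h' => (Finset.disjoint_left.1 hd) h' hx), if_pos hx] at this
        simpa using this
  rw [h1, Fintype.card_piFinset]
  have h2 : ∀ x : X, (if x ∈ A then ({b} : Finset (Fin n)) else
      if x ∈ A' then {b'} else univ).card = if x ∈ A ∪ A' then 1 else n := by
    intro x
    by_cases hx : x ∈ A
    · simp [hx]
    · by_cases hx' : x ∈ A'
      · simp [hx, hx']
      · simp [hx, hx']
  simp only [h2]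
  rw [Finset.prod_ite, Finset.prod_const_one, one_mul, Finset.prod_const, ← pow_add,
    Fintype.card_fun, Fintype.card_fin]
  congr 1
  have h3 : (univ.filter fun x => x ∉ A ∪ A') = (A ∪ A')ᶜ := by ext x; simp
  rw [h3, Finset.card_compl, Finset.card_union_of_disjoint hd]
  have h4 := Finset.card_le_univ (A ∪ A')
  rw [Finset.card_union_of_disjoint hd] at h4
  omega

private theorem ind_cross (hn : 0 < n) {b b' : Fin n} (hb : b ≠ b') (A A' : Finset X) :
    ∑ h : X → Fin n, ind h b A * ind h b' A' ≤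
      (Fintype.card (X → Fin n) : ℝ) / ((n : ℝ) ^ A.card * (n : ℝ) ^ A'.card) := by
  have hn' : (0 : ℝ) < n := by exact_mod_cast hn
  by_cases hd : Disjoint A A'
  · have h1 : ∀ h : X → Fin n, ind h b A * ind h b' A' =
        if (∀ x ∈ A, h x = b) ∧ ∀ x ∈ A', h x = b' then (1 : ℝ) else 0 := by
      intro h
      unfold ind
      by_cases h1 : ∀ x ∈ A, h x = b
      · by_cases h2 : ∀ x ∈ A', h x = b'
        · rw [if_pos h1, if_pos h2, if_pos ⟨h1, h2⟩, one_mul]
        · rw [if_neg h2, if_neg (show ¬((∀ x ∈ A, h x = b) ∧ ∀ x ∈ A', h x = b') from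
            fun h3 => h2 h3.2), mul_zero]
      · rw [if_neg h1, if_neg (show ¬((∀ x ∈ A, h x = b) ∧ ∀ x ∈ A', h x = b') from
          fun h3 => h1 h3.1), zero_mul]
    rw [Finset.sum_congr rfl fun h _ => h1 h, Finset.sum_boole, ← pow_add]
    refine le_of_eq ?_
    rw [eq_div_iff (by positivity)]
    exact_mod_cast card_two A A' hd b b'
  · rw [Finset.not_disjoint_iff] at hd
    obtain ⟨x, hx, hx'⟩ := hd
    have h1 : ∀ h : X → Fin n, ind h b A * ind h b' A' = 0 := by
      intro h
      unfold ind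
      by_cases h1 : ∀ x ∈ A, h x = b
      · by_cases h2 : ∀ x ∈ A', h x = b'
        · exact absurd ((h1 x hx).symm.trans (h2 x hx')) hb
        · rw [if_neg h2, mul_zero]
      · rw [if_neg h1, zero_mul]
    rw [Finset.sum_congr rfl fun h _ => h1 h, Finset.sum_const_zero]
    positivity

private theorem ind_same (hn : 0 < n) (b : Fin n) (A A' : Finset X) :
    ∑ h : X → Fin n, ind h b A * ind h b A' =
      (Fintype.card (X → Fin n) : ℝ) / (n : ℝ) ^ (A ∪ A').card := by
  rw [← ind_sum hn b (A ∪ A')]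
  refine Finset.sum_congr rfl fun h _ => ?_
  unfold ind
  by_cases h1 : ∀ x ∈ A, h x = b
  · by_cases h2 : ∀ x ∈ A', h x = b
    · rw [if_pos h1, if_pos h2, if_pos, one_mul]
      intro x hx
      rcases mem_union.1 hx with hx | hx
      · exact h1 x hx
      · exact h2 x hx
    · rw [if_neg h2, if_neg (show ¬ ∀ x ∈ A ∪ A', h x = b from
        fun h3 => h2 fun x hx => h3 x (mem_union_right _ hx)), mul_zero]
  · rw [if_neg h1, if_neg (show ¬ ∀ x ∈ A ∪ A', h x = b from
      fun h3 => h1 fun x hx => h3 x (mem_union_left _ hx)), zero_mul]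

/-- the pairs of `t`-subsets by their union -/
private theorem union_sum (hn : 0 < n) (E : Finset X) (hE : 4 * E.card ≤ n) (t : ℕ) :
    ∑ A ∈ E.powersetCard t, ∑ A' ∈ E.powersetCard t, 1 / (n : ℝ) ^ (A ∪ A').card ≤ 3 := by
  classical
  have hn' : (0 : ℝ) < n := by exact_mod_cast hn
  have h1 : ∀ A ∈ E.powersetCard t, ∀ A' ∈ E.powersetCard t, 1 / (n : ℝ) ^ (A ∪ A').card ≤
      ∑ U ∈ E.powerset, (if A ⊆ U then (1 : ℝ) else 0) * (if A' ⊆ U then (1 : ℝ) else 0) *
        (1 / (n : ℝ) ^ U.card) := by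
    intro A hA A' hA'
    rw [mem_powersetCard] at hA hA'
    have h2 := Finset.single_le_sum (s := E.powerset)
      (f := fun U => (if A ⊆ U then (1 : ℝ) else 0) * (if A' ⊆ U then (1 : ℝ) else 0) *
        (1 / (n : ℝ) ^ U.card))
      (fun U _ => by
        have h3 : (0 : ℝ) ≤ if A ⊆ U then (1 : ℝ) else 0 := by split_ifs <;> norm_num
        have h4 : (0 : ℝ) ≤ if A' ⊆ U then (1 : ℝ) else 0 := by split_ifs <;> norm_num
        exact mul_nonneg (mul_nonneg h3 h4) (by positivity))
      (mem_powerset.2 (union_subset hA.1 hA'.1))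
    rw [if_pos subset_union_left, if_pos subset_union_right, one_mul, one_mul] at h2
    exact h2
  refine (Finset.sum_le_sum fun A hA => Finset.sum_le_sum fun A' hA' => h1 A hA A' hA').trans ?_
  have h2 : ∑ A ∈ E.powersetCard t, ∑ A' ∈ E.powersetCard t, ∑ U ∈ E.powerset,
      (if A ⊆ U then (1 : ℝ) else 0) * (if A' ⊆ U then (1 : ℝ) else 0) * (1 / (n : ℝ) ^ U.card) =
      ∑ U ∈ E.powerset, (∑ A ∈ E.powersetCard t, if A ⊆ U then (1 : ℝ) else 0) *
        (∑ A' ∈ E.powersetCard t, if A' ⊆ U then (1 : ℝ) else 0) * (1 / (n : ℝ) ^ U.card) := by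
    rw [Finset.sum_congr rfl fun A _ => Finset.sum_comm, Finset.sum_comm]
    refine Finset.sum_congr rfl fun U _ => ?_
    rw [Finset.sum_mul_sum, Finset.sum_mul]
    refine Finset.sum_congr rfl fun A _ => ?_
    rw [Finset.sum_mul]
  rw [h2]
  have h3 : ∀ U ∈ E.powerset, (∑ A ∈ E.powersetCard t, if A ⊆ U then (1 : ℝ) else 0) ≤
      2 ^ U.card := by
    intro U _
    rw [Finset.sum_boole]
    have h4 : ((E.powersetCard t).filter fun A => A ⊆ U).card ≤ U.powerset.card := by
      apply Finset.card_le_card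
      intro A hA
      rw [mem_powerset]
      exact (mem_filter.1 hA).2
    rw [Finset.card_powerset] at h4
    exact_mod_cast h4
  have h0 : ∀ U : Finset X, 0 ≤ ∑ A ∈ E.powersetCard t, if A ⊆ U then (1 : ℝ) else 0 := by
    intro U
    exact Finset.sum_nonneg fun A _ => by split_ifs <;> norm_num
  have h5 : ∑ U ∈ E.powerset, (∑ A ∈ E.powersetCard t, if A ⊆ U then (1 : ℝ) else 0) *
        (∑ A' ∈ E.powersetCard t, if A' ⊆ U then (1 : ℝ) else 0) * (1 / (n : ℝ) ^ U.card) ≤
      ∑ U ∈ E.powerset, (4 / (n : ℝ)) ^ U.card * 1 ^ (E.card - U.card) := by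
    refine Finset.sum_le_sum fun U hU => ?_
    have e : (4 / (n : ℝ)) ^ U.card * 1 ^ (E.card - U.card) =
        (2 : ℝ) ^ U.card * 2 ^ U.card * (1 / (n : ℝ) ^ U.card) := by
      rw [one_pow, mul_one, div_pow, ← mul_pow]
      norm_num
      rw [div_eq_mul_inv]
    rw [e]
    refine mul_le_mul_of_nonneg_right ?_ (by positivity)
    exact mul_le_mul (h3 U hU) (h3 U hU) (h0 U) (by positivity)
  refine h5.trans ?_
  rw [Finset.sum_pow_mul_eq_add_pow]
  have h6 : 4 / (n : ℝ) + 1 ≤ Real.exp (4 / (n : ℝ)) := Real.add_one_le_exp _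
  calc (4 / (n : ℝ) + 1) ^ E.card ≤ Real.exp (4 / (n : ℝ)) ^ E.card := by
        exact pow_le_pow_left₀ (by positivity) h6 _
    _ = Real.exp (E.card * (4 / (n : ℝ))) := by rw [← Real.exp_nat_mul]
    _ ≤ Real.exp 1 := by
        apply Real.exp_le_exp.2
        have h7 : (4 : ℝ) * E.card ≤ n := by exact_mod_cast hE
        rw [← mul_div_assoc, div_le_one hn']
        linarith
    _ ≤ 3 := by
        have h9 := Real.exp_one_lt_d9
        linarith

/-- Proof. Let `Ω = (X → Fin n)`, `k = E.card`, `μ = n * k.choose t / n ^ t`.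
`ZZ h E t = ∑ b, ∑ A ∈ E.powersetCard t, [∀ x ∈ A, h x = b]` (the `t`-subsets of `E` contained in the
cell `b`; `Finset.card_powersetCard`, as in `load_avg` of Helper34/RB/LoadAvg.lean).
(1) `∑ h, ZZ h E t = |Ω| * μ` (`card_const_on`).
(2) `∑ h, (ZZ h E t) ^ 2 = ∑ b b' A A', #{h | h = b on A, h = b' on A'}`.  For `b ≠ b'` this number is
`0` if `A ∩ A' ≠ ∅` and `|Ω| / n ^ (2 t)` if `A ∩ A' = ∅` (`Fintype.piFinset` as in `card_const_on`),
so at most `|Ω| / n ^ (2 t)`; the sum over `b ≠ b'`, `A`, `A'` is at most `|Ω| μ ^ 2`.  For `b = b'` it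
is `|Ω| / n ^ (A ∪ A').card` (`card_const_on` for `A ∪ A'`); each `U ⊆ E` is `A ∪ A'` for at most
`4 ^ U.card` pairs, so the sum over `A`, `A'` is at most
`∑ U ∈ E.powerset, |Ω| 4 ^ U.card / n ^ U.card = |Ω| (1 + 4 / n) ^ k`
(`Finset.sum_pow_mul_eq_add_pow`), and `(1 + 4 / n) ^ k ≤ exp (4 k / n) ≤ exp 1 ≤ 3` as
`4 k ≤ n`.
(3) `∑ h, (ZZ - μ) ^ 2 = ∑ ZZ ^ 2 - 2 μ ∑ ZZ + |Ω| μ ^ 2 ≤ 3 n |Ω|`. -/
theorem load_var (hn : 0 < n) (E : Finset X) (hE : 4 * E.card ≤ n) {t : ℕ} (ht : 1 ≤ t) :
    ∑ h : X → Fin n, ((ZZ h E t : ℝ) - n * (E.card.choose t : ℝ) / (n : ℝ) ^ t) ^ 2 ≤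
      (Fintype.card (X → Fin n) : ℝ) * (3 * n) := by
  have hn' : (0 : ℝ) < n := by exact_mod_cast hn
  set F : ℝ := (Fintype.card (X → Fin n) : ℝ) with hF
  have hF0 : 0 ≤ F := by positivity
  set μ : ℝ := n * (E.card.choose t : ℝ) / (n : ℝ) ^ t with hμ
  -- the first moment
  have m1 : ∑ h : X → Fin n, (ZZ h E t : ℝ) = F * μ := by
    rw [Finset.sum_congr rfl fun h _ => ZZ_eq h E t, Finset.sum_comm]
    have h1 : ∀ b : Fin n, ∑ h : X → Fin n, ∑ A ∈ E.powersetCard t, ind h b A =
        (E.card.choose t : ℝ) * (F / (n : ℝ) ^ t) := by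
      intro b
      rw [Finset.sum_comm]
      have h2 : ∀ A ∈ E.powersetCard t, ∑ h : X → Fin n, ind h b A = F / (n : ℝ) ^ t := by
        intro A hA
        rw [ind_sum hn, (mem_powersetCard.1 hA).2]
      rw [Finset.sum_congr rfl h2, Finset.sum_const, Finset.card_powersetCard, nsmul_eq_mul]
    rw [Finset.sum_congr rfl fun b _ => h1 b, Finset.sum_const, Finset.card_univ, Fintype.card_fin,
      nsmul_eq_mul, hμ]
    ring
  -- the second moment
  have m2 : ∑ h : X → Fin n, (ZZ h E t : ℝ) ^ 2 ≤ F * μ ^ 2 + F * (3 * n) := by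
    have h1 : ∀ h : X → Fin n, (ZZ h E t : ℝ) ^ 2 = ∑ b : Fin n, ∑ b' : Fin n,
        ∑ A ∈ E.powersetCard t, ∑ A' ∈ E.powersetCard t, ind h b A * ind h b' A' := by
      intro h
      rw [ZZ_eq, sq, Finset.sum_mul_sum]
      refine Finset.sum_congr rfl fun b _ => Finset.sum_congr rfl fun b' _ => ?_
      rw [Finset.sum_mul_sum]
    have h2 : ∑ h : X → Fin n, (ZZ h E t : ℝ) ^ 2 = ∑ b : Fin n, ∑ b' : Fin n,
        ∑ A ∈ E.powersetCard t, ∑ A' ∈ E.powersetCard t,
          ∑ h : X → Fin n, ind h b A * ind h b' A' := by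
      rw [Finset.sum_congr rfl fun h _ => h1 h, Finset.sum_comm]
      refine Finset.sum_congr rfl fun b _ => ?_
      rw [Finset.sum_comm]
      refine Finset.sum_congr rfl fun b' _ => ?_
      rw [Finset.sum_comm]
      refine Finset.sum_congr rfl fun A _ => ?_
      rw [Finset.sum_comm]
    have h3 : ∀ b b' : Fin n, ∀ A ∈ E.powersetCard t, ∀ A' ∈ E.powersetCard t,
        ∑ h : X → Fin n, ind h b A * ind h b' A' ≤ F / ((n : ℝ) ^ t * (n : ℝ) ^ t) +
          (if b = b' then F * (1 / (n : ℝ) ^ (A ∪ A').card) else 0) := by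
      intro b b' A hA A' hA'
      by_cases hb : b = b'
      · subst hb
        rw [if_pos rfl, ind_same hn, mul_one_div]
        have : 0 ≤ F / ((n : ℝ) ^ t * (n : ℝ) ^ t) := by positivity
        linarith
      · rw [if_neg hb, add_zero]
        have h4 := ind_cross hn hb A A'
        rw [(mem_powersetCard.1 hA).2, (mem_powersetCard.1 hA').2] at h4
        exact h4
    rw [h2]
    have h4 : ∀ b : Fin n, ∑ b' : Fin n, ∑ A ∈ E.powersetCard t, ∑ A' ∈ E.powersetCard t,
          ∑ h : X → Fin n, ind h b A * ind h b' A' ≤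
        (n : ℝ) * ((E.card.choose t : ℝ) * ((E.card.choose t : ℝ) *
          (F / ((n : ℝ) ^ t * (n : ℝ) ^ t)))) + F * 3 := by
      intro b
      have h5 : ∀ b' : Fin n, ∑ A ∈ E.powersetCard t, ∑ A' ∈ E.powersetCard t,
          ∑ h : X → Fin n, ind h b A * ind h b' A' ≤
          (E.card.choose t : ℝ) * ((E.card.choose t : ℝ) * (F / ((n : ℝ) ^ t * (n : ℝ) ^ t))) +
            (if b = b' then F * 3 else 0) := by
        intro b'
        refine (Finset.sum_le_sum fun A hA => Finset.sum_le_sum fun A' hA' =>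
          h3 b b' A hA A' hA').trans ?_
        rw [Finset.sum_congr rfl fun A _ => Finset.sum_add_distrib, Finset.sum_add_distrib]
        refine add_le_add ?_ ?_
        · rw [Finset.sum_congr rfl fun A _ => Finset.sum_const _, Finset.sum_const,
            Finset.card_powersetCard, nsmul_eq_mul, nsmul_eq_mul]
        · by_cases hb : b = b'
          · simp only [if_pos hb]
            have h6 := union_sum hn E hE t
            have h7 : ∑ A ∈ E.powersetCard t, ∑ A' ∈ E.powersetCard t,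
                F * (1 / (n : ℝ) ^ (A ∪ A').card) = F * ∑ A ∈ E.powersetCard t,
                ∑ A' ∈ E.powersetCard t, 1 / (n : ℝ) ^ (A ∪ A').card := by
              rw [Finset.mul_sum]
              refine Finset.sum_congr rfl fun A _ => ?_
              rw [Finset.mul_sum]
            rw [h7]
            exact mul_le_mul_of_nonneg_left h6 hF0
          · simp only [if_neg hb, Finset.sum_const_zero, le_refl]
      refine (Finset.sum_le_sum fun b' _ => h5 b').trans ?_
      rw [Finset.sum_add_distrib, Finset.sum_const, Finset.card_univ, Fintype.card_fin,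
        nsmul_eq_mul, Finset.sum_ite_eq, if_pos (mem_univ _)]
    refine (Finset.sum_le_sum fun b _ => h4 b).trans ?_
    rw [Finset.sum_const, Finset.card_univ, Fintype.card_fin, nsmul_eq_mul, hμ]
    refine le_of_eq ?_
    field_simp
  have m3 : ∑ h : X → Fin n, ((ZZ h E t : ℝ) - μ) ^ 2 =
      ∑ h : X → Fin n, (ZZ h E t : ℝ) ^ 2 - 2 * μ * ∑ h : X → Fin n, (ZZ h E t : ℝ) +
        F * μ ^ 2 := by
    have h1 : ∀ h : X → Fin n, ((ZZ h E t : ℝ) - μ) ^ 2 =
        (ZZ h E t : ℝ) ^ 2 - 2 * μ * (ZZ h E t : ℝ) + μ ^ 2 := by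
      intro h
      ring
    rw [Finset.sum_congr rfl fun h _ => h1 h, Finset.sum_add_distrib, Finset.sum_sub_distrib,
      ← Finset.mul_sum, Finset.sum_const, Finset.card_univ, nsmul_eq_mul, hF]
  rw [m3, m1]
  nlinarith

end

end Pool.Agent.Helper81.RV
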