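import Pool.Agent.Helper34.RB.Avg
import Pool.Agent.Helper81.RU.ChooseH
import Pool.Agent.Helper81.RV.Var

/-!
# RV-2: choice of the cells of the base colouring

Put the proof into this file (keep the statement and the namespace; more lemmas are welcome).
-/

open Finset

namespace Pool.Agent.Helper81.RV

open Pool.Agent.Helper34.RB (Bs ld load_avg exists_avg sum_filter_le Bs_anti)

section priv

variable {X : Type} [LinearOrder X]

private lemma D_pos {ν t : ℕ} (hν : 4 ≤ ν) : (0 : ℝ) < (ν : ℝ) ^ t * (t.factorial : ℝ) := by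
  have h1 : 0 < ν := by omega
  have h2 : (0 : ℝ) < ν := by exact_mod_cast h1
  have h3 : (0 : ℝ) < t.factorial := by exact_mod_cast Nat.factorial_pos t
  positivity

private lemma NN_small {ν m t : ℕ} (hν : 4 ≤ ν) (h2 : 2 ≤ t) (h40 : t ≤ 40) :
    (1001 / 1000 : ℝ) * (((ν * m : ℕ) : ℝ) / ((ν : ℝ) ^ t * (t.factorial : ℝ))) ≤
      (NN ν m t : ℝ) + 1 := by
  have hD := D_pos (t := t) hν
  have hb : 0 < 1000 * (ν ^ t * t.factorial) := by
    have := Nat.factorial_pos t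
    have h3 : 0 < ν := by omega
    positivity
  have e : NN ν m t = 1001 * ν * m / (1000 * (ν ^ t * t.factorial)) := by
    unfold NN
    rw [if_neg (by omega), if_neg (by omega), if_pos h40]
  have h1 : 1001 * ν * m < (1000 * (ν ^ t * t.factorial)) * (NN ν m t + 1) := by
    rw [e]
    exact Nat.lt_mul_div_succ _ hb
  have h2 : (1001 * ν * m : ℝ) ≤ (1000 * ((ν : ℝ) ^ t * (t.factorial : ℝ))) *
      ((NN ν m t : ℝ) + 1) := by
    exact_mod_cast h1.le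
  rw [← mul_div_assoc, div_le_iff₀ hD]
  push_cast
  linarith

private lemma NN_big {ν m t : ℕ} (hν : 4 ≤ ν) (h41 : 41 ≤ t) :
    (1000 * (5 / 4) ^ (t - 40) : ℝ) * (((ν * m : ℕ) : ℝ) / ((ν : ℝ) ^ t * (t.factorial : ℝ))) ≤
      (NN ν m t : ℝ) + 1 := by
  have hD := D_pos (t := t) hν
  have hb : 0 < 4 ^ (t - 40) * (ν ^ t * t.factorial) := by
    have := Nat.factorial_pos t
    have h3 : 0 < ν := by omega
    positivity
  have e : NN ν m t = 1000 * 5 ^ (t - 40) * ν * m / (4 ^ (t - 40) * (ν ^ t * t.factorial)) := by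
    unfold NN
    rw [if_neg (by omega), if_neg (by omega), if_neg (by omega)]
  have h1 : 1000 * 5 ^ (t - 40) * ν * m < (4 ^ (t - 40) * (ν ^ t * t.factorial)) *
      (NN ν m t + 1) := by
    rw [e]
    exact Nat.lt_mul_div_succ _ hb
  have h2 : (1000 * 5 ^ (t - 40) * ν * m : ℝ) ≤ (4 ^ (t - 40) *
      ((ν : ℝ) ^ t * (t.factorial : ℝ))) * ((NN ν m t : ℝ) + 1) := by
    exact_mod_cast h1.le
  have h4 : (0 : ℝ) < 4 ^ (t - 40) := by positivity
  rw [← mul_div_assoc, div_le_iff₀ hD, div_pow]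
  have e2 : (1000 * (5 ^ (t - 40) / 4 ^ (t - 40)) : ℝ) * ((ν * m : ℕ) : ℝ) =
      (1000 * 5 ^ (t - 40) * ν * m : ℝ) / 4 ^ (t - 40) := by
    push_cast
    field_simp
  rw [e2, div_le_iff₀ h4]
  calc _ ≤ _ := h2
    _ = _ := by ring

private lemma avg_eq {ν m : ℕ} (t : ℕ) (hν : 4 ≤ ν) (hm : 0 < m) :
    ((ν * m : ℕ) : ℝ) * ((m : ℝ) / ((ν * m : ℕ) : ℝ)) ^ t / t.factorial =
      ((ν * m : ℕ) : ℝ) / ((ν : ℝ) ^ t * (t.factorial : ℝ)) := by
  have hm' : (0 : ℝ) < m := by exact_mod_cast hm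
  have hν0 : 0 < ν := by omega
  have hν' : (0 : ℝ) < ν := by exact_mod_cast hν0
  have h2 : (m : ℝ) / ((ν * m : ℕ) : ℝ) = 1 / ν := by
    push_cast
    field_simp
  rw [h2, div_pow, one_pow]
  have ht : (t.factorial : ℝ) ≠ 0 := by exact_mod_cast (Nat.factorial_pos t).ne'
  field_simp

/-- the mean of `ZZ` -/
private noncomputable def mu (n : ℕ) (E : Finset X) (t : ℕ) : ℝ :=
  n * (E.card.choose t : ℝ) / (n : ℝ) ^ t

private lemma mu_le {ν m t : ℕ} (hν : 4 ≤ ν) (hm : 0 < m) (E : Finset X) (hE : E.card ≤ m) :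
    mu (ν * m) E t ≤ ((ν * m : ℕ) : ℝ) / ((ν : ℝ) ^ t * (t.factorial : ℝ)) := by
  rw [← avg_eq t hν hm]
  unfold mu
  have hn : 0 < ν * m := Nat.mul_pos (by omega) hm
  generalize ν * m = n at hn
  have hn' : (0 : ℝ) < n := by exact_mod_cast hn
  have h1 : (E.card.choose t : ℝ) ≤ (E.card : ℝ) ^ t / t.factorial := Nat.choose_le_pow_div t _
  have h2 : (E.card : ℝ) ^ t ≤ (m : ℝ) ^ t := by
    exact pow_le_pow_left₀ (Nat.cast_nonneg _) (by exact_mod_cast hE) _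
  have ht : (0 : ℝ) < t.factorial := by exact_mod_cast (Nat.factorial_pos t)
  rw [div_pow, mul_div_assoc, mul_div_assoc]
  refine mul_le_mul_of_nonneg_left ?_ hn'.le
  rw [div_div, mul_comm ((n : ℝ) ^ t), ← div_div]
  refine div_le_div_of_nonneg_right ?_ (by positivity)
  exact h1.trans (div_le_div_of_nonneg_right h2 ht.le)

/-- the function of the moment argument -/
private noncomputable def gg (ν m TM : ℕ) (h : X → Fin (ν * m)) (E : Finset X) : ℝ :=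
  ∑ t ∈ Icc 2 40, (((ZZ h E t : ℝ) - mu (ν * m) E t) /
    (((ν * m : ℕ) : ℝ) / ((ν : ℝ) ^ t * (t.factorial : ℝ)) / 1000)) ^ 2 +
  ∑ t ∈ Icc 41 (TM - 1), ((Bs h E t).card : ℝ) / ((NN ν m t : ℝ) + 1) + ((Bs h E TM).card : ℝ)

private lemma gg_one (ν m TM : ℕ) (h : X → Fin (ν * m)) (E : Finset X) :
    0 ≤ ∑ t ∈ Icc 2 40, (((ZZ h E t : ℝ) - mu (ν * m) E t) /
    (((ν * m : ℕ) : ℝ) / ((ν : ℝ) ^ t * (t.factorial : ℝ)) / 1000)) ^ 2 :=
  Finset.sum_nonneg fun t _ => sq_nonneg _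

private lemma gg_two (ν m TM : ℕ) (h : X → Fin (ν * m)) (E : Finset X) :
    0 ≤ ∑ t ∈ Icc 41 (TM - 1), ((Bs h E t).card : ℝ) / ((NN ν m t : ℝ) + 1) :=
  Finset.sum_nonneg fun t _ => div_nonneg (Nat.cast_nonneg _)
    (add_nonneg (Nat.cast_nonneg _) zero_le_one)

private lemma gg_nonneg (ν m TM : ℕ) (h : X → Fin (ν * m)) (E : Finset X) :
    0 ≤ gg ν m TM h E :=
  add_nonneg (add_nonneg (gg_one ν m TM h E) (gg_two ν m TM h E)) (Nat.cast_nonneg _)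

private lemma gg_bad {ν m TM : ℕ} [Fintype X] (hν : 4 ≤ ν) (hm : 0 < m) (h : X → Fin (ν * m))
    (E : Finset X) (hE : E.card ≤ m)
    (hbad : ¬ ((∀ t, (Bs h E t).card ≤ NN ν m t) ∧ Bs h E TM = ∅)) : 1 ≤ gg ν m TM h E := by
  have p1 := gg_one ν m TM h E
  have p2 := gg_two ν m TM h E
  have p3 : (0 : ℝ) ≤ ((Bs h E TM).card : ℝ) := Nat.cast_nonneg _
  by_cases hT : Bs h E TM = ∅
  · have h1 : ∃ t, NN ν m t < (Bs h E t).card := by
      by_contra hcon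
      push Not at hcon
      exact hbad ⟨hcon, hT⟩
    obtain ⟨t, ht⟩ := h1
    have ht0 : t ≠ 0 := by
      rintro rfl
      have h2 : (Bs h E 0).card ≤ ν * m := by
        refine (Finset.card_le_univ _).trans ?_
        rw [Fintype.card_fin]
      have h3 : NN ν m 0 = ν * m := by
        unfold NN
        rw [if_pos rfl]
      omega
    have ht1 : t ≠ 1 := by
      rintro rfl
      have h2 := (RU.Bs_one_card h E).trans hE
      have h3 : NN ν m 1 = m := by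
        unfold NN
        rw [if_neg one_ne_zero, if_pos rfl]
      omega
    by_cases h40 : t ≤ 40
    · have hmem : t ∈ Icc 2 40 := by
        rw [Finset.mem_Icc]
        omega
      have hn : 0 < ν * m := Nat.mul_pos (by omega) hm
      have hn' : (0 : ℝ) < ((ν * m : ℕ) : ℝ) := by exact_mod_cast hn
      have hM : (0 : ℝ) < ((ν * m : ℕ) : ℝ) / ((ν : ℝ) ^ t * (t.factorial : ℝ)) / 1000 :=
        div_pos (div_pos hn' (D_pos hν)) (by norm_num)
      have q1 := NN_small (m := m) hν (show 2 ≤ t by omega) h40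
      have q2 := mu_le (t := t) hν hm E hE
      have q3 : (NN ν m t : ℝ) + 1 ≤ (ZZ h E t : ℝ) := by
        have := Bs_le_ZZ h E t
        exact_mod_cast (show NN ν m t + 1 ≤ ZZ h E t by omega)
      have q4 : (1 : ℝ) ≤ ((ZZ h E t : ℝ) - mu (ν * m) E t) /
          (((ν * m : ℕ) : ℝ) / ((ν : ℝ) ^ t * (t.factorial : ℝ)) / 1000) := by
        rw [le_div_iff₀ hM]
        linarith
      have q5 : (1 : ℝ) ≤ (((ZZ h E t : ℝ) - mu (ν * m) E t) /
          (((ν * m : ℕ) : ℝ) / ((ν : ℝ) ^ t * (t.factorial : ℝ)) / 1000)) ^ 2 :=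
        one_le_pow₀ q4
      have q6 := Finset.single_le_sum (s := Icc 2 40) (f := fun t => (((ZZ h E t : ℝ) -
        mu (ν * m) E t) / (((ν * m : ℕ) : ℝ) / ((ν : ℝ) ^ t * (t.factorial : ℝ)) / 1000)) ^ 2)
        (fun t _ => sq_nonneg _) hmem
      have q7 := q5.trans q6
      unfold gg
      linarith
    · have htT : t < TM := by
        by_contra hcon
        push Not at hcon
        have h2 : Bs h E t ⊆ Bs h E TM := Bs_anti hcon
        rw [hT] at h2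
        rw [Finset.subset_empty.1 h2, Finset.card_empty] at ht
        exact absurd ht (Nat.not_lt_zero _)
      have hmem : t ∈ Icc 41 (TM - 1) := by
        rw [Finset.mem_Icc]
        omega
      have h5 : (1 : ℝ) ≤ ((Bs h E t).card : ℝ) / ((NN ν m t : ℝ) + 1) := by
        rw [le_div_iff₀ (add_pos_of_nonneg_of_pos (Nat.cast_nonneg _) one_pos), one_mul]
        exact_mod_cast ht
      have h6 : ((Bs h E t).card : ℝ) / ((NN ν m t : ℝ) + 1) ≤
          ∑ t ∈ Icc 41 (TM - 1), ((Bs h E t).card : ℝ) / ((NN ν m t : ℝ) + 1) :=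
        Finset.single_le_sum (f := fun t => ((Bs h E t).card : ℝ) / ((NN ν m t : ℝ) + 1))
          (fun t _ => div_nonneg (Nat.cast_nonneg _) (add_nonneg (Nat.cast_nonneg _)
            zero_le_one)) hmem
      unfold gg
      linarith
  · have h1 : 1 ≤ (Bs h E TM).card := Finset.card_pos.2 (Finset.nonempty_iff_ne_empty.2 hT)
    have h2 : (1 : ℝ) ≤ ((Bs h E TM).card : ℝ) := by exact_mod_cast h1
    unfold gg
    linarith

private lemma sum_geo (K : ℕ) : ∑ t ∈ Icc 41 K, (4 / 5 : ℝ) ^ (t - 40) ≤ 4 := by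
  have h : ∀ K : ℕ, 40 ≤ K →
      ∑ t ∈ Icc 41 K, (4 / 5 : ℝ) ^ (t - 40) = 4 - 4 * (4 / 5) ^ (K - 40) := by
    intro K hK
    induction K, hK using Nat.le_induction with
    | base => norm_num
    | succ K hK ih =>
      rw [Finset.sum_Icc_succ_top (by omega), ih, show K + 1 - 40 = K - 40 + 1 by omega,
        pow_succ (4 / 5 : ℝ) (K - 40)]
      ring
  rcases Nat.lt_or_ge K 40 with h0 | h0
  · rw [Finset.Icc_eq_empty (by omega), Finset.sum_empty]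
    norm_num
  · rw [h K h0]
    have : (0 : ℝ) ≤ (4 / 5) ^ (K - 40) := by positivity
    linarith

private lemma D_le {ν t : ℕ} (hν7 : ν ≤ 7) (ht : t ≤ 40) :
    (ν : ℝ) ^ t * (t.factorial : ℝ) ≤ 10 ^ 82 := by
  have h1 : ν ^ t ≤ 7 ^ 40 :=
    (Nat.pow_le_pow_left hν7 t).trans (Nat.pow_le_pow_right (by norm_num) ht)
  have h2 : t.factorial ≤ Nat.factorial 40 := Nat.factorial_le ht
  have h3 : Nat.factorial 40 ≤ 10 ^ 48 := by
    simp only [Nat.factorial]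
    norm_num
  have h4 : ν ^ t * t.factorial ≤ 7 ^ 40 * 10 ^ 48 := Nat.mul_le_mul h1 (h2.trans h3)
  have h5 : (7 ^ 40 * 10 ^ 48 : ℕ) ≤ 10 ^ 82 := by norm_num
  exact_mod_cast h4.trans h5

private lemma part_one {ν m : ℕ} [Fintype X] (hν4 : 4 ≤ ν) (hν7 : ν ≤ 7) (hm : 10 ^ 400 ≤ m)
    (E : Finset X) (hE : E.card ≤ m) {t : ℕ} (h2 : 2 ≤ t) (h40 : t ≤ 40) :
    (∑ h : X → Fin (ν * m), ((ZZ h E t : ℝ) - mu (ν * m) E t) ^ 2) /
      (((ν * m : ℕ) : ℝ) / ((ν : ℝ) ^ t * (t.factorial : ℝ)) / 1000) ^ 2 ≤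
      (Fintype.card (X → Fin (ν * m)) : ℝ) * (1 / 10 ^ 6) := by
  have hm0 : 0 < m := lt_of_lt_of_le (by positivity) hm
  have hn : 0 < ν * m := Nat.mul_pos (by omega) hm0
  have hE4 : 4 * E.card ≤ ν * m := Nat.mul_le_mul hν4 hE
  have hv := load_var hn E hE4 (t := t) (by omega)
  have hD := D_pos (t := t) hν4
  have hD' := D_le hν7 h40
  have hmn : m ≤ ν * m := Nat.le_mul_of_pos_left m (by omega)
  have hbig : (10 : ℝ) ^ 400 ≤ ((ν * m : ℕ) : ℝ) := by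
    have := hm.trans hmn
    exact_mod_cast this
  unfold mu
  generalize ν * m = n at *
  have hn' : (0 : ℝ) < n := by exact_mod_cast hn
  generalize (ν : ℝ) ^ t * (t.factorial : ℝ) = D at *
  generalize (Fintype.card (X → Fin n) : ℝ) = N at *
  have hN0 : 0 ≤ N := by
    have h1 : (0 : ℝ) ≤ N * (3 * n) := le_trans (Finset.sum_nonneg fun h _ => sq_nonneg _) hv
    have h3 : (0 : ℝ) < 3 * n := by positivity
    exact nonneg_of_mul_nonneg_left h1 h3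
  have hden : (0 : ℝ) < ((n : ℝ) / D / 1000) ^ 2 := by positivity
  rw [div_le_iff₀ hden]
  refine hv.trans ?_
  rw [mul_assoc]
  refine mul_le_mul_of_nonneg_left ?_ hN0
  have e : (1 / 10 ^ 6 : ℝ) * ((n : ℝ) / D / 1000) ^ 2 = (n : ℝ) ^ 2 / (10 ^ 12 * D ^ 2) := by
    field_simp
    ring
  rw [e, le_div_iff₀ (by positivity)]
  have hD2 : D ^ 2 ≤ (10 ^ 82) ^ 2 := pow_le_pow_left₀ hD.le hD' 2
  have hc1 : (3 : ℝ) * (10 ^ 12 * (10 ^ 82) ^ 2) ≤ 10 ^ 200 := by norm_num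
  have hc2 : (10 : ℝ) ^ 200 ≤ 10 ^ 400 := pow_le_pow_right₀ (by norm_num) (by norm_num)
  have hc := hc1.trans hc2
  have h5 : (3 : ℝ) * (10 ^ 12 * D ^ 2) ≤ n := by
    calc (3 : ℝ) * (10 ^ 12 * D ^ 2) ≤ 3 * (10 ^ 12 * (10 ^ 82) ^ 2) := by gcongr
      _ ≤ 10 ^ 400 := hc
      _ ≤ n := hbig
  calc (3 * (n : ℝ)) * (10 ^ 12 * D ^ 2) = (n : ℝ) * (3 * (10 ^ 12 * D ^ 2)) := by ring
    _ ≤ (n : ℝ) * (n : ℝ) := mul_le_mul_of_nonneg_left h5 hn'.le
    _ = (n : ℝ) ^ 2 := by ring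

private lemma gg_sum {ν m TM : ℕ} [Fintype X] (hν4 : 4 ≤ ν) (hν7 : ν ≤ 7)
    (hm : 10 ^ 400 ≤ m) (E : Finset X) (hE : E.card ≤ m)
    (hTM : 1000 * ν * m ≤ ν ^ TM * TM.factorial) :
    ∑ h : X → Fin (ν * m), gg ν m TM h E ≤
      (Fintype.card (X → Fin (ν * m)) : ℝ) * (6 / 1000) := by
  have hm0 : 0 < m := lt_of_lt_of_le (by positivity) hm
  have hn : 0 < ν * m := Nat.mul_pos (by omega) hm0
  have hn' : (0 : ℝ) < ((ν * m : ℕ) : ℝ) := by exact_mod_cast hn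
  have hL := Pool.Agent.Helper34.RB.load_avg (n := ν * m) hn E hE
  have hP : ∀ t ∈ Icc 2 40, (∑ h : X → Fin (ν * m), ((ZZ h E t : ℝ) - mu (ν * m) E t) ^ 2) /
      (((ν * m : ℕ) : ℝ) / ((ν : ℝ) ^ t * (t.factorial : ℝ)) / 1000) ^ 2 ≤
      (Fintype.card (X → Fin (ν * m)) : ℝ) * (1 / 10 ^ 6) := by
    intro t ht
    rw [mem_Icc] at ht
    exact part_one hν4 hν7 hm E hE ht.1 ht.2
  generalize hN : (Fintype.card (X → Fin (ν * m)) : ℝ) = N at hL hP ⊢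
  have hN0 : 0 ≤ N := by rw [← hN]; exact Nat.cast_nonneg _
  have e1 : ∑ h : X → Fin (ν * m), gg ν m TM h E =
      ∑ t ∈ Icc 2 40, (∑ h : X → Fin (ν * m), ((ZZ h E t : ℝ) - mu (ν * m) E t) ^ 2) /
        (((ν * m : ℕ) : ℝ) / ((ν : ℝ) ^ t * (t.factorial : ℝ)) / 1000) ^ 2 +
      ∑ t ∈ Icc 41 (TM - 1),
        (∑ h : X → Fin (ν * m), ((Bs h E t).card : ℝ)) / ((NN ν m t : ℝ) + 1) +
      ∑ h : X → Fin (ν * m), ((Bs h E TM).card : ℝ) := by
    unfold gg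
    rw [Finset.sum_add_distrib, Finset.sum_add_distrib, Finset.sum_comm, Finset.sum_comm (s :=
      (univ : Finset (X → Fin (ν * m)))) (t := Icc 41 (TM - 1))]
    congr 1
    congr 1
    · refine Finset.sum_congr rfl fun t _ => ?_
      rw [Finset.sum_div]
      refine Finset.sum_congr rfl fun h _ => ?_
      rw [div_pow]
    · refine Finset.sum_congr rfl fun t _ => ?_
      rw [Finset.sum_div]
  have e2 : ∀ t ∈ Icc 41 (TM - 1),
      (∑ h : X → Fin (ν * m), ((Bs h E t).card : ℝ)) / ((NN ν m t : ℝ) + 1) ≤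
      N * (1 / 1000) * (4 / 5 : ℝ) ^ (t - 40) := by
    intro t ht
    rw [mem_Icc] at ht
    have h1 := hL t
    rw [avg_eq t hν4 hm0] at h1
    have h2 := NN_big (m := m) hν4 ht.1
    have h4 : (0 : ℝ) < (NN ν m t : ℝ) + 1 := add_pos_of_nonneg_of_pos (Nat.cast_nonneg _) one_pos
    rw [div_le_iff₀ h4]
    refine h1.trans ?_
    have hs : (4 / 5 : ℝ) ^ (t - 40) * (5 / 4) ^ (t - 40) = 1 := by
      rw [← mul_pow]
      norm_num
    calc N * (((ν * m : ℕ) : ℝ) / ((ν : ℝ) ^ t * (t.factorial : ℝ)))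
        = N * (1 / 1000) * (1000 * ((4 / 5 : ℝ) ^ (t - 40) * (5 / 4) ^ (t - 40))) *
          (((ν * m : ℕ) : ℝ) / ((ν : ℝ) ^ t * (t.factorial : ℝ))) := by rw [hs]; ring
      _ = N * (1 / 1000) * (4 / 5 : ℝ) ^ (t - 40) * ((1000 * (5 / 4) ^ (t - 40)) *
          (((ν * m : ℕ) : ℝ) / ((ν : ℝ) ^ t * (t.factorial : ℝ)))) := by ring
      _ ≤ N * (1 / 1000) * (4 / 5 : ℝ) ^ (t - 40) * ((NN ν m t : ℝ) + 1) := by
          refine mul_le_mul_of_nonneg_left h2 ?_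
          positivity
  have e3 : ∑ h : X → Fin (ν * m), ((Bs h E TM).card : ℝ) ≤ N * (1 / 1000) := by
    have h1 := hL TM
    rw [avg_eq TM hν4 hm0] at h1
    refine h1.trans ?_
    have hD := D_pos (t := TM) hν4
    have h2 : (1000 * ν * m : ℝ) ≤ (ν : ℝ) ^ TM * (TM.factorial : ℝ) := by
      exact_mod_cast hTM
    apply mul_le_mul_of_nonneg_left _ hN0
    rw [div_le_div_iff₀ hD (by norm_num)]
    push_cast
    linarith
  rw [e1]
  have c1 : ∑ t ∈ Icc 2 40, (∑ h : X → Fin (ν * m), ((ZZ h E t : ℝ) - mu (ν * m) E t) ^ 2) /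
      (((ν * m : ℕ) : ℝ) / ((ν : ℝ) ^ t * (t.factorial : ℝ)) / 1000) ^ 2 ≤ N * (1 / 1000) := by
    refine (Finset.sum_le_sum hP).trans ?_
    rw [Finset.sum_const, Nat.card_Icc, nsmul_eq_mul]
    have : ((40 + 1 - 2 : ℕ) : ℝ) = 39 := by norm_num
    rw [this]
    nlinarith
  have c2 : ∑ t ∈ Icc 41 (TM - 1),
      (∑ h : X → Fin (ν * m), ((Bs h E t).card : ℝ)) / ((NN ν m t : ℝ) + 1) ≤
      N * (1 / 1000) * 4 := by
    refine (Finset.sum_le_sum e2).trans ?_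
    rw [← Finset.mul_sum]
    exact mul_le_mul_of_nonneg_left (sum_geo _) (by positivity)
  linarith

end priv

open Classical in
/-- Proof (compare `RU.chooseH` in Helper81/RU/ChooseH.lean, from which most of this can be copied).
Let `n = ν m`, and for a set `E` with `E.card ≤ m` and `t ≥ 1` let
`μ_t(E) = n * (E.card).choose t / n ^ t ≤ M_t := ν m / (ν ^ t t!)` (`Nat.choose_le_pow_div`,
`E.card ≤ m`).  Put
`f h E = ∑ t ∈ Icc 2 40, ((ZZ h E t - μ_t(E)) / (M_t / 1000)) ^ 2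
  + ∑ t ∈ Icc 41 (TM - 1), (Bs h E t).card / (NN ν m t + 1) + (Bs h E TM).card ≥ 0`.
(1) If `S i` is bad for `h` then `1 ≤ f h (S i)`.  If `Bs h E TM ≠ ∅` the last term is `≥ 1`.
Otherwise `NN ν m t < (Bs h E t).card` for some `t < TM`; `t ≠ 0` (`|Bs 0| ≤ ν m`), `t ≠ 1`
(`RU.Bs_one_card`: `|Bs 1| ≤ E.card ≤ m`).  If `2 ≤ t ≤ 40`: `ZZ h E t ≥ (Bs h E t).card ≥ NN ν m t + 1
≥ 1001 ν m / (1000 * ν ^ t t!) = M_t + M_t / 1000` (`Bs_le_ZZ`, `Nat.lt_mul_div_succ`), and `μ_t ≤ M_t`,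
so the term `t` of the first sum is `≥ 1`.  If `41 ≤ t ≤ TM - 1` the term `t` of the second sum is `≥ 1`.
(2) `∑ h, f h E ≤ |Ω| * (6 / 1000)`: by `load_var` the first sum contributes at most
`|Ω| * ∑ t ∈ Icc 2 40, 3 * (ν m) * (1000 * ν ^ t t! / (ν m)) ^ 2 ≤ |Ω| * 39 * 3 * 10 ^ 6 *
(7 ^ 40 * 40!) ^ 2 / (4 m) ≤ |Ω| / 1000` as `m ≥ 10 ^ 400`; by `load_avg` (the average of
`(Bs h E t).card` is at most `ν m / (ν ^ t t!)`) and
`NN ν m t + 1 ≥ 1000 * (5 / 4) ^ (t - 40) ν m / (ν ^ t t!)` the second one at most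
`|Ω| ∑ t ≥ 41, (4 / 5) ^ (t - 40) / 1000 ≤ |Ω| * 4 / 1000`, and the last term at most
`|Ω| ν m / (ν ^ TM TM!) ≤ |Ω| / 1000` by `hTM`.
(3) `exists_avg`, `sum_filter_le`. -/
theorem chooseH {X ι : Type} [LinearOrder X] [Fintype X] (I : Finset ι) (S : ι → Finset X)
    (w : ι → ℝ) (hw : ∀ i ∈ I, 0 ≤ w i) {ν m TM : ℕ} (hν4 : 4 ≤ ν) (hν7 : ν ≤ 7)
    (hm : 10 ^ 400 ≤ m)
    (hS : ∀ i ∈ I, (S i).card ≤ m) (hTM : 1000 * ν * m ≤ ν ^ TM * TM.factorial) :
    ∃ h : X → Fin (ν * m), ∑ i ∈ I.filter (fun i =>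
      ¬ ((∀ t, (Bs h (S i) t).card ≤ NN ν m t) ∧ Bs h (S i) TM = ∅)), w i ≤
        6 / 1000 * ∑ i ∈ I, w i := by
  have hm0 : 0 < m := lt_of_lt_of_le (by positivity) hm
  have hn : 0 < ν * m := Nat.mul_pos (by omega) hm0
  have : Nonempty (X → Fin (ν * m)) := ⟨fun _ => ⟨0, hn⟩⟩
  obtain ⟨h, hh⟩ := exists_avg I w hw (fun (h : X → Fin (ν * m)) i => gg ν m TM h (S i)) (6 / 1000)
    (fun i hi => gg_sum hν4 hν7 hm (S i) (hS i hi) hTM)
  refine ⟨h, ?_⟩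
  refine (sum_filter_le I w hw _ (fun i => gg ν m TM h (S i)) (fun i _ => gg_nonneg _ _ _ _ _)
    ?_).trans hh
  intro i hi hbad
  exact gg_bad hν4 hm0 h (S i) (hS i hi) hbad

end Pool.Agent.Helper81.RV
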