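import Pool.Agent.Helper81.RU.ChooseM
import Pool.Agent.Helper81.RV.Defs

/-!
# Choice of the digit functions

The moduli are `qq a s = (3 ^ (s + 1) + 1) / 2`, `s ≥ a`, and `29525` for `s < a`.
-/

open Finset

namespace Pool.Agent.Helper81.RV

open Pool.Agent.Helper34.RB (NZ dg chooseM1 sum_filter_le)
open Pool.Agent.Helper81.RU (qa_pos qa_lb)

lemma dig_sum (a : ℕ) (ha : a ≤ 4) (v2 v3 v4 : ℕ) (h2 : qq a 2 = v2) (h3 : qq a 3 = v3)
    (h4 : qq a 4 = v4) (T : ℕ) :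
    ∑ s ∈ Icc 2 T, ((s - 1 : ℕ) : ℝ) / (qq a s : ℝ) ≤
      1 / (v2 : ℝ) + 2 / (v3 : ℝ) + 3 / (v4 : ℝ) + 9 / 486 := by
  have h : ∀ T : ℕ, 4 ≤ T → ∑ s ∈ Icc 2 T, ((s - 1 : ℕ) : ℝ) / (qq a s : ℝ) ≤
      1 / (v2 : ℝ) + 2 / (v3 : ℝ) + 3 / (v4 : ℝ) + 9 / 486 - ((T : ℝ) + 1 / 2) / 3 ^ (T + 1) := by
    intro T hT
    induction T, hT using Nat.le_induction with
    | base =>
      have h5 : Icc 2 4 = ({2, 3, 4} : Finset ℕ) := by decide
      rw [h5, Finset.sum_insert (by decide), Finset.sum_pair (by norm_num), h2, h3, h4]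
      norm_num
      linarith
    | succ T hT ih =>
      rw [Finset.sum_Icc_succ_top (by omega)]
      have hq : qq a (T + 1) = RU.qa (T + 2) := by
        unfold qq
        rw [if_neg (by omega)]
      have hlb := qa_lb (T + 2)
      have h3 : (0 : ℝ) < 3 ^ (T + 2) := by positivity
      have h4 : ((T + 1 - 1 : ℕ) : ℝ) / (qq a (T + 1) : ℝ) ≤ 2 * (T : ℝ) / 3 ^ (T + 2) := by
        rw [hq, Nat.add_sub_cancel]
        have h5 : (0 : ℝ) < (RU.qa (T + 2) : ℝ) := by exact_mod_cast qa_pos _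
        rw [div_le_div_iff₀ h5 h3]
        have h6 : (0 : ℝ) ≤ T := Nat.cast_nonneg T
        nlinarith
      have h7 : ((T : ℝ) + 1 / 2) / 3 ^ (T + 1) - (((T + 1 : ℕ) : ℝ) + 1 / 2) / 3 ^ (T + 1 + 1) =
          2 * (T : ℝ) / 3 ^ (T + 2) := by
        push_cast
        rw [pow_succ (3 : ℝ) (T + 1)]
        field_simp
        ring
      linarith
  rcases le_or_gt 4 T with hT | hT
  · refine (h T hT).trans ?_
    have : (0 : ℝ) ≤ ((T : ℝ) + 1 / 2) / 3 ^ (T + 1) := by positivity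
    linarith
  · refine le_trans ?_ ((h 4 le_rfl).trans ?_)
    · apply Finset.sum_le_sum_of_subset_of_nonneg
      · exact Finset.Icc_subset_Icc le_rfl (by omega)
      · intro s _ _
        positivity
    · norm_num

lemma dig_sum2 (T : ℕ) :
    ∑ s ∈ Icc 2 T, ((s - 1 : ℕ) : ℝ) / (qq 2 s : ℝ) ≤ 164 / 1000 := by
  refine (dig_sum 2 (by norm_num) 14 41 122 (by decide) (by decide) (by decide) T).trans ?_
  norm_num

lemma dig_sum3 (T : ℕ) :
    ∑ s ∈ Icc 2 T, ((s - 1 : ℕ) : ℝ) / (qq 3 s : ℝ) ≤ 92 / 1000 := by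
  refine (dig_sum 3 (by norm_num) 29525 41 122 (by decide) (by decide) (by decide) T).trans ?_
  norm_num

lemma dig_sum4 (T : ℕ) :
    ∑ s ∈ Icc 2 T, ((s - 1 : ℕ) : ℝ) / (qq 4 s : ℝ) ≤ 44 / 1000 := by
  refine (dig_sum 4 (by norm_num) 29525 29525 122 (by decide) (by decide) (by decide) T).trans ?_
  norm_num

open Classical in
theorem chooseM {X ι : Type} [LinearOrder X] [Fintype X] {n : ℕ} (h : X → Fin n) (I : Finset ι)
    (S : ι → Finset X) (w : ι → ℝ) (hw : ∀ i ∈ I, 0 ≤ w i) (a TM : ℕ) {L : ℝ}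
    (hL : ∑ s ∈ Icc 2 TM, ((s - 1 : ℕ) : ℝ) / (qq a s : ℝ) ≤ L) :
    ∃ M : ∀ s, ℕ → Finset X → ZMod (qq a s),
      ∑ i ∈ I.filter (fun i => ¬ ∀ s ∈ Icc 2 TM, NZ h (qq a s) (M s) s (S i)), w i ≤
        L * ∑ i ∈ I, w i := by
  have hW : 0 ≤ ∑ i ∈ I, w i := Finset.sum_nonneg hw
  have key : ∀ s j : ℕ, ∃ M : Finset X → ZMod (qq a s), 1 ≤ j → j < s →
      ∑ i ∈ I.filter (fun i => dg h (qq a s) M s j (S i) = 0), w i ≤
        1 / (qq a s : ℝ) * ∑ i ∈ I, w i := by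
    intro s j
    by_cases hc : 1 ≤ j ∧ j < s
    · have : NeZero (qq a s) := ⟨(qa_pos _).ne'⟩
      obtain ⟨M, hM⟩ := chooseM1 h I S w hw (q := qq a s) hc.1 hc.2
      exact ⟨M, fun _ _ => hM⟩
    · exact ⟨0, fun h1 h2 => absurd ⟨h1, h2⟩ hc⟩
  choose M hM using key
  refine ⟨M, ?_⟩
  have h1 := sum_filter_le I w hw (fun i => ¬ ∀ s ∈ Icc 2 TM, NZ h (qq a s) (M s) s (S i))
    (fun i => ∑ s ∈ Icc 2 TM, ∑ j ∈ Icc 1 (s - 1),
      if dg h (qq a s) (M s j) s j (S i) = 0 then (1 : ℝ) else 0)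
    (fun i _ => Finset.sum_nonneg fun s _ => Finset.sum_nonneg fun j _ => by
      split_ifs <;> norm_num)
    (by
      intro i _ hi
      push Not at hi
      obtain ⟨s, hs, hns⟩ := hi
      unfold NZ at hns
      push Not at hns
      obtain ⟨-, j, hj⟩ := hns
      have hj2 := j.2
      have hjm : (j : ℕ) + 1 ∈ Icc 1 (s - 1) := by
        rw [mem_Icc]
        omega
      have a1 : (1 : ℝ) ≤ ∑ j ∈ Icc 1 (s - 1),
          if dg h (qq a s) (M s j) s j (S i) = 0 then (1 : ℝ) else 0 := by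
        refine le_trans (le_of_eq ?_) (Finset.single_le_sum (f := fun j =>
          if dg h (qq a s) (M s j) s j (S i) = 0 then (1 : ℝ) else 0) (fun j _ => by
            split_ifs <;> norm_num) hjm)
        rw [if_pos]
        exact hj
      exact a1.trans (Finset.single_le_sum (f := fun s => ∑ j ∈ Icc 1 (s - 1),
          if dg h (qq a s) (M s j) s j (S i) = 0 then (1 : ℝ) else 0) (fun s _ =>
            Finset.sum_nonneg fun j _ => by split_ifs <;> norm_num) hs))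
  have h2 : ∑ i ∈ I, w i * (∑ s ∈ Icc 2 TM, ∑ j ∈ Icc 1 (s - 1),
      if dg h (qq a s) (M s j) s j (S i) = 0 then (1 : ℝ) else 0) =
      ∑ s ∈ Icc 2 TM, ∑ j ∈ Icc 1 (s - 1),
        ∑ i ∈ I.filter (fun i => dg h (qq a s) (M s j) s j (S i) = 0), w i := by
    simp_rw [Finset.mul_sum]
    rw [Finset.sum_comm]
    refine Finset.sum_congr rfl fun s _ => ?_
    rw [Finset.sum_comm]
    refine Finset.sum_congr rfl fun j _ => ?_
    rw [Finset.sum_filter]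
    refine Finset.sum_congr rfl fun i _ => ?_
    split_ifs <;> simp
  have h3 : ∑ s ∈ Icc 2 TM, ∑ j ∈ Icc 1 (s - 1),
        ∑ i ∈ I.filter (fun i => dg h (qq a s) (M s j) s j (S i) = 0), w i ≤
      ∑ s ∈ Icc 2 TM, (((s - 1 : ℕ) : ℝ) / (qq a s : ℝ)) * ∑ i ∈ I, w i := by
    refine Finset.sum_le_sum fun s hs => ?_
    calc ∑ j ∈ Icc 1 (s - 1),
        ∑ i ∈ I.filter (fun i => dg h (qq a s) (M s j) s j (S i) = 0), w i
        ≤ ∑ j ∈ Icc 1 (s - 1), 1 / (qq a s : ℝ) * ∑ i ∈ I, w i := by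
          refine Finset.sum_le_sum fun j hj => ?_
          rw [mem_Icc] at hj
          exact hM s j hj.1 (by omega)
      _ = ((s - 1 : ℕ) : ℝ) * (1 / (qq a s : ℝ) * ∑ i ∈ I, w i) := by
          rw [Finset.sum_const, Nat.card_Icc, nsmul_eq_mul, Nat.add_sub_cancel]
      _ = (((s - 1 : ℕ) : ℝ) / (qq a s : ℝ)) * ∑ i ∈ I, w i := by ring
  rw [← Finset.sum_mul] at h3
  have h8 : (∑ s ∈ Icc 2 TM, ((s - 1 : ℕ) : ℝ) / (qq a s : ℝ)) * ∑ i ∈ I, w i ≤
      L * ∑ i ∈ I, w i := mul_le_mul_of_nonneg_right hL hW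
  rw [h2] at h1
  refine le_trans (le_of_eq ?_) (h1.trans (h3.trans h8))
  congr

end Pool.Agent.Helper81.RV
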