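import Pool.Agent.Helper81.RU.SumFree
import Pool.Agent.Helper81.RV.Defs

/-!
# RV-4: a compression with multiplicity `a`

Put the proof into this file (keep the statement and the namespace).
-/

open Finset

namespace Pool.Agent.Helper81.RV

open Pool.Agent.Helper34.RB hiding Dd Dsum Good
open Pool.Agent.Helper81.RU (qa sumfree)

/-- Proof (compare `RU.compr_qa`, the case `a = 2`).  Let `d = s + 1 - a` (so `d ≤ s - 1`).  If `d = 0`
take `Φ = 0`: there are only `s + 1 ≤ a` children.  In general `Φ v` is the code of the colours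
`col (v j)` of the first `d` entries (`j < d`), `col` from `sumfree`: `Φ v < A ^ d`.  Let `I` be the set in
`Compr`, `i₀` its smallest and `i₁` its largest element.  If `i ∈ I`, `i₀ < i < i₁`, and `i ≤ d`, then
the entry `j = i - 1 < d` has `Vv a b i₀ j = b j`, `Vv a b i j = a j + b j`, `Vv a b i₁ j = a j`, all
nonzero and of the same colour: contradiction to `sumfree`.  So all elements of `I` except `i₀`, `i₁`
are in `Ico (d + 1) s`, and `I.card ≤ 2 + (s - 1 - d) = a` (if `d = 0`: `I.card ≤ s + 1 ≤ a`). -/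
theorem compr_gen (A s a : ℕ) (hA : 1 ≤ A) (ha : 2 ≤ a) :
    ∃ Φ : (Fin (s - 1) → ZMod (qa A)) → ℕ, Compr (qa A) s (A ^ (s + 1 - a)) a Φ := by
  obtain ⟨col, h1, h2⟩ := sumfree A hA
  have hd : ∀ j : Fin (s + 1 - a), (j : ℕ) < s - 1 := by
    intro j
    have := j.isLt
    omega
  obtain ⟨Φ, hΦ⟩ : ∃ Φ : (Fin (s - 1) → ZMod (qa A)) → ℕ, ∀ v, Φ v =
      ((finFunctionFinEquiv (fun j : Fin (s + 1 - a) => (⟨col (v ⟨(j : ℕ), hd j⟩), h1 _⟩ : Fin A))) :
        Fin (A ^ (s + 1 - a))).val := ⟨_, fun _ => rfl⟩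
  have hcol : ∀ v v' : Fin (s - 1) → ZMod (qa A), Φ v = Φ v' → ∀ j : Fin (s + 1 - a),
      col (v ⟨(j : ℕ), hd j⟩) = col (v' ⟨(j : ℕ), hd j⟩) := by
    intro v v' h j
    rw [hΦ, hΦ] at h
    have h3 := finFunctionFinEquiv.injective (Fin.ext h)
    have h4 := congrFun h3 j
    exact congrArg Fin.val h4
  refine ⟨Φ, ?_, ?_⟩
  · intro v
    rw [hΦ]
    exact Fin.isLt _
  · intro x y w
    set I := (range (s + 1)).filter fun i => (∀ j, Vv x y i j ≠ 0) ∧ Φ (Vv x y i) = w with hI
    rcases Nat.lt_or_ge a (s + 1) with has | has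
    · have key : ∀ i i' i'' : ℕ, i < i' → i' < i'' → i' ≤ s + 1 - a →
          i ∈ I → i' ∈ I → i'' ∈ I → False := by
        intro i i' i'' k1 k2 k3 k4 k5 k6
        rw [hI, mem_filter, mem_range] at k4 k5 k6
        have hj0 : i' - 1 < s + 1 - a := by omega
        have hj : i' - 1 < s - 1 := by omega
        have m1 := hcol _ _ (k4.2.2.trans k5.2.2.symm) ⟨i' - 1, hj0⟩
        have m2 := hcol _ _ (k6.2.2.trans k4.2.2.symm) ⟨i' - 1, hj0⟩
        have n1 := k4.2.1 ⟨i' - 1, hj⟩
        have n2 := k5.2.1 ⟨i' - 1, hj⟩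
        have n3 := k6.2.1 ⟨i' - 1, hj⟩
        have e1 : ¬ (i' - 1 + 1 < i) := by omega
        have e2 : ¬ (i' - 1 + 1 = i) := by omega
        have e3 : ¬ (i' - 1 + 1 < i') := by omega
        have e4 : i' - 1 + 1 = i' := by omega
        have e5 : i' - 1 + 1 < i'' := by omega
        simp only [Vv] at m1 m2 n1 n2 n3
        rw [if_neg e1, if_neg e2] at m1 m2 n1
        rw [if_neg e3, if_pos e4] at m1 n2
        rw [if_pos e5] at m2 n3
        exact h2 _ _ n3 n1 n2 ⟨m2, m1.symm.trans m2.symm⟩
      rcases I.eq_empty_or_nonempty with h0 | h0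
      · rw [h0, card_empty]
        exact Nat.zero_le _
      · have hsub : I ⊆ ({I.min' h0, I.max' h0} : Finset ℕ) ∪ Ico (s + 1 - a + 1) s := by
          intro i hi
          rw [mem_union, mem_insert, mem_singleton, mem_Ico]
          by_contra hc
          push Not at hc
          obtain ⟨⟨c1, c2⟩, c3⟩ := hc
          have d1 : I.min' h0 < i := lt_of_le_of_ne (I.min'_le i hi) (Ne.symm c1)
          have d2 : i < I.max' h0 := lt_of_le_of_ne (I.le_max' i hi) c2
          have d3 : I.max' h0 < s + 1 := by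
            have h4 : ∀ j ∈ I, j < s + 1 := by
              intro j hj
              rw [hI, mem_filter, mem_range] at hj
              exact hj.1
            exact h4 _ (I.max'_mem h0)
          refine key _ i _ d1 d2 ?_ (I.min'_mem h0) hi (I.max'_mem h0)
          by_contra hc'
          have := c3 (by omega)
          omega
        refine (card_le_card hsub).trans ((card_union_le _ _).trans ?_)
        have e1 : ({I.min' h0, I.max' h0} : Finset ℕ).card ≤ 2 := card_le_two
        rw [Nat.card_Ico]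
        omega
    · refine (card_filter_le _ _).trans ?_
      rw [card_range]
      exact has

end Pool.Agent.Helper81.RV
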