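import Pool.Agent.Helper34.RB.Defs

/-!
# Superadditivity

`Fam a c`: for all large `m`, among weighted sets of size at most `m` there is a family, bounded by `a`,
with (strictly) more than the share `c / m` of the weight.
-/

open Finset

namespace Pool.Agent.Helper81.RV

open Pool.Agent.Helper34.RB (Bdd)

open Classical in
/-- a bounded family with more than the share `c / m` of the weight, for all large `m` -/
def Fam (a : ℕ) (c : ℝ) : Prop :=
  ∃ c' : ℝ, c < c' ∧ ∃ m0 : ℕ, ∀ (N : ℕ) (I : Finset ℕ) (S : ℕ → Finset (Fin (N + 1)))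
    (w : ℕ → ℝ), (∀ i ∈ I, 0 ≤ w i) → ∀ m : ℕ, m0 ≤ m → (∀ i ∈ I, (S i).card ≤ m) →
    ∃ F : Finset (Fin (N + 1)) → Prop, Bdd a F ∧
      c' * ∑ i ∈ I, w i ≤ m * ∑ i ∈ I.filter (fun i => F (S i)), w i

theorem Fam.mono {a b : ℕ} {c d : ℝ} (h : Fam a c) (hab : a ≤ b) (hdc : d ≤ c) : Fam b d := by
  obtain ⟨c', hc, m0, h⟩ := h
  refine ⟨c', lt_of_le_of_lt hdc hc, m0, fun N I S w hw m hm hS => ?_⟩
  obtain ⟨F, hF, h1⟩ := h N I S w hw m hm hS
  exact ⟨F, fun T => (hF T).trans hab, h1⟩

theorem Fam.add {a b : ℕ} {c d : ℝ} (hc0 : 0 ≤ c) (hd0 : 0 ≤ d) (h : Fam a c) (h' : Fam b d) :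
    Fam (a + b) (c + d) := by
  classical
  obtain ⟨c', hc, m0, h⟩ := h
  obtain ⟨d', hd, m0', h'⟩ := h'
  set η : ℝ := ((c' - c) + (d' - d)) / 2 with hη
  have hη0 : 0 < η := by rw [hη]; linarith
  set e' : ℝ := c' + d' - η with he'
  have he0 : 0 ≤ e' := by rw [he', hη]; linarith
  obtain ⟨m1, hm1⟩ := exists_nat_gt (d' * e' / η)
  refine ⟨e', by rw [he', hη]; linarith, max (max m0 m0') (m1 + 1), fun N I S w hw m hm hS => ?_⟩
  have hma : m0 ≤ m := le_trans (le_trans (le_max_left _ _) (le_max_left _ _)) hm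
  have hmb : m0' ≤ m := le_trans (le_trans (le_max_right _ _) (le_max_left _ _)) hm
  have hmc : m1 + 1 ≤ m := le_trans (le_max_right _ _) hm
  have hm1' : (m1 : ℝ) ≤ m := by exact_mod_cast (by omega : m1 ≤ m)
  have hmpos : (0 : ℝ) < m := by exact_mod_cast (by omega : 0 < m)
  have hme : d' * e' ≤ η * m := by
    rw [div_lt_iff₀ hη0] at hm1
    nlinarith
  obtain ⟨F1, hF1, h1⟩ := h N I S w hw m hma hS
  have hW0 : 0 ≤ ∑ i ∈ I, w i := sum_nonneg hw
  by_cases hbig : e' * ∑ i ∈ I, w i ≤ m * ∑ i ∈ I.filter (fun i => F1 (S i)), w i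
  · refine ⟨F1, fun T => (hF1 T).trans (by omega), ?_⟩
    exact hbig
  · push Not at hbig
    obtain ⟨F2, hF2, h2⟩ := h' N (I.filter fun i => ¬ F1 (S i)) S w
      (fun i hi => hw i (mem_filter.mp hi).1) m hmb (fun i hi => hS i (mem_filter.mp hi).1)
    obtain ⟨F, hF⟩ : ∃ F : Finset (Fin (N + 1)) → Prop, ∀ E, F E ↔ (F1 E ∨ F2 E) :=
      ⟨_, fun _ => Iff.rfl⟩
    refine ⟨F, fun T => ?_, ?_⟩
    · have h3 : (T.filter fun x => F (T.erase x)) ⊆
          (T.filter fun x => F1 (T.erase x)) ∪ (T.filter fun x => F2 (T.erase x)) := by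
        intro x hx
        rw [mem_filter, hF] at hx
        rw [mem_union, mem_filter, mem_filter]
        tauto
      exact (card_le_card h3).trans ((card_union_le _ _).trans (Nat.add_le_add (hF1 T) (hF2 T)))
    · have h3 : ∑ i ∈ I.filter (fun i => F (S i)), w i =
          ∑ i ∈ I.filter (fun i => F1 (S i)), w i +
            ∑ i ∈ (I.filter fun i => ¬ F1 (S i)).filter (fun i => F2 (S i)), w i := by
        rw [sum_filter, sum_filter, sum_filter, sum_filter, ← sum_add_distrib]
        refine sum_congr rfl fun i _ => ?_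
        have h4 := hF (S i)
        by_cases g1 : F1 (S i)
        · rw [if_pos (h4.mpr (Or.inl g1)), if_pos g1, if_neg (not_not.mpr g1), add_zero]
        · rw [if_neg g1, if_pos g1, zero_add]
          by_cases g2 : F2 (S i)
          · rw [if_pos (h4.mpr (Or.inr g2)), if_pos g2]
          · rw [if_neg (fun h' => (h4.mp h').elim g1 g2), if_neg g2]
      have h4 := sum_filter_add_sum_filter_not I (fun i => F1 (S i)) w
      set W := ∑ i ∈ I, w i with hW
      set V1 := ∑ i ∈ I.filter (fun i => F1 (S i)), w i with hV1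
      have h5 : ∑ i ∈ I.filter (fun i => ¬ F1 (S i)), w i = W - V1 := by linarith
      rw [h5] at h2
      rw [h3, mul_add]
      have hd1 : 0 ≤ d' := by linarith
      -- `d' V1 ≤ η W`
      have h6 : d' * V1 ≤ η * W := by
        have h7 : m * (d' * V1) ≤ m * (η * W) := by
          calc m * (d' * V1) = d' * (m * V1) := by ring
            _ ≤ d' * (e' * W) := mul_le_mul_of_nonneg_left hbig.le hd1
            _ = (d' * e') * W := by ring
            _ ≤ (η * m) * W := mul_le_mul_of_nonneg_right hme hW0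
            _ = m * (η * W) := by ring
        exact le_of_mul_le_mul_left h7 hmpos
      have h8 : e' * W = c' * W + d' * W - η * W := by rw [he']; ring
      have h9 : d' * (W - V1) = d' * W - d' * V1 := by ring
      linarith

/-- from multiplicities `2`, `3`, `4` to all `r ≥ 2` -/
theorem Fam.all (h2 : Fam 2 (1 / 11)) (h3 : Fam 3 (2 / 11)) (h4 : Fam 4 (4 / 11)) (r : ℕ)
    (hr : 2 ≤ r) : Fam r (((r : ℝ) - 1) / 11) := by
  induction r using Nat.strong_induction_on with
  | _ r ih =>
    rcases Nat.lt_or_ge r 6 with h6 | h6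
    · interval_cases r
      · exact h2.mono le_rfl (by norm_num)
      · exact h3.mono le_rfl (by norm_num)
      · exact h4.mono le_rfl (by norm_num)
      · exact h4.mono (by norm_num) (by norm_num)
    · obtain ⟨q, rfl⟩ : ∃ q, r = q + 4 := ⟨r - 4, by omega⟩
      have h7 := ih q (by omega) (by omega)
      have hq : (2 : ℝ) ≤ q := by exact_mod_cast (by omega : 2 ≤ q)
      have h8 := Fam.add (by linarith) (by norm_num) h7 h4
      refine h8.mono le_rfl (le_of_eq ?_)
      push_cast
      ring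

end Pool.Agent.Helper81.RV
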