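import Pool.Agent.Helper81.RU.Range
import Pool.Agent.Helper81.RV.Defs

/-!
# RV-3: the range of the base colouring, `a = 2`, `ν = 7`

`CC 2 7 m (TM + 1) ≤ 9 m` for `m ≥ 10 ^ 1000` and `TM` minimal with `7000 m ≤ 7 ^ TM * TM!`.
-/

namespace Pool.Agent.Helper81.RV

private lemma R2_RR_eq {s : ℕ} (hs : 4 ≤ s) : RR 2 s = RU.RR s := by
  rw [RU.RR_of hs]
  rfl

/-- `RR 2 t ≤ (125 / 486) 3 ^ t (t - 1)!` for `t ≥ 4` -/
private lemma R2_RR_fac {t : ℕ} (ht : 4 ≤ t) : 486 * RR 2 t ≤ 125 * 3 ^ t * (t - 1).factorial := by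
  rw [R2_RR_eq ht]
  exact RU.RR_fac ht

private lemma R2_RR_mono {t u : ℕ} (ht : 4 ≤ t) (htu : t ≤ u) : RR 2 t ≤ RR 2 u := by
  rw [R2_RR_eq ht, R2_RR_eq (ht.trans htu)]
  exact RU.RR_mono ht htu

/-- `100000 t 6 ^ t ≤ 7 ^ t` for `t ≥ 106` -/
private lemma R2_t_pow {t : ℕ} (ht : 106 ≤ t) : 100000 * (t * 6 ^ t) ≤ 7 ^ t := by
  induction t, ht using Nat.le_induction with
  | base => norm_num
  | succ t ht ih =>
    have h1 : 6 * (t + 1) ≤ 7 * t := by omega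
    calc 100000 * ((t + 1) * 6 ^ (t + 1)) = 100000 * (6 * (t + 1)) * 6 ^ t := by ring
      _ ≤ 100000 * (7 * t) * 6 ^ t := by gcongr
      _ = 7 * (100000 * (t * 6 ^ t)) := by ring
      _ ≤ 7 * 7 ^ t := Nat.mul_le_mul_left _ ih
      _ = 7 ^ (t + 1) := by ring

/-- the boundary terms are small -/
private lemma R2_RR_small {m a : ℕ} (hm : 10 ^ 400 ≤ m)
    (h : 7 ^ (a + 7) * (a + 7).factorial < 7000 * m) :
    6 * RR 2 (a + 9) * (100 * 2 ^ a) ≤ m := by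
  rcases le_or_gt a 97 with h5 | h5
  · have h1 : RR 2 (a + 9) ≤ RR 2 106 := R2_RR_mono (by omega) (by omega)
    have h2 : 2 ^ a ≤ 2 ^ 97 := Nat.pow_le_pow_right (by norm_num) h5
    have h3 : RR 2 106 = 107 ^ 105 := rfl
    calc 6 * RR 2 (a + 9) * (100 * 2 ^ a) ≤ 6 * (107 ^ 105) * (100 * 2 ^ 97) := by
          rw [← h3]
          gcongr
      _ ≤ 10 ^ 250 := by norm_num
      _ ≤ 10 ^ 400 := Nat.pow_le_pow_right (by norm_num) (by norm_num)
      _ ≤ m := hm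
  · have h1 := R2_RR_fac (t := a + 9) (by omega)
    have e0 : a + 9 - 1 = a + 7 + 1 := by omega
    rw [e0, Nat.factorial_succ (a + 7)] at h1
    have h2 := R2_t_pow (t := a + 8) (by omega)
    have h4 : 0 < 256 * (486 * 7 ^ (a + 8)) := by positivity
    refine Nat.le_of_mul_le_mul_left ?_ h4
    have e1 : 256 * (2 ^ a * 3 ^ (a + 8)) = 6 ^ (a + 8) := by
      have : (6 : ℕ) ^ (a + 8) = 2 ^ (a + 8) * 3 ^ (a + 8) := by
        rw [← mul_pow]
        norm_num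
      rw [this, pow_add 2 a 8]
      ring
    calc 256 * (486 * 7 ^ (a + 8)) * (6 * RR 2 (a + 9) * (100 * 2 ^ a))
        = (256 * 600 * 7 * 2 ^ a) * 7 ^ (a + 7) * (486 * RR 2 (a + 9)) := by ring
      _ ≤ (256 * 600 * 7 * 2 ^ a) * 7 ^ (a + 7) *
          (125 * 3 ^ (a + 9) * ((a + 7 + 1) * (a + 7).factorial)) :=
          Nat.mul_le_mul_left _ h1
      _ = 1575000 * (256 * (2 ^ a * 3 ^ (a + 8))) * (a + 8) * (7 ^ (a + 7) * (a + 7).factorial) := by
          ring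
      _ = 1575000 * ((a + 8) * 6 ^ (a + 8)) * (7 ^ (a + 7) * (a + 7).factorial) := by
          rw [e1]
          ring
      _ ≤ 1575000 * ((a + 8) * 6 ^ (a + 8)) * (7000 * m) := by gcongr
      _ = 110250 * (100000 * ((a + 8) * 6 ^ (a + 8))) * m := by ring
      _ ≤ 110250 * 7 ^ (a + 8) * m := by gcongr
      _ ≤ 256 * (486 * 7 ^ (a + 8)) * m := by
          apply Nat.mul_le_mul_right
          have : 0 ≤ 7 ^ (a + 8) := Nat.zero_le _
          nlinarith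

private lemma R2_NN_le {m t : ℕ} (ht : 2 ≤ t) :
    (NN 7 m t : ℝ) ≤ (7007 / 1000 + (5 / 4) ^ t) * (m : ℝ) / (7 ^ t * t.factorial) := by
  have hm0 : (0 : ℝ) ≤ m := Nat.cast_nonneg m
  have f0 : (0 : ℝ) < (t.factorial : ℝ) := by exact_mod_cast Nat.factorial_pos _
  have p0 : (0 : ℝ) < 7 ^ t * (t.factorial : ℝ) := by positivity
  rcases le_or_gt t 40 with h | h
  · have h1 : NN 7 m t = 1001 * 7 * m / (1000 * (7 ^ t * t.factorial)) := by
      unfold NN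
      rw [if_neg (by omega), if_neg (by omega), if_pos h]
    rw [h1]
    refine (Nat.cast_div_le).trans ?_
    push_cast
    rw [mul_comm (1000 : ℝ), ← div_div, div_le_iff₀ (by norm_num : (0 : ℝ) < 1000), div_mul_eq_mul_div]
    apply div_le_div_of_nonneg_right _ p0.le
    have : (0 : ℝ) ≤ (5 / 4) ^ t * m := by positivity
    linarith
  · have h1 : NN 7 m t = 1000 * 5 ^ (t - 40) * 7 * m / (4 ^ (t - 40) * (7 ^ t * t.factorial)) := by
      unfold NN
      rw [if_neg (by omega), if_neg (by omega), if_neg (by omega)]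
    rw [h1]
    refine (Nat.cast_div_le).trans ?_
    push_cast
    have e : (5 / 4 : ℝ) ^ t = (5 / 4) ^ 40 * (5 / 4) ^ (t - 40) := by
      rw [← pow_add]
      congr 1
      omega
    have e3 : (1000 : ℝ) * 5 ^ (t - 40) * 7 * m / (4 ^ (t - 40) * (7 ^ t * (t.factorial : ℝ))) =
        7000 * (5 / 4) ^ (t - 40) * m / (7 ^ t * (t.factorial : ℝ)) := by
      rw [div_pow]
      field_simp
      ring
    rw [e3]
    apply div_le_div_of_nonneg_right _ p0.le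
    have e4 : (7000 : ℝ) ≤ (5 / 4) ^ 40 := by norm_num
    have e5 : (7000 : ℝ) * (5 / 4) ^ (t - 40) ≤ (5 / 4) ^ t := by
      rw [e]
      exact mul_le_mul_of_nonneg_right e4 (by positivity)
    have e6 : (7000 : ℝ) * (5 / 4) ^ (t - 40) ≤ 7007 / 1000 + (5 / 4) ^ t := by linarith
    exact mul_le_mul_of_nonneg_right e6 hm0

private lemma R2_ww_le {t : ℕ} (ht : 5 ≤ t) : ww 2 t ≤ 2 * RR 2 t := by
  unfold ww
  rw [if_neg (by omega)]
  have h := R2_RR_mono (t := t - 1) (u := t) (by omega) (by omega)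
  omega

/-- one step, `t = a + 8` -/
private lemma R2_step {m a : ℕ} (hm : 10 ^ 400 ≤ m)
    (h : 7 ^ (a + 7) * (a + 7).factorial < 7000 * m) :
    ((ww 2 (a + 8) * NN 7 m (a + 7) + ww 2 (a + 9) * NN 7 m (a + 9) +
      2 * (RR 2 (a + 8) + RR 2 (a + 7) + RR 2 (a + 9)) : ℕ) : ℝ) ≤
        62 / 1000 * (m * (15 / 28) ^ a) := by
  have hm0 : (0 : ℝ) ≤ m := Nat.cast_nonneg m
  have f7 : (0 : ℝ) < ((a + 7).factorial : ℝ) := by exact_mod_cast Nat.factorial_pos _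
  have f8 : (((a + 8).factorial : ℕ) : ℝ) = ((a : ℝ) + 8) * ((a + 7).factorial : ℝ) := by
    rw [Nat.factorial_succ]; push_cast; ring
  have f9 : (((a + 9).factorial : ℕ) : ℝ) = ((a : ℝ) + 9) * (((a : ℝ) + 8) * ((a + 7).factorial : ℝ)) := by
    rw [Nat.factorial_succ, Nat.factorial_succ]; push_cast; ring
  have ha : (0 : ℝ) ≤ a := Nat.cast_nonneg a
  -- the ranges
  have r8 : (RR 2 (a + 8) : ℝ) ≤ 125 / 486 * 3 ^ (a + 8) * ((a + 7).factorial : ℝ) := by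
    have h1 := R2_RR_fac (t := a + 8) (by omega)
    have h2 : (486 : ℝ) * (RR 2 (a + 8) : ℝ) ≤ 125 * 3 ^ (a + 8) * ((a + 7).factorial : ℝ) := by
      exact_mod_cast h1
    linarith
  have r9 : (RR 2 (a + 9) : ℝ) ≤ 125 / 486 * 3 ^ (a + 9) * (((a : ℝ) + 8) * ((a + 7).factorial : ℝ)) := by
    have h1 := R2_RR_fac (t := a + 9) (by omega)
    have h2 : (486 : ℝ) * (RR 2 (a + 9) : ℝ) ≤ 125 * 3 ^ (a + 9) * ((a + 8).factorial : ℝ) := by
      exact_mod_cast h1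
    rw [f8] at h2
    linarith
  have w8 : (ww 2 (a + 8) : ℝ) ≤ 2 * (125 / 486 * 3 ^ (a + 8) * ((a + 7).factorial : ℝ)) := by
    have h1 : (ww 2 (a + 8) : ℝ) ≤ 2 * (RR 2 (a + 8) : ℝ) := by exact_mod_cast R2_ww_le (by omega)
    linarith
  have w9 : (ww 2 (a + 9) : ℝ) ≤
      2 * (125 / 486 * 3 ^ (a + 9) * (((a : ℝ) + 8) * ((a + 7).factorial : ℝ))) := by
    have h1 : (ww 2 (a + 9) : ℝ) ≤ 2 * (RR 2 (a + 9) : ℝ) := by exact_mod_cast R2_ww_le (by omega)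
    linarith
  have n7 := R2_NN_le (m := m) (t := a + 7) (by omega)
  have n9 := R2_NN_le (m := m) (t := a + 9) (by omega)
  rw [f9] at n9
  have hq : (3 / 7 : ℝ) ^ a ≤ (15 / 28) ^ a := pow_le_pow_left₀ (by norm_num) (by norm_num) a
  have hq2 : (1 / 2 : ℝ) ^ a ≤ (15 / 28) ^ a := pow_le_pow_left₀ (by norm_num) (by norm_num) a
  have e67 : (15 / 28 : ℝ) ^ a = (5 / 4) ^ a * (3 / 7) ^ a := by
    rw [← mul_pow]
    norm_num
  -- the first term
  have t1 : (ww 2 (a + 8) : ℝ) * (NN 7 m (a + 7) : ℝ) ≤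
      (1750 / 486 * (7007 / 1000)) * (3 / 7) ^ 8 * (m * (15 / 28) ^ a) +
      (1750 / 486 * (4 / 5)) * (15 / 28) ^ 8 * (m * (15 / 28) ^ a) := by
    calc (ww 2 (a + 8) : ℝ) * (NN 7 m (a + 7) : ℝ)
        ≤ (2 * (125 / 486 * 3 ^ (a + 8) * ((a + 7).factorial : ℝ))) *
          ((7007 / 1000 + (5 / 4) ^ (a + 7)) * (m : ℝ) / (7 ^ (a + 7) * ((a + 7).factorial : ℝ))) :=
          mul_le_mul w8 n7 (Nat.cast_nonneg _) (by positivity)
      _ = (1750 / 486 * (7007 / 1000)) * (3 / 7) ^ 8 * (m * (3 / 7) ^ a) +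
          (1750 / 486 * (4 / 5)) * (15 / 28) ^ 8 * (m * (15 / 28) ^ a) := by
          rw [e67, div_pow (3 : ℝ) 7 a, pow_add (3 : ℝ) a 8, pow_add (7 : ℝ) a 7,
            pow_add (5 / 4 : ℝ) a 7]
          field_simp
          ring
      _ ≤ _ := by gcongr
  have t2 : (ww 2 (a + 9) : ℝ) * (NN 7 m (a + 9) : ℝ) ≤
      (250 / 486 * (7007 / 1000)) * (3 / 7) ^ 9 * (m * (15 / 28) ^ a) +
      (250 / 486) * (15 / 28) ^ 9 * (m * (15 / 28) ^ a) := by
    calc (ww 2 (a + 9) : ℝ) * (NN 7 m (a + 9) : ℝ)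
        ≤ (2 * (125 / 486 * 3 ^ (a + 9) * (((a : ℝ) + 8) * ((a + 7).factorial : ℝ)))) *
          ((7007 / 1000 + (5 / 4) ^ (a + 9)) * (m : ℝ) /
            (7 ^ (a + 9) * (((a : ℝ) + 9) * (((a : ℝ) + 8) * ((a + 7).factorial : ℝ))))) :=
          mul_le_mul w9 n9 (Nat.cast_nonneg _) (by positivity)
      _ = ((250 / 486 * (7007 / 1000)) * (3 / 7) ^ 9 * (m * (3 / 7) ^ a) +
          (250 / 486) * (15 / 28) ^ 9 * (m * (15 / 28) ^ a)) * (1 / ((a : ℝ) + 9)) := by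
          rw [e67, div_pow (3 : ℝ) 7 a, pow_add (3 : ℝ) a 9, pow_add (7 : ℝ) a 9,
            pow_add (5 / 4 : ℝ) a 9]
          field_simp
          ring
      _ ≤ ((250 / 486 * (7007 / 1000)) * (3 / 7) ^ 9 * (m * (3 / 7) ^ a) +
          (250 / 486) * (15 / 28) ^ 9 * (m * (15 / 28) ^ a)) * 1 := by
          apply mul_le_mul_of_nonneg_left _ (by positivity)
          rw [div_le_one (by linarith)]
          linarith
      _ ≤ _ := by
          rw [mul_one]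
          gcongr
  have t3 : (2 : ℝ) * (RR 2 (a + 8) + RR 2 (a + 7) + RR 2 (a + 9)) ≤ 1 / 100 * (m * (15 / 28) ^ a) := by
    have h1 := R2_RR_small (m := m) (a := a) hm h
    have h2 : RR 2 (a + 7) ≤ RR 2 (a + 9) := R2_RR_mono (by omega) (by omega)
    have h3 : RR 2 (a + 8) ≤ RR 2 (a + 9) := R2_RR_mono (by omega) (by omega)
    have h4 : (6 : ℝ) * (RR 2 (a + 9) : ℝ) * (100 * 2 ^ a) ≤ m := by exact_mod_cast h1
    have h5 : (RR 2 (a + 7) : ℝ) ≤ RR 2 (a + 9) := by exact_mod_cast h2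
    have h6 : (RR 2 (a + 8) : ℝ) ≤ RR 2 (a + 9) := by exact_mod_cast h3
    have h7 : (6 : ℝ) * (RR 2 (a + 9) : ℝ) ≤ 1 / 100 * (m * (1 / 2) ^ a) := by
      have h8 : (0 : ℝ) < 100 * 2 ^ a := by positivity
      rw [← le_div_iff₀ h8] at h4
      refine h4.trans (le_of_eq ?_)
      rw [div_pow, one_pow]
      field_simp
    have h8 : (m : ℝ) * (1 / 2) ^ a ≤ m * (15 / 28) ^ a := mul_le_mul_of_nonneg_left hq2 hm0
    linarith
  have hz : (0 : ℝ) ≤ m * (15 / 28) ^ a := by positivity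
  push_cast
  have hn : (1750 / 486 * (7007 / 1000)) * (3 / 7) ^ 8 + (1750 / 486 * (4 / 5)) * (15 / 28) ^ 8 +
      ((250 / 486 * (7007 / 1000)) * (3 / 7) ^ 9 + (250 / 486) * (15 / 28) ^ 9) +
      1 / 100 ≤ (62 / 1000 : ℝ) := by
    norm_num
  have h9 := mul_le_mul_of_nonneg_right hn hz
  linarith

private lemma R2_CC_eight {m : ℕ} (hm : 10 ^ 400 ≤ m) : 1000 * CC 2 7 m 8 ≤ 8860 * m := by
  have c1 : CC 2 7 m 1 = 2 := rfl
  have c2 := CC_succ 2 7 m (t := 1) le_rfl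
  have c3 := CC_succ 2 7 m (t := 2) (by norm_num)
  have c4 := CC_succ 2 7 m (t := 3) (by norm_num)
  have c5 := CC_succ 2 7 m (t := 4) (by norm_num)
  have c6 := CC_succ 2 7 m (t := 5) (by norm_num)
  have c7 := CC_succ 2 7 m (t := 6) (by norm_num)
  have c8 := CC_succ 2 7 m (t := 7) (by norm_num)
  have h1 : hh 2 7 m 1 = 7 * m / 2 := rfl
  have h2 : hh 2 7 m 2 = 0 := rfl
  have h3 : hh 2 7 m 3 = 0 := rfl
  have h4 : hh 2 7 m 4 = 0 := rfl
  have h5 : hh 2 7 m 5 = 0 := rfl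
  have h6 : hh 2 7 m 6 = 0 := rfl
  have h7 : hh 2 7 m 7 = 0 := rfl
  have w1 : ww 2 1 = 0 := rfl
  have w2 : ww 2 2 = 3 := rfl
  have w3 : ww 2 3 = 18 := by decide
  have w4 : ww 2 4 = 140 := by decide
  have w5 : ww 2 5 = 1420 := by decide
  have w6 : ww 2 6 = 18102 := by decide
  have w7 : ww 2 7 = 278950 := by decide
  have w8 : ww 2 8 = 5045112 := by decide
  have r0 : RR 2 0 = 1 := by decide
  have r1 : RR 2 1 = 1 := by decide
  have r2 : RR 2 2 = 3 := by decide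
  have r3 : RR 2 3 = 16 := by decide
  have r4 : RR 2 4 = 125 := by decide
  have r5 : RR 2 5 = 1296 := by decide
  have r6 : RR 2 6 = 16807 := by decide
  have r7 : RR 2 7 = 262144 := by decide
  have r8 : RR 2 8 = 4782969 := by decide
  have n0 : NN 7 m 0 = 7 * m := rfl
  have n1 : NN 7 m 1 = m := rfl
  have d2 : 1000 * 98 * NN 7 m 2 ≤ 1001 * 7 * m := Nat.mul_div_le (1001 * 7 * m) (1000 * 98)
  have d3 : 1000 * 2058 * NN 7 m 3 ≤ 1001 * 7 * m := Nat.mul_div_le (1001 * 7 * m) (1000 * 2058)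
  have d4 : 1000 * 57624 * NN 7 m 4 ≤ 1001 * 7 * m := Nat.mul_div_le (1001 * 7 * m) (1000 * 57624)
  have d5 : 1000 * 2016840 * NN 7 m 5 ≤ 1001 * 7 * m := Nat.mul_div_le (1001 * 7 * m) (1000 * 2016840)
  have d6 : 1000 * 84707280 * NN 7 m 6 ≤ 1001 * 7 * m := Nat.mul_div_le (1001 * 7 * m) (1000 * 84707280)
  have d7 : 1000 * 4150656720 * NN 7 m 7 ≤ 1001 * 7 * m := Nat.mul_div_le (1001 * 7 * m) (1000 * 4150656720)
  have d8 : 1000 * 232436776320 * NN 7 m 8 ≤ 1001 * 7 * m :=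
    Nat.mul_div_le (1001 * 7 * m) (1000 * 232436776320)
  have d1 : 2 * hh 2 7 m 1 ≤ 7 * m := by
    rw [h1]
    exact Nat.mul_div_le (7 * m) 2
  norm_num at c2 c3 c4 c5 c6 c7 c8
  rw [c1, w1, w2, n0, r0, r1, r2] at c2
  rw [c2, h2, w2, w3, n1, r1, r2, r3] at c3
  rw [c3, h3, w3, w4, r2, r3, r4] at c4
  rw [c4, h4, w4, w5, r3, r4, r5] at c5
  rw [c5, h5, w5, w6, r4, r5, r6] at c6
  rw [c6, h6, w6, w7, r5, r6, r7] at c7
  rw [c7, h7, w7, w8, r6, r7, r8] at c8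
  rw [c8]
  have hm' : 10 ^ 12 ≤ m := le_trans (Nat.pow_le_pow_right (by norm_num) (by norm_num)) hm
  clear hm c2 c3 c4 c5 c6 c7 c8 h1
  generalize hh 2 7 m 1 = x1 at *
  generalize NN 7 m 2 = x2 at *
  generalize NN 7 m 3 = x3 at *
  generalize NN 7 m 4 = x4 at *
  generalize NN 7 m 5 = x5 at *
  generalize NN 7 m 6 = x6 at *
  generalize NN 7 m 7 = x7 at *
  generalize NN 7 m 8 = x8 at *
  norm_num at hm'
  linarith

theorem range2 {m TM : ℕ} (hm : 10 ^ 1000 ≤ m) (hTM : 1000 * 7 * m ≤ 7 ^ TM * TM.factorial)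
    (hmin : ∀ t < TM, 7 ^ t * t.factorial < 1000 * 7 * m) :
    CC 2 7 m (TM + 1) ≤ 9 * m := by
  have hm4 : 10 ^ 400 ≤ m := le_trans (Nat.pow_le_pow_right (by norm_num) (by norm_num)) hm
  clear hm
  have h4 : 7 ≤ TM := by
    by_contra hcon
    push Not at hcon
    have h1 : 7 ^ TM * TM.factorial ≤ 7 ^ 7 * Nat.factorial 7 := by
      apply Nat.mul_le_mul
      · exact Nat.pow_le_pow_right (by norm_num) (by omega)
      · exact Nat.factorial_le (by omega)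
    have h2 : 7 ^ 7 * Nat.factorial 7 < 10 ^ 400 := by
      refine lt_of_lt_of_le (b := 10 ^ 12) ?_ (Nat.pow_le_pow_right (by norm_num) (by norm_num))
      norm_num [Nat.factorial]
    have h3 := h1.trans_lt (h2.trans_le hm4)
    omega
  have hm0 : (0 : ℝ) ≤ m := Nat.cast_nonneg m
  have claim : ∀ a, a + 7 ≤ TM → (CC 2 7 m (a + 8) : ℝ) ≤
      9 * m - 62 / 1000 * (28 / 13) * (m * (15 / 28) ^ a) := by
    intro a
    induction a with
    | zero =>
      intro _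
      have h1 := R2_CC_eight hm4
      have h2 : (1000 : ℝ) * (CC 2 7 m 8 : ℝ) ≤ 8860 * m := by exact_mod_cast h1
      norm_num
      linarith
    | succ a ih =>
      intro ha
      have h1 := ih (by omega)
      have hmin' : 7 ^ (a + 7) * (a + 7).factorial < 7000 * m := by
        have := hmin (a + 7) (by omega)
        omega
      have h2 := R2_step (m := m) (a := a) hm4 hmin'
      have h3 := CC_succ 2 7 m (t := a + 8) (by omega)
      have hh0 : hh 2 7 m (a + 8) = 0 := by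
        unfold hh
        rw [if_neg (by omega)]
      rw [hh0, add_zero] at h3
      have h5 : (CC 2 7 m (a + 8 + 1) : ℝ) = (CC 2 7 m (a + 8) : ℝ) +
          ((ww 2 (a + 8) * NN 7 m (a + 7) + ww 2 (a + 9) * NN 7 m (a + 9) +
            2 * (RR 2 (a + 8) + RR 2 (a + 7) + RR 2 (a + 9)) : ℕ) : ℝ) := by
        rw [h3]
        push_cast
        ring
      have h6 : a + 1 + 8 = a + 8 + 1 := by omega
      rw [h6, h5, pow_succ]
      linarith
  have h5 := claim (TM - 7) (by omega)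
  have h6 : TM - 7 + 8 = TM + 1 := by omega
  rw [h6] at h5
  have h7 : (CC 2 7 m (TM + 1) : ℝ) ≤ 9 * (m : ℝ) := by
    refine h5.trans ?_
    have e1 : (0 : ℝ) ≤ 62 / 1000 * (28 / 13) * (m * (15 / 28) ^ (TM - 7)) := by positivity
    linarith
  exact_mod_cast h7

end Pool.Agent.Helper81.RV
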