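import Pool.Agent.Helper81.RU.Range
import Pool.Agent.Helper81.RV.Defs

/-!
# RV-3: the range of the base colouring, `a = 3`, `ν = 4`
-/

namespace Pool.Agent.Helper81.RV

/-! Remarks.
* The first increments `(CC a ν m (t + 1) - CC a ν m t) / m` are, for `t = 1, 2, ...`:
  `(3,4)`: `1.4585, 1.0417, 0.5187, 0.2998, 0.1600, 0.0869, 0.0486, 0.0278, ...`, total `3.683`.
* For `6 ≤ t ≤ 39` the increment is at most `1.2046 (3 / 4) ^ t + 0.001 (7 / 8) ^ t`, for `t ≥ 40` at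
  most `0.0216 (15 / 16) ^ t + 0.001 (7 / 8) ^ t`.
-/

private lemma RR3_fac {t : ℕ} (ht : 4 ≤ t) :
    486 * (RR 3 t * (t + 1)) ≤ 125 * 3 ^ t * (t - 1).factorial := by
  have h1 := RU.RR_fac ht
  have h2 : RR 3 t * (t + 1) = RU.RR t := by
    rw [RU.RR_of ht]
    unfold RR
    rw [← pow_succ]
    congr 1
    omega
  rw [h2]
  exact h1

private lemma RR3_mono {t u : ℕ} (ht : 2 ≤ t) (htu : t ≤ u) : RR 3 t ≤ RR 3 u := by
  unfold RR
  calc (t + 1) ^ (t + 1 - 3) ≤ (u + 1) ^ (t + 1 - 3) := Nat.pow_le_pow_left (by omega) _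
    _ ≤ (u + 1) ^ (u + 1 - 3) := Nat.pow_le_pow_right (by omega) (by omega)

private lemma ww3_le {t : ℕ} (ht : 3 ≤ t) : ww 3 t ≤ 2 * RR 3 t := by
  unfold ww
  rw [if_neg (by omega)]
  have h := RR3_mono (t := t - 1) (u := t) (by omega) (by omega)
  omega

/-- the boundary terms are small -/
private lemma RR3_small {m t : ℕ} (hm : 10 ^ 1000 ≤ m) (ht : 4 ≤ t)
    (h : 4 ^ (t - 1) * (t - 1).factorial < 1000 * 4 * m) :
    6000 * RR 3 (t + 1) * 8 ^ t ≤ 7 ^ t * m := by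
  rcases le_or_gt t 150 with h5 | h5
  · have h1 : RR 3 (t + 1) ≤ RR 3 151 := RR3_mono (by omega) (by omega)
    have h2 : 8 ^ t ≤ 8 ^ 150 := Nat.pow_le_pow_right (by norm_num) h5
    have h3 : RR 3 151 = 152 ^ 149 := rfl
    calc 6000 * RR 3 (t + 1) * 8 ^ t ≤ 6000 * 152 ^ 149 * 8 ^ 150 := by
          rw [← h3]
          gcongr
      _ ≤ 10 ^ 4 * (10 ^ 3) ^ 149 * 10 ^ 150 := by
          apply Nat.mul_le_mul
          · exact Nat.mul_le_mul (by norm_num) (Nat.pow_le_pow_left (by norm_num) _)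
          · exact Nat.pow_le_pow_left (by norm_num) _
      _ = 10 ^ 601 := by rw [← pow_mul, ← pow_add, ← pow_add]
      _ ≤ 10 ^ 1000 := Nat.pow_le_pow_right (by norm_num) (by norm_num)
      _ ≤ m := hm
      _ ≤ 7 ^ t * m := Nat.le_mul_of_pos_left _ (by positivity)
  · obtain ⟨u, rfl⟩ : ∃ u, t = u + 1 := ⟨t - 1, by omega⟩
    rw [Nat.add_sub_cancel] at h
    have h1 := RR3_fac (t := u + 1 + 1) (by omega)
    rw [Nat.add_sub_cancel, Nat.factorial_succ u] at h1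
    have h2 : 486 * RR 3 (u + 1 + 1) ≤ 125 * 3 ^ (u + 1 + 1) * u.factorial := by
      have h3 : 0 < u + 1 + 1 + 1 := by omega
      refine Nat.le_of_mul_le_mul_right ?_ h3
      calc 486 * RR 3 (u + 1 + 1) * (u + 1 + 1 + 1) = 486 * (RR 3 (u + 1 + 1) * (u + 1 + 1 + 1)) := by
            ring
        _ ≤ 125 * 3 ^ (u + 1 + 1) * ((u + 1) * u.factorial) := h1
        _ = 125 * 3 ^ (u + 1 + 1) * u.factorial * (u + 1) := by ring
        _ ≤ 125 * 3 ^ (u + 1 + 1) * u.factorial * (u + 1 + 1 + 1) := Nat.mul_le_mul_left _ (by omega)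
    obtain ⟨v, rfl⟩ : ∃ v, u = v + 150 := ⟨u - 150, by omega⟩
    have h4 : 0 < 486 * 4 ^ (v + 150) := by positivity
    refine Nat.le_of_mul_le_mul_left ?_ h4
    have e2 : 9000000000 * 24 ^ (v + 151) ≤ 486 * 4 ^ (v + 150) * 7 ^ (v + 151) := by
      calc 9000000000 * 24 ^ (v + 151) = 9000000000 * 24 ^ 151 * 24 ^ v := by ring
        _ ≤ (486 * 4 ^ 150 * 7 ^ 151) * 28 ^ v :=
          Nat.mul_le_mul (by norm_num) (Nat.pow_le_pow_left (by norm_num) _)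
        _ = 486 * 4 ^ (v + 150) * 7 ^ (v + 151) := by
          rw [show (28 : ℕ) = 4 * 7 by norm_num, mul_pow, pow_add, pow_add]
          ring
    calc 486 * 4 ^ (v + 150) * (6000 * RR 3 (v + 150 + 1 + 1) * 8 ^ (v + 150 + 1))
        = (6000 * 4 ^ (v + 150) * 8 ^ (v + 151)) * (486 * RR 3 (v + 150 + 1 + 1)) := by ring
      _ ≤ (6000 * 4 ^ (v + 150) * 8 ^ (v + 151)) *
          (125 * 3 ^ (v + 150 + 1 + 1) * (v + 150).factorial) := Nat.mul_le_mul_left _ h2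
      _ = 2250000 * (8 ^ (v + 151) * 3 ^ (v + 151)) * (4 ^ (v + 150) * (v + 150).factorial) := by
          ring
      _ ≤ 2250000 * (8 ^ (v + 151) * 3 ^ (v + 151)) * (1000 * 4 * m) :=
          Nat.mul_le_mul_left _ h.le
      _ = 9000000000 * 24 ^ (v + 151) * m := by
          rw [← mul_pow]
          ring
      _ ≤ 486 * 4 ^ (v + 150) * 7 ^ (v + 151) * m := Nat.mul_le_mul_right _ e2
      _ = 486 * 4 ^ (v + 150) * (7 ^ (v + 150 + 1) * m) := by ring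

private lemma NN3_le {m t : ℕ} (ht : 2 ≤ t) (ht' : t ≤ 40) :
    (NN 4 m t : ℝ) ≤ 1.001 * (4 * (m : ℝ) / (4 ^ t * t.factorial)) := by
  have h : NN 4 m t = 1001 * 4 * m / (1000 * (4 ^ t * t.factorial)) := by
    unfold NN
    rw [if_neg (by omega), if_neg (by omega), if_pos ht']
  rw [h]
  refine (Nat.cast_div_le).trans (le_of_eq ?_)
  have hf : (0 : ℝ) < (t.factorial : ℝ) := by exact_mod_cast Nat.factorial_pos _
  push_cast
  field_simp
  ring

private lemma pow40 : (7500 : ℝ) ≤ (5 / 4) ^ 40 := by norm_num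

private lemma NN3_le' {m t : ℕ} (ht : 39 ≤ t) :
    (NN 4 m t : ℝ) ≤ 2 / 15 * (5 / 4) ^ t * (4 * (m : ℝ) / (4 ^ t * t.factorial)) := by
  have hf : (0 : ℝ) < (t.factorial : ℝ) := by exact_mod_cast Nat.factorial_pos _
  rcases le_or_gt t 40 with h40 | h40
  · refine (NN3_le (by omega) h40).trans ?_
    apply mul_le_mul_of_nonneg_right _ (by positivity)
    have h1 : ((5 : ℝ) / 4) ^ 39 ≤ (5 / 4) ^ t := pow_le_pow_right₀ (by norm_num) ht
    have h2 : (1.001 : ℝ) ≤ 2 / 15 * (5 / 4) ^ 39 := by norm_num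
    linarith
  · have h : NN 4 m t = 1000 * 5 ^ (t - 40) * 4 * m / (4 ^ (t - 40) * (4 ^ t * t.factorial)) := by
      unfold NN
      rw [if_neg (by omega), if_neg (by omega), if_neg (by omega)]
    rw [h]
    have e0 : (5 / 4 : ℝ) ^ t = (5 / 4) ^ 40 * (5 / 4) ^ (t - 40) := by
      rw [← pow_add]
      congr 1
      omega
    rw [e0]
    have hD : 0 < t.factorial := Nat.factorial_pos t
    generalize t.factorial = D at *
    generalize t - 40 = u at *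
    have hD' : (0 : ℝ) < (D : ℝ) := by exact_mod_cast hD
    have hY : 0 ≤ (5 / 4 : ℝ) ^ u * (4 * (m : ℝ) / (4 ^ t * D)) := by
      positivity
    have h3 : (1000 : ℝ) ≤ 2 / 15 * (5 / 4) ^ 40 := by
      have := pow40
      linarith
    have h4 := mul_le_mul_of_nonneg_right h3 hY
    have e2 : ((1000 * 5 ^ u * 4 * m : ℕ) : ℝ) / ((4 ^ u * (4 ^ t * D) : ℕ) : ℝ) =
        1000 * ((5 / 4) ^ u * (4 * (m : ℝ) / (4 ^ t * D))) := by
      push_cast
      rw [div_pow]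
      field_simp
    have h5 : ((1000 * 5 ^ u * 4 * m / (4 ^ u * (4 ^ t * D)) : ℕ) : ℝ) ≤
        ((1000 * 5 ^ u * 4 * m : ℕ) : ℝ) / ((4 ^ u * (4 ^ t * D) : ℕ) : ℝ) := Nat.cast_div_le
    calc ((1000 * 5 ^ u * 4 * m / (4 ^ u * (4 ^ t * D)) : ℕ) : ℝ)
        ≤ ((1000 * 5 ^ u * 4 * m : ℕ) : ℝ) / ((4 ^ u * (4 ^ t * D) : ℕ) : ℝ) := h5
      _ = 1000 * ((5 / 4) ^ u * (4 * (m : ℝ) / (4 ^ t * D))) := e2
      _ ≤ 2 / 15 * (5 / 4) ^ 40 * ((5 / 4) ^ u * (4 * (m : ℝ) / (4 ^ t * D))) := h4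
      _ = 2 / 15 * ((5 / 4) ^ 40 * (5 / 4) ^ u) * (4 * (m : ℝ) / (4 ^ t * D)) := by
          generalize (5 / 4 : ℝ) ^ 40 = x
          generalize (5 / 4 : ℝ) ^ u = y
          generalize (4 * (m : ℝ) / (4 ^ t * D)) = z
          ring

/-- one increment, `t = s + 1`, in terms of the bounds for `NN` -/
private lemma step3 {m s : ℕ} (hm : 10 ^ 1000 ≤ m) (hs : 5 ≤ s)
    (h : 4 ^ s * s.factorial < 1000 * 4 * m) {c1 c2 : ℝ} (h1 : 0 ≤ c1) (h2 : 0 ≤ c2)
    (hN1 : (NN 4 m s : ℝ) ≤ c1 * (4 * (m : ℝ) / (4 ^ s * s.factorial)))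
    (hN2 : (NN 4 m (s + 2) : ℝ) ≤ c2 * (4 * (m : ℝ) / (4 ^ (s + 2) * (s + 2).factorial))) :
    (CC 3 4 m (s + 1 + 1) : ℝ) ≤ CC 3 4 m (s + 1) +
      m * (4000 / 486 * c1 / ((s : ℝ) + 2) * (3 / 4) ^ (s + 1) +
        750 / 486 * c2 / (((s : ℝ) + 2) * ((s : ℝ) + 3)) * (3 / 4) ^ (s + 1) +
        1 / 1000 * (7 / 8) ^ (s + 1)) := by
  have hm0 : (0 : ℝ) ≤ m := Nat.cast_nonneg m
  have hs0 : (0 : ℝ) ≤ s := Nat.cast_nonneg s
  have f0 : (0 : ℝ) < (s.factorial : ℝ) := by exact_mod_cast Nat.factorial_pos _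
  have f1 : (((s + 1).factorial : ℕ) : ℝ) = ((s : ℝ) + 1) * (s.factorial : ℝ) := by
    rw [Nat.factorial_succ]; push_cast; ring
  have f2 : (((s + 2).factorial : ℕ) : ℝ) = ((s : ℝ) + 2) * (((s : ℝ) + 1) * (s.factorial : ℝ)) := by
    rw [Nat.factorial_succ, Nat.factorial_succ]; push_cast; ring
  -- the ranges
  have r1 : (RR 3 (s + 1) : ℝ) ≤ 125 / 486 * 3 ^ (s + 1) * (s.factorial : ℝ) / ((s : ℝ) + 2) := by
    have h3 := RR3_fac (t := s + 1) (by omega)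
    rw [Nat.add_sub_cancel] at h3
    have h4 : (486 : ℝ) * ((RR 3 (s + 1) : ℝ) * ((s : ℝ) + 1 + 1)) ≤
        125 * 3 ^ (s + 1) * (s.factorial : ℝ) := by exact_mod_cast h3
    rw [le_div_iff₀ (by positivity)]
    linarith
  have r2 : (RR 3 (s + 2) : ℝ) ≤
      125 / 486 * 3 ^ (s + 2) * (((s : ℝ) + 1) * (s.factorial : ℝ)) / ((s : ℝ) + 3) := by
    have h3 := RR3_fac (t := s + 2) (by omega)
    have h4 : (486 : ℝ) * ((RR 3 (s + 2) : ℝ) * ((s : ℝ) + 2 + 1)) ≤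
        125 * 3 ^ (s + 2) * ((s + 1).factorial : ℝ) := by exact_mod_cast h3
    rw [f1] at h4
    rw [le_div_iff₀ (by positivity)]
    linarith
  have w1 : (ww 3 (s + 1) : ℝ) ≤
      2 * (125 / 486 * 3 ^ (s + 1) * (s.factorial : ℝ) / ((s : ℝ) + 2)) := by
    have h3 : (ww 3 (s + 1) : ℝ) ≤ 2 * (RR 3 (s + 1) : ℝ) := by exact_mod_cast ww3_le (by omega)
    linarith
  have w2 : (ww 3 (s + 2) : ℝ) ≤
      2 * (125 / 486 * 3 ^ (s + 2) * (((s : ℝ) + 1) * (s.factorial : ℝ)) / ((s : ℝ) + 3)) := by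
    have h3 : (ww 3 (s + 2) : ℝ) ≤ 2 * (RR 3 (s + 2) : ℝ) := by exact_mod_cast ww3_le (by omega)
    linarith
  rw [f2] at hN2
  have t1 : (ww 3 (s + 1) : ℝ) * (NN 4 m s : ℝ) ≤
      m * (4000 / 486 * c1 / ((s : ℝ) + 2) * (3 / 4) ^ (s + 1)) := by
    calc (ww 3 (s + 1) : ℝ) * (NN 4 m s : ℝ)
        ≤ (2 * (125 / 486 * 3 ^ (s + 1) * (s.factorial : ℝ) / ((s : ℝ) + 2))) *
          (c1 * (4 * (m : ℝ) / (4 ^ s * s.factorial))) :=
          mul_le_mul w1 hN1 (Nat.cast_nonneg _) (by positivity)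
      _ = m * (4000 / 486 * c1 / ((s : ℝ) + 2) * (3 / 4) ^ (s + 1)) := by
          rw [div_pow (3 : ℝ) 4, pow_succ (4 : ℝ) s]
          field_simp
          ring
  have t2 : (ww 3 (s + 2) : ℝ) * (NN 4 m (s + 2) : ℝ) ≤
      m * (750 / 486 * c2 / (((s : ℝ) + 2) * ((s : ℝ) + 3)) * (3 / 4) ^ (s + 1)) := by
    calc (ww 3 (s + 2) : ℝ) * (NN 4 m (s + 2) : ℝ)
        ≤ (2 * (125 / 486 * 3 ^ (s + 2) * (((s : ℝ) + 1) * (s.factorial : ℝ)) / ((s : ℝ) + 3))) *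
          (c2 * (4 * (m : ℝ) / (4 ^ (s + 2) * (((s : ℝ) + 2) * (((s : ℝ) + 1) *
            (s.factorial : ℝ)))))) :=
          mul_le_mul w2 hN2 (Nat.cast_nonneg _) (by positivity)
      _ = m * (750 / 486 * c2 / (((s : ℝ) + 2) * ((s : ℝ) + 3)) * (3 / 4) ^ (s + 1)) := by
          rw [div_pow (3 : ℝ) 4, pow_succ (4 : ℝ) s, pow_add (4 : ℝ) s 2, pow_add (3 : ℝ) s 2,
            pow_add (3 : ℝ) s 1]
          field_simp
          ring
  have t3 : (2 : ℝ) * (RR 3 (s + 1) + RR 3 s + RR 3 (s + 2)) ≤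
      m * (1 / 1000 * (7 / 8) ^ (s + 1)) := by
    have h1 := RR3_small (m := m) (t := s + 1) hm (by omega) (by simpa using h)
    have h2 : RR 3 s ≤ RR 3 (s + 2) := RR3_mono (by omega) (by omega)
    have h3 : RR 3 (s + 1) ≤ RR 3 (s + 2) := RR3_mono (by omega) (by omega)
    have h4 : (6000 : ℝ) * (RR 3 (s + 2) : ℝ) * 8 ^ (s + 1) ≤ 7 ^ (s + 1) * m := by exact_mod_cast h1
    have h5 : (RR 3 s : ℝ) ≤ RR 3 (s + 2) := by exact_mod_cast h2
    have h6 : (RR 3 (s + 1) : ℝ) ≤ RR 3 (s + 2) := by exact_mod_cast h3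
    have h7 : (6 : ℝ) * (RR 3 (s + 2) : ℝ) ≤ m * (1 / 1000 * (7 / 8) ^ (s + 1)) := by
      have h8 : (0 : ℝ) < 8 ^ (s + 1) := by positivity
      rw [← le_div_iff₀ h8] at h4
      have e : m * (1 / 1000 * (7 / 8 : ℝ) ^ (s + 1)) = 1 / 1000 * (7 ^ (s + 1) * m / 8 ^ (s + 1)) := by
        rw [div_pow]
        ring
      rw [e]
      linarith
    linarith
  have h3 := CC_succ 3 4 m (t := s + 1) (by omega)
  have hh0 : hh 3 4 m (s + 1) = 0 := by
    unfold hh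
    rw [if_neg (by omega)]
  rw [hh0, Nat.add_sub_cancel] at h3
  have h5 : (CC 3 4 m (s + 1 + 1) : ℝ) = (CC 3 4 m (s + 1) : ℝ) +
      ((ww 3 (s + 1) : ℝ) * (NN 4 m s : ℝ) + (ww 3 (s + 2) : ℝ) * (NN 4 m (s + 2) : ℝ) +
        2 * (RR 3 (s + 1) + RR 3 s + RR 3 (s + 2))) := by
    rw [h3]
    push_cast
    ring
  rw [h5]
  linarith

private lemma CC3_six {m : ℕ} (hm : 10 ^ 1000 ≤ m) : 1000 * CC 3 4 m 6 ≤ 3480 * m := by
  have c1 : CC 3 4 m 1 = 2 := by unfold CC; decide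
  have c2 := CC_succ 3 4 m (t := 1) le_rfl
  have c3 := CC_succ 3 4 m (t := 2) (by norm_num)
  have c4 := CC_succ 3 4 m (t := 3) (by norm_num)
  have c5 := CC_succ 3 4 m (t := 4) (by norm_num)
  have c6 := CC_succ 3 4 m (t := 5) (by norm_num)
  have g1 : hh 3 4 m 1 = 4 * m / 3 := rfl
  have g2 : hh 3 4 m 2 = 0 := rfl
  have g3 : hh 3 4 m 3 = 0 := rfl
  have g4 : hh 3 4 m 4 = 0 := rfl
  have g5 : hh 3 4 m 5 = 0 := rfl
  have w1 : ww 3 1 = 0 := by decide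
  have w2 : ww 3 2 = 1 := by decide
  have w3 : ww 3 3 = 4 := by decide
  have w4 : ww 3 4 = 28 := by decide
  have w5 : ww 3 5 = 240 := by decide
  have w6 : ww 3 6 = 2616 := by decide
  have r0 : RR 3 0 = 1 := by decide
  have r1 : RR 3 1 = 1 := by decide
  have r2 : RR 3 2 = 1 := by decide
  have r3 : RR 3 3 = 4 := by decide
  have r4 : RR 3 4 = 25 := by decide
  have r5 : RR 3 5 = 216 := by decide
  have r6 : RR 3 6 = 2401 := by decide
  have n0 : NN 4 m 0 = 4 * m := rfl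
  have n1 : NN 4 m 1 = m := rfl
  have n2 : NN 4 m 2 = 1001 * 4 * m / 32000 := rfl
  have n3 : NN 4 m 3 = 1001 * 4 * m / 384000 := rfl
  have n4 : NN 4 m 4 = 1001 * 4 * m / 6144000 := rfl
  have n5 : NN 4 m 5 = 1001 * 4 * m / 122880000 := rfl
  have n6 : NN 4 m 6 = 1001 * 4 * m / 2949120000 := rfl
  norm_num at c2 c3 c4 c5 c6
  rw [c1, g1, w1, w2, n0, n2, r0, r1, r2] at c2
  rw [c2, g2, w2, w3, n1, n3, r1, r2, r3] at c3
  rw [c3, g3, w3, w4, n2, n4, r2, r3, r4] at c4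
  rw [c4, g4, w4, w5, n3, n5, r3, r4, r5] at c5
  rw [c5, g5, w5, w6, n4, n6, r4, r5, r6] at c6
  rw [c6]
  have hm' : 1000000000 ≤ m := by
    calc 1000000000 = 10 ^ 9 := by norm_num
      _ ≤ 10 ^ 1000 := Nat.pow_le_pow_right (by norm_num) (by norm_num)
      _ ≤ m := hm
  clear hm c2 c3 c4 c5 c6 n0 n1 n2 n3 n4 n5 n6
  have d1 : 3 * (4 * m / 3) ≤ 4 * m := by omega
  have d2 : 32000 * (1001 * 4 * m / 32000) ≤ 4004 * m := by omega
  have d3 : 384000 * (1001 * 4 * m / 384000) ≤ 4004 * m := by omega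
  have d4 : 6144000 * (1001 * 4 * m / 6144000) ≤ 4004 * m := by omega
  have d5 : 122880000 * (1001 * 4 * m / 122880000) ≤ 4004 * m := by omega
  have d6 : 2949120000 * (1001 * 4 * m / 2949120000) ≤ 4004 * m := by omega
  generalize 4 * m / 3 = x1 at *
  generalize 1001 * 4 * m / 32000 = x2 at *
  generalize 1001 * 4 * m / 384000 = x3 at *
  generalize 1001 * 4 * m / 6144000 = x4 at *
  generalize 1001 * 4 * m / 122880000 = x5 at *
  generalize 1001 * 4 * m / 2949120000 = x6 at *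
  linarith

theorem range3 {m TM : ℕ} (hm : 10 ^ 1000 ≤ m) (hTM : 1000 * 4 * m ≤ 4 ^ TM * TM.factorial)
    (hmin : ∀ t < TM, 4 ^ t * t.factorial < 1000 * 4 * m) :
    2 * CC 3 4 m (TM + 1) ≤ 9 * m := by
  have h39 : 39 ≤ TM := by
    by_contra hcon
    push Not at hcon
    have h1 : 4 ^ TM * TM.factorial ≤ 4 ^ 39 * Nat.factorial 39 := by
      apply Nat.mul_le_mul
      · exact Nat.pow_le_pow_right (by norm_num) (by omega)
      · exact Nat.factorial_le (by omega)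
    have h2 : 4 ^ 39 * Nat.factorial 39 < 10 ^ 1000 := by
      have h3 : Nat.factorial 39 = 20397882081197443358640281739902897356800000000 := by decide
      rw [h3]
      calc 4 ^ 39 * 20397882081197443358640281739902897356800000000 < 10 ^ 100 := by norm_num
        _ ≤ 10 ^ 1000 := Nat.pow_le_pow_right (by norm_num) (by norm_num)
    omega
  have hm0 : (0 : ℝ) ≤ m := Nat.cast_nonneg m
  have claim1 : ∀ s, s ≤ 34 → (CC 3 4 m (s + 5 + 1) : ℝ) ≤
      (m : ℝ) * (4.47 - 3.6138 * (3 / 4) ^ (s + 5) - 0.007 * (7 / 8) ^ (s + 5)) := by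
    intro s
    induction s with
    | zero =>
      intro _
      have h1 := CC3_six hm
      have h2 : (1000 : ℝ) * (CC 3 4 m 6 : ℝ) ≤ 3480 * m := by exact_mod_cast h1
      norm_num
      linarith
    | succ s ih =>
      intro hs
      have h1 := ih (by omega)
      have h2 := step3 (m := m) (s := s + 5) hm (by omega) (hmin (s + 5) (by omega))
        (c1 := 1.001) (c2 := 1.001) (by norm_num) (by norm_num) (NN3_le (by omega) (by omega))
        (NN3_le (by omega) (by omega))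
      have hs0 : (0 : ℝ) ≤ s := Nat.cast_nonneg s
      have h3 : 4000 / 486 * 1.001 / (((s + 5 : ℕ) : ℝ) + 2) * (3 / 4 : ℝ) ^ (s + 5 + 1) +
          750 / 486 * 1.001 / ((((s + 5 : ℕ) : ℝ) + 2) * (((s + 5 : ℕ) : ℝ) + 3)) *
            (3 / 4) ^ (s + 5 + 1) ≤ 1.2046 * (3 / 4) ^ (s + 5 + 1) := by
        rw [← add_mul]
        apply mul_le_mul_of_nonneg_right _ (by positivity)
        have e1 : 4000 / 486 * 1.001 / (((s + 5 : ℕ) : ℝ) + 2) ≤ 4000 / 486 * 1.001 / 7 := by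
          apply div_le_div_of_nonneg_left (by norm_num) (by norm_num)
          push_cast
          linarith
        have e2 : 750 / 486 * 1.001 / ((((s + 5 : ℕ) : ℝ) + 2) * (((s + 5 : ℕ) : ℝ) + 3)) ≤
            750 / 486 * 1.001 / (7 * 8) := by
          apply div_le_div_of_nonneg_left (by norm_num) (by norm_num)
          apply mul_le_mul <;> push_cast <;> linarith
        refine (add_le_add e1 e2).trans ?_
        norm_num
      have h4 : (m : ℝ) * (4000 / 486 * 1.001 / (((s + 5 : ℕ) : ℝ) + 2) * (3 / 4 : ℝ) ^ (s + 5 + 1) +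
          750 / 486 * 1.001 / ((((s + 5 : ℕ) : ℝ) + 2) * (((s + 5 : ℕ) : ℝ) + 3)) *
            (3 / 4) ^ (s + 5 + 1) + 1 / 1000 * (7 / 8) ^ (s + 5 + 1)) ≤
          m * (1.2046 * (3 / 4) ^ (s + 5 + 1) + 1 / 1000 * (7 / 8) ^ (s + 5 + 1)) := by
        apply mul_le_mul_of_nonneg_left _ hm0
        linarith
      have e : s + 1 + 5 = s + 5 + 1 := by omega
      rw [e]
      refine (h2.trans (add_le_add h1 h4)).trans (le_of_eq ?_)
      rw [pow_succ (3 / 4 : ℝ), pow_succ (7 / 8 : ℝ)]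
      ring
  have claim2 : ∀ s, s + 39 ≤ TM → (CC 3 4 m (s + 39 + 1) : ℝ) ≤
      (m : ℝ) * (4.5 - 0.324 * (15 / 16) ^ (s + 39) - 0.007 * (7 / 8) ^ (s + 39)) := by
    intro s
    induction s with
    | zero =>
      intro _
      refine (claim1 34 le_rfl).trans ?_
      apply mul_le_mul_of_nonneg_left _ hm0
      have e1 : (0 : ℝ) ≤ 3.6138 * (3 / 4) ^ (34 + 5) := by positivity
      have e2 : (0.324 : ℝ) * (15 / 16) ^ (0 + 39) ≤ 0.03 := by norm_num
      have e3 : (34 + 5 : ℕ) = 0 + 39 := rfl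
      rw [← e3] at e2 ⊢
      linarith
    | succ s ih =>
      intro hs
      have h1 := ih (by omega)
      have h2 := step3 (m := m) (s := s + 39) hm (by omega) (hmin (s + 39) (by omega))
        (c1 := 2 / 15 * (5 / 4) ^ (s + 39)) (c2 := 2 / 15 * (5 / 4) ^ (s + 39 + 2)) (by positivity)
        (by positivity) (NN3_le' (by omega)) (NN3_le' (by omega))
      have hs0 : (0 : ℝ) ≤ s := Nat.cast_nonneg s
      have h3 : 4000 / 486 * (2 / 15 * (5 / 4) ^ (s + 39)) / (((s + 39 : ℕ) : ℝ) + 2) *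
            (3 / 4 : ℝ) ^ (s + 39 + 1) +
          750 / 486 * (2 / 15 * (5 / 4) ^ (s + 39 + 2)) /
            ((((s + 39 : ℕ) : ℝ) + 2) * (((s + 39 : ℕ) : ℝ) + 3)) *
            (3 / 4) ^ (s + 39 + 1) ≤ 0.0216 * (15 / 16) ^ (s + 39 + 1) := by
        have e0 : (15 / 16 : ℝ) ^ (s + 39 + 1) = (5 / 4) ^ (s + 39 + 1) * (3 / 4) ^ (s + 39 + 1) := by
          rw [← mul_pow]
          norm_num
        have e5 : (5 / 4 : ℝ) ^ (s + 39 + 2) = (5 / 4) ^ (s + 39 + 1) * (5 / 4) := pow_succ _ _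
        have e6 : (5 / 4 : ℝ) ^ (s + 39) = (5 / 4) ^ (s + 39 + 1) * (4 / 5) := by
          rw [pow_succ]
          ring
        rw [e0, e5, e6]
        have e7 : 4000 / 486 * (2 / 15 * ((5 / 4 : ℝ) ^ (s + 39 + 1) * (4 / 5))) /
              (((s + 39 : ℕ) : ℝ) + 2) * (3 / 4) ^ (s + 39 + 1) +
            750 / 486 * (2 / 15 * ((5 / 4) ^ (s + 39 + 1) * (5 / 4))) /
              ((((s + 39 : ℕ) : ℝ) + 2) * (((s + 39 : ℕ) : ℝ) + 3)) * (3 / 4) ^ (s + 39 + 1) =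
            (4000 / 486 * (2 / 15 * (4 / 5)) / (((s + 39 : ℕ) : ℝ) + 2) +
              750 / 486 * (2 / 15 * (5 / 4)) /
                ((((s + 39 : ℕ) : ℝ) + 2) * (((s + 39 : ℕ) : ℝ) + 3))) *
              ((5 / 4) ^ (s + 39 + 1) * (3 / 4) ^ (s + 39 + 1)) := by
          ring
        rw [e7]
        apply mul_le_mul_of_nonneg_right _ (by positivity)
        have e1 : 4000 / 486 * (2 / 15 * (4 / 5)) / (((s + 39 : ℕ) : ℝ) + 2) ≤
            4000 / 486 * (2 / 15 * (4 / 5)) / 41 := by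
          apply div_le_div_of_nonneg_left (by norm_num) (by norm_num)
          push_cast
          linarith
        have e2 : 750 / 486 * (2 / 15 * (5 / 4)) /
            ((((s + 39 : ℕ) : ℝ) + 2) * (((s + 39 : ℕ) : ℝ) + 3)) ≤
            750 / 486 * (2 / 15 * (5 / 4)) / (41 * 42) := by
          apply div_le_div_of_nonneg_left (by norm_num) (by norm_num)
          apply mul_le_mul <;> push_cast <;> linarith
        refine (add_le_add e1 e2).trans ?_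
        norm_num
      have h4 := mul_le_mul_of_nonneg_left (add_le_add_left h3 (1 / 1000 * (7 / 8 : ℝ) ^ (s + 39 + 1))) hm0
      have e : s + 1 + 39 = s + 39 + 1 := by omega
      rw [e]
      have h5 : (CC 3 4 m (s + 39 + 1 + 1) : ℝ) ≤
          (m : ℝ) * (4.5 - 0.324 * (15 / 16) ^ (s + 39) - 0.007 * (7 / 8) ^ (s + 39)) +
          m * (0.0216 * (15 / 16) ^ (s + 39 + 1) + 1 / 1000 * (7 / 8) ^ (s + 39 + 1)) := by
        linarith
      refine h5.trans (le_of_eq ?_)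
      rw [pow_succ (15 / 16 : ℝ), pow_succ (7 / 8 : ℝ)]
      ring
  have h5 := claim2 (TM - 39) (by omega)
  have h6 : TM - 39 + 39 = TM := by omega
  rw [h6] at h5
  have h7 : (2 : ℝ) * (CC 3 4 m (TM + 1) : ℝ) ≤ 9 * (m : ℝ) := by
    have e1 : (0 : ℝ) ≤ 0.324 * (15 / 16) ^ TM := by positivity
    have e2 : (0 : ℝ) ≤ 0.007 * (7 / 8) ^ TM := by positivity
    have e3 : (m : ℝ) * (4.5 - 0.324 * (15 / 16) ^ TM - 0.007 * (7 / 8) ^ TM) ≤ m * 4.5 := by
      apply mul_le_mul_of_nonneg_left _ hm0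
      linarith
    linarith
  exact_mod_cast h7

end Pool.Agent.Helper81.RV
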