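import Pool.Agent.Helper81.RU.Range
import Pool.Agent.Helper81.RV.Defs

/-!
# RV-3: the range of the base colouring, `a = 4`, `ν = 4`

Put the proof into this file (keep the statement and the namespace; more lemmas are welcome, `private`
or with a prefix).
-/

namespace Pool.Agent.Helper81.RV

/-! Remarks (compare Helper81/RU/Range.lean, from which most of this can be copied: `RU.RR_of`,
`RU.RR_fac`: `486 * (t + 1) ^ (t - 1) ≤ 125 * 3 ^ t * (t - 1)!` for `t ≥ 4`; `RR 2 t = (t + 1) ^ (t - 1)`,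
and `RR 3 t * (t + 1)`, `RR 4 t * (t + 1) ^ 2` are equal to it for `t ≥ 3`).
* The first increments `(CC a ν m (t + 1) - CC a ν m t) / m` are, for `t = 1, 2, ...`:
  `(2,7)`: `3.7145, 3.0613, 1.3040, 0.4816, 0.1742, 0.0634, 0.0232, 0.0086, ...`, total `8.836`;
  `(3,4)`: `1.4585, 1.0417, 0.5187, 0.2998, 0.1600, 0.0869, 0.0486, 0.0278, ...`, total `3.683`;
  `(4,4)`: `1.1251, 1.0104, 0.1284, 0.0534, 0.0266, 0.0125, 0.0061, 0.0031, ...`, total `2.369`.
  Unfold the first ones by `CC_succ` (`NN ν m t ≤ 1001 ν m / (1000 ν ^ t t!)` for `2 ≤ t ≤ 40`).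
* For larger `t ≤ TM`: `ww a t ≤ 2 RR a t`, `NN ν m (t - 1) ≤ c_(t-1) ν m / (ν ^ (t - 1) (t - 1)!)` with
  `c_u = 1.001` for `u ≤ 40` and `c_u = 1000 (5 / 4) ^ (u - 40)` for `u ≥ 41`, so
  `ww a t * NN ν m (t - 1) ≤ (250 / 486) ν ^ 2 c_(t-1) (3 / ν) ^ t m`, for `a = 3` with a further factor
  `1 / (t + 1)`, for `a = 4` with `1 / (t + 1) ^ 2`; `ww a (t + 1) * NN ν m (t + 1)` similarly (smaller).
  E.g. `(3,4)`: from `t = 6` on the terms are at most `8.24 (3/4) ^ t / (t + 1)` (sum `0.65`, allowed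
  `1.02`); `(4,4)`: from `t = 6` on `8.24 (3/4) ^ t / (t + 1) ^ 2` (sum `0.07`, allowed `0.156`);
  `(2,7)`: from `t = 8` on `25.3 (3/7) ^ t` (sum `0.051`, allowed `0.17`).  For `t ≥ 42` there is the
  factor `1000 (5 / 4) ^ (t - 41)` instead of `1.001`: with `(3 / 4) ^ t` this is geometric with ratio
  `15 / 16` and still small (`(3,4)`: sum `0.022`).
* The remaining terms: `2 (RR a t + RR a (t - 1) + RR a (t + 1)) ≤ 6 (t + 2) ^ t`, which is at most
  `m / (1000 * (8 / 7) ^ t)`, say: for `t ≤ 300` because `m ≥ 10 ^ 1000`, for larger `t` by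
  `RU.RR_fac` and `hmin (t - 1)`: `ν ^ (t - 1) (t - 1)! < 1000 ν m`. -/

private lemma RR4 (s : ℕ) : RR 4 s = (s + 1) ^ (s - 3) := by
  unfold RR
  congr 1

private lemma RR4_le {t : ℕ} (ht : 4 ≤ t) : RR 4 t ≤ RU.RR t := by
  rw [RR4, RU.RR_of ht]
  exact Nat.pow_le_pow_right (by omega) (by omega)

private lemma RR4_fac {t : ℕ} (ht : 4 ≤ t) :
    486 * (RR 4 t * (t + 1) ^ 2) ≤ 125 * 3 ^ t * (t - 1).factorial := by
  have h1 := RU.RR_fac ht
  rw [RU.RR_of ht] at h1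
  have h2 : RR 4 t * (t + 1) ^ 2 = (t + 1) ^ (t - 1) := by
    rw [RR4, ← pow_add]
    congr 1
    omega
  rw [h2]
  exact h1

private lemma RR4_mono {t u : ℕ} (htu : t ≤ u) : RR 4 t ≤ RR 4 u := by
  rw [RR4, RR4]
  calc (t + 1) ^ (t - 3) ≤ (u + 1) ^ (t - 3) := Nat.pow_le_pow_left (by omega) _
    _ ≤ (u + 1) ^ (u - 3) := Nat.pow_le_pow_right (by omega) (by omega)

private lemma ww4_le (t : ℕ) : ww 4 t ≤ 2 * RR 4 t := by
  have h := RR4_mono (t := t - 1) (u := t) (by omega)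
  unfold ww
  split_ifs <;> omega

private lemma NN4_le {m u : ℕ} (hu : 9 ≤ u) :
    (NN 4 m u : ℝ) ≤ (1001 / 250 * (m : ℝ)) * (5 / 4) ^ (u - 9) / (4 ^ u * (u.factorial : ℝ)) := by
  have hf : (0 : ℝ) < 4 ^ u * (u.factorial : ℝ) := by
    have : (0 : ℝ) < (u.factorial : ℝ) := by exact_mod_cast Nat.factorial_pos u
    positivity
  have hm0 : (0 : ℝ) ≤ m := Nat.cast_nonneg m
  unfold NN
  rw [if_neg (by omega), if_neg (by omega)]
  by_cases h40 : u ≤ 40
  · rw [if_pos h40]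
    refine (Nat.cast_div_le).trans ?_
    have h1 : (1 : ℝ) ≤ (5 / 4) ^ (u - 9) := one_le_pow₀ (by norm_num)
    push_cast
    rw [div_le_div_iff₀ (by positivity) hf]
    calc _ = (1001 / 250 * (m : ℝ)) * 1 * (1000 * (4 ^ u * (u.factorial : ℝ))) := by ring
      _ ≤ _ := by gcongr
  · rw [if_neg h40]
    refine (Nat.cast_div_le).trans ?_
    push_cast
    rw [div_le_div_iff₀ (by positivity) hf]
    obtain ⟨v, rfl⟩ : ∃ v, u = v + 40 := ⟨u - 40, by omega⟩
    have e1 : v + 40 - 40 = v := by omega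
    have e2 : v + 40 - 9 = v + 31 := by omega
    rw [e1, e2]
    have h3 : (1000 : ℝ) ≤ 1001 / 1000 * (5 / 4) ^ 31 := by norm_num
    have h4 : (5 / 4 : ℝ) ^ (v + 31) * 4 ^ v = 5 ^ v * (5 / 4) ^ 31 := by
      rw [pow_add, div_pow (5 : ℝ) 4 v]
      field_simp
    calc 1000 * 5 ^ v * 4 * (m : ℝ) * (4 ^ (v + 40) * ((v + 40).factorial : ℝ))
        = 1000 * (5 ^ v * 4 * (m : ℝ) * (4 ^ (v + 40) * ((v + 40).factorial : ℝ))) := by ring
      _ ≤ (1001 / 1000 * (5 / 4) ^ 31) *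
          (5 ^ v * 4 * (m : ℝ) * (4 ^ (v + 40) * ((v + 40).factorial : ℝ))) := by
          apply mul_le_mul_of_nonneg_right h3
          positivity
      _ = (1001 / 250 * (m : ℝ)) * (5 ^ v * (5 / 4) ^ 31) *
          (4 ^ (v + 40) * ((v + 40).factorial : ℝ)) := by ring
      _ = (1001 / 250 * (m : ℝ)) * ((5 / 4 : ℝ) ^ (v + 31) * 4 ^ v) *
          (4 ^ (v + 40) * ((v + 40).factorial : ℝ)) := by rw [h4]
      _ = _ := by ring

private lemma pow_big {u : ℕ} (hu : 150 ≤ u) : (u + 10) * (50000000 * 4 ^ u) ≤ 5 ^ u := by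
  induction u, hu using Nat.le_induction with
  | base => norm_num
  | succ u hu ih =>
    have h1 : (u + 1 + 10) * 4 ≤ 5 * (u + 10) := by omega
    calc (u + 1 + 10) * (50000000 * 4 ^ (u + 1)) = ((u + 1 + 10) * 4) * (50000000 * 4 ^ u) := by
          ring
      _ ≤ (5 * (u + 10)) * (50000000 * 4 ^ u) := Nat.mul_le_mul_right _ h1
      _ = 5 * ((u + 10) * (50000000 * 4 ^ u)) := by ring
      _ ≤ 5 * 5 ^ u := Nat.mul_le_mul_left _ ih
      _ = 5 ^ (u + 1) := by ring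

/-- the boundary terms are small -/
private lemma RR4_small {m u : ℕ} (hm : 10 ^ 1000 ≤ m)
    (h : 4 ^ (u + 9) * (u + 9).factorial < 1000 * 4 * m) :
    60000 * 16 ^ u * RR 4 (u + 11) ≤ m * 15 ^ u := by
  rcases le_or_gt u 150 with h5 | h5
  · have h1 : RR 4 (u + 11) ≤ RR 4 161 := RR4_mono (by omega)
    have h2 : 2 ^ u ≤ 2 ^ 150 := Nat.pow_le_pow_right (by norm_num) h5
    have h3 : RR 4 161 = 162 ^ 158 := RR4 161
    have h4 : 16 ^ u ≤ 2 ^ u * 15 ^ u := by
      rw [← mul_pow]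
      exact Nat.pow_le_pow_left (by norm_num) _
    have h6 : 60000 * 2 ^ 150 * 162 ^ 158 ≤ 10 ^ 1000 := by
      have h7 : (10 : ℕ) ^ 500 ≤ 10 ^ 1000 := Nat.pow_le_pow_right (by norm_num) (by norm_num)
      have h8 : (10 : ℕ) ^ 500 = (10 ^ 250) ^ 2 := by rw [← pow_mul]
      rw [h8] at h7
      refine le_trans ?_ h7
      norm_num
    calc 60000 * 16 ^ u * RR 4 (u + 11) ≤ 60000 * (2 ^ u * 15 ^ u) * RR 4 (u + 11) := by
          gcongr
      _ ≤ 60000 * (2 ^ 150 * 15 ^ u) * 162 ^ 158 := by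
          rw [← h3]
          gcongr
      _ = (60000 * 2 ^ 150 * 162 ^ 158) * 15 ^ u := by ring
      _ ≤ 10 ^ 1000 * 15 ^ u := Nat.mul_le_mul_right _ h6
      _ ≤ m * 15 ^ u := Nat.mul_le_mul_right _ hm
  · have h1 := RU.RR_fac (t := u + 11) (by omega)
    have h0 := RR4_le (t := u + 11) (by omega)
    have e1 : u + 11 - 1 = u + 9 + 1 := by omega
    rw [e1, Nat.factorial_succ (u + 9)] at h1
    have h2 := pow_big (u := u) (by omega)
    have h4 : 0 < 486 * 4 ^ (u + 9) := by positivity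
    refine Nat.le_of_mul_le_mul_left ?_ h4
    calc 486 * 4 ^ (u + 9) * (60000 * 16 ^ u * RR 4 (u + 11))
        = (60000 * 16 ^ u * 4 ^ (u + 9)) * (486 * RR 4 (u + 11)) := by ring
      _ ≤ (60000 * 16 ^ u * 4 ^ (u + 9)) * (486 * RU.RR (u + 11)) := by gcongr
      _ ≤ (60000 * 16 ^ u * 4 ^ (u + 9)) *
          (125 * 3 ^ (u + 11) * ((u + 9 + 1) * (u + 9).factorial)) := Nat.mul_le_mul_left _ h1
      _ = (60000 * 16 ^ u * (125 * 3 ^ (u + 11) * (u + 10))) *
          (4 ^ (u + 9) * (u + 9).factorial) := by ring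
      _ ≤ (60000 * 16 ^ u * (125 * 3 ^ (u + 11) * (u + 10))) * (1000 * 4 * m) :=
          Nat.mul_le_mul_left _ h.le
      _ = (30000000000 * 177147) * (12 ^ u * (u + 10) * 4 ^ u) * m := by
          have e2 : (16 : ℕ) ^ u * 3 ^ u = 12 ^ u * 4 ^ u := by
            rw [← mul_pow, ← mul_pow]
            norm_num
          have e3 : (3 : ℕ) ^ (u + 11) = 3 ^ u * 177147 := by
            rw [pow_add]
            norm_num
          rw [e3]
          calc _ = 30000000000 * 177147 * ((16 ^ u * 3 ^ u) * (u + 10)) * m := by ring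
            _ = _ := by rw [e2]; ring
      _ ≤ (486 * 262144 * 50000000) * (12 ^ u * (u + 10) * 4 ^ u) * m :=
          Nat.mul_le_mul_right _ (Nat.mul_le_mul_right _ (by norm_num))
      _ = (486 * 262144 * 12 ^ u) * ((u + 10) * (50000000 * 4 ^ u)) * m := by ring
      _ ≤ (486 * 262144 * 12 ^ u) * 5 ^ u * m := by gcongr
      _ = 486 * 4 ^ (u + 9) * (m * 15 ^ u) := by
          have e4 : (4 : ℕ) ^ (u + 9) = 4 ^ u * 262144 := by
            rw [pow_add]
            norm_num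
          have e5 : (12 : ℕ) ^ u * 5 ^ u = 4 ^ u * 15 ^ u := by
            rw [← mul_pow, ← mul_pow]
            norm_num
          rw [e4]
          calc _ = 486 * 262144 * (12 ^ u * 5 ^ u) * m := by ring
            _ = _ := by rw [e5]; ring

/-- one step, `t = u + 10` -/
private lemma step4 {m u : ℕ} (hm : 10 ^ 1000 ≤ m)
    (h : 4 ^ (u + 9) * (u + 9).factorial < 1000 * 4 * m) :
    ((ww 4 (u + 10) * NN 4 m (u + 9) + ww 4 (u + 11) * NN 4 m (u + 11) +
      2 * (RR 4 (u + 10) + RR 4 (u + 9) + RR 4 (u + 11)) : ℕ) : ℝ) ≤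
        41 / 10000 * ((m : ℝ) * (15 / 16) ^ u) := by
  have hm0 : (0 : ℝ) ≤ m := Nat.cast_nonneg m
  have f9 : (0 : ℝ) < ((u + 9).factorial : ℝ) := by exact_mod_cast Nat.factorial_pos _
  have f10 : (((u + 10).factorial : ℕ) : ℝ) = ((u : ℝ) + 10) * ((u + 9).factorial : ℝ) := by
    rw [Nat.factorial_succ]; push_cast; ring
  have f11 : (((u + 11).factorial : ℕ) : ℝ) =
      ((u : ℝ) + 11) * (((u : ℝ) + 10) * ((u + 9).factorial : ℝ)) := by
    rw [Nat.factorial_succ, Nat.factorial_succ]; push_cast; ring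
  have hu : (0 : ℝ) ≤ u := Nat.cast_nonneg u
  have r10 : (RR 4 (u + 10) : ℝ) * ((u : ℝ) + 11) ^ 2 ≤
      125 / 486 * 3 ^ (u + 10) * ((u + 9).factorial : ℝ) := by
    have h1 := RR4_fac (t := u + 10) (by omega)
    have h2 : (486 : ℝ) * ((RR 4 (u + 10) : ℝ) * ((u : ℝ) + 10 + 1) ^ 2) ≤
        125 * 3 ^ (u + 10) * ((u + 9).factorial : ℝ) := by exact_mod_cast h1
    have e : (u : ℝ) + 10 + 1 = u + 11 := by ring
    rw [e] at h2
    linarith
  have r11 : (RR 4 (u + 11) : ℝ) * ((u : ℝ) + 12) ^ 2 ≤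
      125 / 486 * 3 ^ (u + 11) * (((u : ℝ) + 10) * ((u + 9).factorial : ℝ)) := by
    have h1 := RR4_fac (t := u + 11) (by omega)
    have h2 : (486 : ℝ) * ((RR 4 (u + 11) : ℝ) * ((u : ℝ) + 11 + 1) ^ 2) ≤
        125 * 3 ^ (u + 11) * ((u + 10).factorial : ℝ) := by exact_mod_cast h1
    rw [f10] at h2
    have e : (u : ℝ) + 11 + 1 = u + 12 := by ring
    rw [e] at h2
    linarith
  have w10 : (ww 4 (u + 10) : ℝ) ≤
      2 * (125 / 486 * 3 ^ (u + 10) * ((u + 9).factorial : ℝ)) / 121 := by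
    have h1 : (ww 4 (u + 10) : ℝ) ≤ 2 * (RR 4 (u + 10) : ℝ) := by exact_mod_cast ww4_le _
    have h2 : (RR 4 (u + 10) : ℝ) * 121 ≤ (RR 4 (u + 10) : ℝ) * ((u : ℝ) + 11) ^ 2 := by
      apply mul_le_mul_of_nonneg_left _ (Nat.cast_nonneg _)
      nlinarith
    rw [le_div_iff₀ (by norm_num)]
    nlinarith
  have w11 : (ww 4 (u + 11) : ℝ) ≤
      2 * (125 / 486 * 3 ^ (u + 11) * (((u : ℝ) + 10) * ((u + 9).factorial : ℝ))) / 144 := by
    have h1 : (ww 4 (u + 11) : ℝ) ≤ 2 * (RR 4 (u + 11) : ℝ) := by exact_mod_cast ww4_le _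
    have h2 : (RR 4 (u + 11) : ℝ) * 144 ≤ (RR 4 (u + 11) : ℝ) * ((u : ℝ) + 12) ^ 2 := by
      apply mul_le_mul_of_nonneg_left _ (Nat.cast_nonneg _)
      nlinarith
    rw [le_div_iff₀ (by norm_num)]
    nlinarith
  have n9 := NN4_le (m := m) (u := u + 9) (by omega)
  have n11 := NN4_le (m := m) (u := u + 11) (by omega)
  have e9 : u + 9 - 9 = u := by omega
  have e11 : u + 11 - 9 = u + 2 := by omega
  rw [e9] at n9
  rw [e11, f11] at n11
  have hq : (3 : ℝ) ^ u * (5 / 4) ^ u / 4 ^ u = (15 / 16) ^ u := by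
    rw [← mul_pow, ← div_pow]
    norm_num
  have t1 : (ww 4 (u + 10) : ℝ) * (NN 4 m (u + 9) : ℝ) ≤
      (250 / 486) * (1001 / 250) * (59049 / 262144) / 121 * (m * (15 / 16) ^ u) := by
    calc (ww 4 (u + 10) : ℝ) * (NN 4 m (u + 9) : ℝ)
        ≤ (2 * (125 / 486 * 3 ^ (u + 10) * ((u + 9).factorial : ℝ)) / 121) *
          ((1001 / 250 * (m : ℝ)) * (5 / 4) ^ u / (4 ^ (u + 9) * ((u + 9).factorial : ℝ))) :=
          mul_le_mul w10 n9 (Nat.cast_nonneg _) (by positivity)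
      _ = (250 / 486) * (1001 / 250) * (59049 / 262144) / 121 *
          (m * ((3 : ℝ) ^ u * (5 / 4) ^ u / 4 ^ u)) := by
          rw [pow_add (3 : ℝ) u 10, pow_add (4 : ℝ) u 9]
          field_simp
          ring
      _ = _ := by rw [hq]
  have t2 : (ww 4 (u + 11) : ℝ) * (NN 4 m (u + 11) : ℝ) ≤
      (250 / 486) * (1001 / 250) * (177147 / 4194304) * (25 / 16) / (144 * 11) *
        (m * (15 / 16) ^ u) := by
    calc (ww 4 (u + 11) : ℝ) * (NN 4 m (u + 11) : ℝ)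
        ≤ (2 * (125 / 486 * 3 ^ (u + 11) * (((u : ℝ) + 10) * ((u + 9).factorial : ℝ))) / 144) *
          ((1001 / 250 * (m : ℝ)) * (5 / 4) ^ (u + 2) /
            (4 ^ (u + 11) * (((u : ℝ) + 11) * (((u : ℝ) + 10) * ((u + 9).factorial : ℝ))))) :=
          mul_le_mul w11 n11 (Nat.cast_nonneg _) (by positivity)
      _ = (250 / 486) * (1001 / 250) * (177147 / 4194304) * (25 / 16) / 144 *
          (m * ((3 : ℝ) ^ u * (5 / 4) ^ u / 4 ^ u)) * (1 / ((u : ℝ) + 11)) := by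
          rw [pow_add (3 : ℝ) u 11, pow_add (4 : ℝ) u 11, pow_add (5 / 4 : ℝ) u 2]
          field_simp
          ring
      _ = (250 / 486) * (1001 / 250) * (177147 / 4194304) * (25 / 16) / 144 *
          (m * (15 / 16) ^ u) * (1 / ((u : ℝ) + 11)) := by rw [hq]
      _ ≤ (250 / 486) * (1001 / 250) * (177147 / 4194304) * (25 / 16) / 144 *
          (m * (15 / 16) ^ u) * (1 / 11) := by
          apply mul_le_mul_of_nonneg_left _ (by positivity)
          rw [div_le_div_iff₀ (by linarith) (by norm_num)]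
          linarith
      _ = _ := by ring
  have t3 : (2 : ℝ) * (RR 4 (u + 10) + RR 4 (u + 9) + RR 4 (u + 11)) ≤
      1 / 10000 * (m * (15 / 16) ^ u) := by
    have h1 := RR4_small (m := m) (u := u) hm h
    have h2 : RR 4 (u + 9) ≤ RR 4 (u + 11) := RR4_mono (by omega)
    have h3 : RR 4 (u + 10) ≤ RR 4 (u + 11) := RR4_mono (by omega)
    have h4 : (60000 : ℝ) * 16 ^ u * (RR 4 (u + 11) : ℝ) ≤ m * 15 ^ u := by exact_mod_cast h1
    have h5 : (RR 4 (u + 9) : ℝ) ≤ RR 4 (u + 11) := by exact_mod_cast h2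
    have h6 : (RR 4 (u + 10) : ℝ) ≤ RR 4 (u + 11) := by exact_mod_cast h3
    have h7 : (6 : ℝ) * (RR 4 (u + 11) : ℝ) ≤ 1 / 10000 * (m * (15 / 16) ^ u) := by
      rw [div_pow]
      have h8 : (0 : ℝ) < 16 ^ u := by positivity
      rw [← mul_div_assoc, ← mul_div_assoc, le_div_iff₀ h8]
      linarith
    linarith
  have hz : (0 : ℝ) ≤ m * (15 / 16) ^ u := by positivity
  push_cast
  have hn : (250 / 486 : ℝ) * (1001 / 250) * (59049 / 262144) / 121 +
      (250 / 486) * (1001 / 250) * (177147 / 4194304) * (25 / 16) / (144 * 11) + 1 / 10000 ≤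
        41 / 10000 := by
    norm_num
  have h9 := mul_le_mul_of_nonneg_right hn hz
  linarith

private lemma CC4_ten {m : ℕ} (hm : 10 ^ 1000 ≤ m) : 10000 * CC 4 4 m 10 ≤ 23700 * m := by
  have c1 : CC 4 4 m 1 = 2 := by
    have h1 : CC 4 4 m 1 = RR 4 1 + RR 4 0 := rfl
    rw [h1]
    decide
  have c2 := CC_succ 4 4 m (t := 1) (by norm_num)
  have c3 := CC_succ 4 4 m (t := 2) (by norm_num)
  have c4 := CC_succ 4 4 m (t := 3) (by norm_num)
  have c5 := CC_succ 4 4 m (t := 4) (by norm_num)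
  have c6 := CC_succ 4 4 m (t := 5) (by norm_num)
  have c7 := CC_succ 4 4 m (t := 6) (by norm_num)
  have c8 := CC_succ 4 4 m (t := 7) (by norm_num)
  have c9 := CC_succ 4 4 m (t := 8) (by norm_num)
  have c10 := CC_succ 4 4 m (t := 9) (by norm_num)
  have w1 : ww 4 1 = 0 := by decide
  have w2 : ww 4 2 = 1 := by decide
  have w3 : ww 4 3 = 1 := by decide
  have w4 : ww 4 4 = 5 := by decide
  have w5 : ww 4 5 = 40 := by decide
  have w6 : ww 4 6 = 378 := by decide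
  have w7 : ww 4 7 = 4438 := by decide
  have w8 : ww 4 8 = 63144 := by decide
  have w9 : ww 4 9 = 1059048 := by decide
  have w10 : ww 4 10 = 20487170 := by decide
  have r0 : RR 4 0 = 1 := by decide
  have r1 : RR 4 1 = 1 := by decide
  have r2 : RR 4 2 = 1 := by decide
  have r3 : RR 4 3 = 1 := by decide
  have r4 : RR 4 4 = 5 := by decide
  have r5 : RR 4 5 = 36 := by decide
  have r6 : RR 4 6 = 343 := by decide
  have r7 : RR 4 7 = 4096 := by decide
  have r8 : RR 4 8 = 59049 := by decide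
  have r9 : RR 4 9 = 1000000 := by decide
  have r10 : RR 4 10 = 19487171 := by decide
  have g1 : hh 4 4 m 1 = m := by
    unfold hh
    rw [if_pos rfl]
    omega
  have g : ∀ t, t ≠ 1 → hh 4 4 m t = 0 := fun t ht => by
    unfold hh
    rw [if_neg ht]
  have n0 : NN 4 m 0 = 4 * m := rfl
  have n1 : NN 4 m 1 = m := rfl
  have n2 : NN 4 m 2 = 4004 * m / 32000 := rfl
  have n3 : NN 4 m 3 = 4004 * m / 384000 := rfl
  have n4 : NN 4 m 4 = 4004 * m / 6144000 := rfl
  have n5 : NN 4 m 5 = 4004 * m / 122880000 := rfl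
  have n6 : NN 4 m 6 = 4004 * m / 2949120000 := rfl
  have n7 : NN 4 m 7 = 4004 * m / 82575360000 := rfl
  have n8 : NN 4 m 8 = 4004 * m / 2642411520000 := rfl
  have n9 : NN 4 m 9 = 4004 * m / 95126814720000 := rfl
  have n10 : NN 4 m 10 = 4004 * m / 3805072588800000 := rfl
  norm_num at c2 c3 c4 c5 c6 c7 c8 c9 c10
  rw [c1, w1, w2, n0, n2, r0, r1, r2, g1] at c2
  rw [c2, w2, w3, n1, n3, r1, r2, r3, g 2 (by norm_num)] at c3
  rw [c3, w3, w4, n2, n4, r2, r3, r4, g 3 (by norm_num)] at c4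
  rw [c4, w4, w5, n3, n5, r3, r4, r5, g 4 (by norm_num)] at c5
  rw [c5, w5, w6, n4, n6, r4, r5, r6, g 5 (by norm_num)] at c6
  rw [c6, w6, w7, n5, n7, r5, r6, r7, g 6 (by norm_num)] at c7
  rw [c7, w7, w8, n6, n8, r6, r7, r8, g 7 (by norm_num)] at c8
  rw [c8, w8, w9, n7, n9, r7, r8, r9, g 8 (by norm_num)] at c9
  rw [c9, w9, w10, n8, n10, r8, r9, r10, g 9 (by norm_num)] at c10
  rw [c10]
  have hm' : 1000000000000 ≤ m := by
    have h7 : (10 : ℕ) ^ 12 ≤ 10 ^ 1000 := Nat.pow_le_pow_right (by norm_num) (by norm_num)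
    exact le_trans (le_trans (by norm_num) h7) hm
  have d2 : 32000 * (4004 * m / 32000) ≤ 4004 * m := Nat.mul_div_le _ _
  have d3 : 384000 * (4004 * m / 384000) ≤ 4004 * m := Nat.mul_div_le _ _
  have d4 : 6144000 * (4004 * m / 6144000) ≤ 4004 * m := Nat.mul_div_le _ _
  have d5 : 122880000 * (4004 * m / 122880000) ≤ 4004 * m := Nat.mul_div_le _ _
  have d6 : 2949120000 * (4004 * m / 2949120000) ≤ 4004 * m := Nat.mul_div_le _ _
  have d7 : 82575360000 * (4004 * m / 82575360000) ≤ 4004 * m := Nat.mul_div_le _ _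
  have d8 : 2642411520000 * (4004 * m / 2642411520000) ≤ 4004 * m := Nat.mul_div_le _ _
  have d9 : 95126814720000 * (4004 * m / 95126814720000) ≤ 4004 * m := Nat.mul_div_le _ _
  have d10 : 3805072588800000 * (4004 * m / 3805072588800000) ≤ 4004 * m := Nat.mul_div_le _ _
  clear hm c1 c2 c3 c4 c5 c6 c7 c8 c9 c10 n0 n1 n2 n3 n4 n5 n6 n7 n8 n9 n10 g g1
  generalize 4004 * m / 32000 = x2 at *
  generalize 4004 * m / 384000 = x3 at *
  generalize 4004 * m / 6144000 = x4 at *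
  generalize 4004 * m / 122880000 = x5 at *
  generalize 4004 * m / 2949120000 = x6 at *
  generalize 4004 * m / 82575360000 = x7 at *
  generalize 4004 * m / 2642411520000 = x8 at *
  generalize 4004 * m / 95126814720000 = x9 at *
  generalize 4004 * m / 3805072588800000 = x10 at *
  linarith

theorem range4 {m TM : ℕ} (hm : 10 ^ 1000 ≤ m) (hTM : 1000 * 4 * m ≤ 4 ^ TM * TM.factorial)
    (hmin : ∀ t < TM, 4 ^ t * t.factorial < 1000 * 4 * m) :
    2 * CC 4 4 m (TM + 1) ≤ 5 * m := by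
  have h4 : 9 ≤ TM := by
    by_contra hcon
    push Not at hcon
    have h1 : 4 ^ TM * TM.factorial ≤ 4 ^ 9 * Nat.factorial 9 := by
      apply Nat.mul_le_mul
      · exact Nat.pow_le_pow_right (by norm_num) (by omega)
      · exact Nat.factorial_le (by omega)
    have h7 : (10 : ℕ) ^ 12 ≤ 10 ^ 1000 := Nat.pow_le_pow_right (by norm_num) (by norm_num)
    have h2 : 4 ^ 9 * Nat.factorial 9 < 10 ^ 12 := by norm_num [Nat.factorial]
    have h8 : 10 ^ 12 ≤ m := le_trans h7 hm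
    clear hm h7
    omega
  have hm0 : (0 : ℝ) ≤ m := Nat.cast_nonneg m
  have claim : ∀ a, a + 9 ≤ TM → (CC 4 4 m (a + 10) : ℝ) ≤
      (m : ℝ) * (5 / 2 - 41 / 625 * (15 / 16) ^ a) := by
    intro a
    induction a with
    | zero =>
      intro _
      have h1 := CC4_ten hm
      have h2 : (10000 : ℝ) * (CC 4 4 m 10 : ℝ) ≤ 23700 * m := by exact_mod_cast h1
      norm_num
      linarith
    | succ a ih =>
      intro ha
      have h1 := ih (by omega)
      have h2 := step4 (m := m) (u := a) hm (hmin (a + 9) (by omega))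
      have h3 := CC_succ 4 4 m (t := a + 10) (by omega)
      have h8 : hh 4 4 m (a + 10) = 0 := by
        unfold hh
        rw [if_neg (by omega)]
      have h5 : (CC 4 4 m (a + 10 + 1) : ℝ) = (CC 4 4 m (a + 10) : ℝ) +
          ((ww 4 (a + 10) * NN 4 m (a + 9) + ww 4 (a + 11) * NN 4 m (a + 11) +
            2 * (RR 4 (a + 10) + RR 4 (a + 9) + RR 4 (a + 11)) : ℕ) : ℝ) := by
        rw [h3, h8]
        push_cast
        ring
      have h6 : a + 1 + 10 = a + 10 + 1 := by omega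
      rw [h6, h5]
      have h7 : (m : ℝ) * (5 / 2 - 41 / 625 * (15 / 16) ^ (a + 1)) =
          (m : ℝ) * (5 / 2 - 41 / 625 * (15 / 16) ^ a) +
            41 / 10000 * ((m : ℝ) * (15 / 16) ^ a) := by
        rw [pow_succ]
        ring
      rw [h7]
      linarith
  have h5 := claim (TM - 9) (by omega)
  have h6 : TM - 9 + 10 = TM + 1 := by omega
  rw [h6] at h5
  have h7 : (2 : ℝ) * (CC 4 4 m (TM + 1) : ℝ) ≤ 5 * (m : ℝ) := by
    have : (0 : ℝ) ≤ m * (41 / 625 * (15 / 16) ^ (TM - 9)) := by positivity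
    nlinarith
  exact_mod_cast h7

end Pool.Agent.Helper81.RV
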