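import Pool.Agent.Helper81.RV.BaseDet
import Pool.Agent.Helper81.RV.ChooseH
import Pool.Agent.Helper81.RV.ChooseM
import Pool.Agent.Helper81.RV.Range2
import Pool.Agent.Helper81.RV.Range3
import Pool.Agent.Helper81.RV.Range4
import Pool.Agent.Helper81.RV.Compr
import Pool.Agent.Helper81.RV.Fam
import Pool.Agent.Helper81.RU.BaseFinal
import Pool.Agent.Helper81.RU.Final

/-!
# The base colourings with multiplicity `a = 2, 3, 4` (assembly), and the lower bound
-/

open Finset Filter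

namespace Pool.Agent.Helper81.RV

open Pool.Agent.Helper34.RB (Bdd BddCol sum_filter_or_le Compr)
open Pool.Agent.Helper81.RU (Good choose_classes)

lemma RR_pos (a s : ℕ) : 1 ≤ RR a s := Nat.one_le_pow _ _ (by omega)

lemma exists_TM (ν m : ℕ) (hν : 2 ≤ ν) : ∃ t, 1000 * ν * m ≤ ν ^ t * t.factorial := by
  refine ⟨1000 * ν * m, ?_⟩
  have h1 : 1000 * ν * m ≤ ν ^ (1000 * ν * m) := (Nat.lt_pow_self (by omega)).le
  calc 1000 * ν * m ≤ ν ^ (1000 * ν * m) * 1 := by simpa using h1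
    _ ≤ _ := by
      gcongr
      exact Nat.factorial_pos _

open Classical in
/-- a partial colouring with multiplicity `a`, few colours and small loss -/
theorem base_final {X ι : Type} [LinearOrder X] [Fintype X] (I : Finset ι) (S : ι → Finset X)
    (w : ι → ℝ) (hw : ∀ i ∈ I, 0 ≤ w i) {a ν m : ℕ} (ha : 2 ≤ a) (hν4 : 4 ≤ ν) (hν7 : ν ≤ 7)
    (hm : 10 ^ 1000 ≤ m) (hS : ∀ i ∈ I, (S i).card ≤ m) {L : ℝ}
    (hL : ∀ TM, ∑ s ∈ Icc 2 TM, ((s - 1 : ℕ) : ℝ) / (qq a s : ℝ) ≤ L) :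
    ∃ (TM : ℕ) (good : Finset X → Prop) (g : Finset X → ℕ),
      1000 * ν * m ≤ ν ^ TM * TM.factorial ∧
      (∀ t < TM, ν ^ t * t.factorial < 1000 * ν * m) ∧
      BddCol a good g ∧ (∀ E, g E < CC a ν m (TM + 1)) ∧
      ∑ i ∈ I.filter (fun i => ¬ good (S i)), w i ≤ (L + 6 / 1000) * ∑ i ∈ I, w i := by
  have hm2 : 10 ^ 400 ≤ m := le_trans (Nat.pow_le_pow_right (by norm_num) (by norm_num)) hm
  have hex := exists_TM ν m (by omega)
  set TM := Nat.find hex with hTMdef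
  have hTM : 1000 * ν * m ≤ ν ^ TM * TM.factorial := Nat.find_spec hex
  have hmin : ∀ t < TM, ν ^ t * t.factorial < 1000 * ν * m :=
    fun t ht => not_le.mp (Nat.find_min hex ht)
  obtain ⟨h, hh'⟩ := chooseH I S w hw hν4 hν7 hm2 hS hTM
  obtain ⟨M, hM⟩ := chooseM h I S w hw a TM (hL TM)
  have hΦex : ∀ s, ∃ Φ : (Fin (s - 1) → ZMod (qq a s)) → ℕ, Compr (qq a s) s (RR a s) a Φ := by
    intro s
    obtain ⟨Φ, hΦ⟩ := compr_gen (if s < a then 10 else s + 1) s a (by split_ifs <;> omega) ha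
    refine ⟨Φ, ?_⟩
    have h1 : (if s < a then 10 else s + 1) ^ (s + 1 - a) = RR a s := by
      unfold RR
      split_ifs with hsa
      · have h2 : s + 1 - a = 0 := by omega
        rw [h2, pow_zero, pow_zero]
      · rfl
    rw [← h1]
    exact hΦ
  choose Φ hΦ using hΦex
  have hCpos : 0 < CC a ν m (TM + 1) := by
    rcases Nat.eq_zero_or_pos TM with h0 | h0
    · rw [h0]
      have h1 := RR_pos a 1
      change 0 < RR a 1 + RR a 0
      omega
    · rw [CC_succ a ν m h0]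
      have h1 := RR_pos a TM
      omega
  refine ⟨TM, Good h (NN ν m) (qq a) M TM,
    fun E => val a h (CC a ν m) (ww a) (qq a) M Φ TM E % CC a ν m (TM + 1), hTM, hmin,
    ?_, ?_, ?_⟩
  · refine base_det (e := hh a ν m) ha h M Φ (RR_pos a) (fun s _ _ => hΦ s) (fun t ht => ?_) ?_
      (by unfold CC; exact le_rfl) (fun t ht _ => ?_) le_rfl
    · unfold ww
      rw [if_neg (by omega)]
      omega
    · unfold hh
      rw [if_pos rfl]
    · rw [CC_succ a ν m ht]
  · intro E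
    exact Nat.mod_lt _ hCpos
  · have h2 := sum_filter_or_le I w hw
      (fun i => ¬ ((∀ t, (Helper34.RB.Bs h (S i) t).card ≤ NN ν m t) ∧
        Helper34.RB.Bs h (S i) TM = ∅))
      (fun i => ¬ ∀ s ∈ Icc 2 TM, Helper34.RB.NZ h (qq a s) (M s) s (S i))
      (fun i => ¬ Good h (NN ν m) (qq a) M TM (S i)) (fun i _ hi => by
        by_contra hcon
        rw [not_or, not_not, not_not] at hcon
        exact hi ⟨hcon.1.1, hcon.1.2, hcon.2⟩)
    refine h2.trans ((add_le_add hh' hM).trans (le_of_eq ?_))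
    ring

/-- the heaviest class of the colouring -/
theorem fam_of {a ν : ℕ} (ha : 2 ≤ a) (hν4 : 4 ≤ ν) (hν7 : ν ≤ 7) {L κ c : ℝ}
    (hL : ∀ TM, ∑ s ∈ Icc 2 TM, ((s - 1 : ℕ) : ℝ) / (qq a s : ℝ) ≤ L) (hκ : 0 < κ)
    (hrange : ∀ m TM : ℕ, 10 ^ 1000 ≤ m → 1000 * ν * m ≤ ν ^ TM * TM.factorial →
      (∀ t < TM, ν ^ t * t.factorial < 1000 * ν * m) → (CC a ν m (TM + 1) : ℝ) ≤ κ * m)
    (hc0 : 0 ≤ c) (hc : c * κ < 1 - (L + 6 / 1000)) : Fam a c := by
  classical
  refine ⟨(1 - (L + 6 / 1000)) / κ, by rwa [lt_div_iff₀ hκ], 10 ^ 1000,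
    fun N I S w hw m hm hS => ?_⟩
  obtain ⟨TM, good, g, hTM, hmin, hB, hg, hbad⟩ := base_final I S w hw ha hν4 hν7 hm hS hL
  have hR := hrange m TM hm hTM hmin
  set K := CC a ν m (TM + 1) with hK
  have hK1 : 1 ≤ K := by
    have := hg ∅
    omega
  obtain ⟨C, hC, hCs, hW⟩ := choose_classes K
    (fun c => ∑ i ∈ I.filter (fun i => good (S i) ∧ g (S i) = c), w i) 1 hK1
  obtain ⟨c0, rfl⟩ := card_eq_one.mp hCs
  obtain ⟨F, hF⟩ : ∃ F : Finset (Fin (N + 1)) → Prop, ∀ E, F E ↔ (good E ∧ g E = c0) :=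
    ⟨_, fun _ => Iff.rfl⟩
  refine ⟨F, ?_, ?_⟩
  · intro T
    have h1 := hB T c0
    refine le_trans (card_le_card ?_) h1
    intro x hx
    rw [mem_filter, hF] at hx
    rw [mem_filter]
    exact hx
  · have h1 : ∑ c ∈ range K, ∑ i ∈ I.filter (fun i => good (S i) ∧ g (S i) = c), w i =
        ∑ i ∈ I.filter (fun i => good (S i)), w i := by
      rw [← sum_fiberwise_of_maps_to (s := I.filter (fun i => good (S i)))
        (t := range K) (g := fun i => g (S i)) (fun i _ => mem_range.mpr (hg _)) w]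
      refine sum_congr rfl fun c _ => ?_
      rw [filter_filter]
    have h2 : ∑ i ∈ I.filter (fun i => good (S i) ∧ g (S i) = c0), w i =
        ∑ i ∈ I.filter (fun i => F (S i)), w i := by
      apply sum_congr _ fun _ _ => rfl
      ext i
      simp only [mem_filter, hF]
    rw [h1, sum_singleton, h2] at hW
    have h3 := sum_filter_add_sum_filter_not I (fun i => good (S i)) w
    have h4 : (1 - (L + 6 / 1000)) * ∑ i ∈ I, w i ≤ ∑ i ∈ I.filter (fun i => good (S i)), w i := by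
      linarith
    have hV0 : 0 ≤ ∑ i ∈ I.filter (fun i => F (S i)), w i :=
      sum_nonneg fun i hi => hw i (mem_filter.mp hi).1
    rw [div_mul_eq_mul_div, div_le_iff₀ hκ]
    have h5 := mul_le_mul_of_nonneg_right hR hV0
    push_cast at hW
    linarith

theorem fam2 : Fam 2 (1 / 11) := by
  refine fam_of (ν := 7) (L := 164 / 1000) (κ := 9) (by norm_num) (by norm_num) (by norm_num)
    dig_sum2 (by norm_num) (fun m TM hm hTM hmin => ?_) (by norm_num) (by norm_num)
  exact_mod_cast range2 hm hTM hmin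

theorem fam3 : Fam 3 (2 / 11) := by
  refine fam_of (ν := 4) (L := 92 / 1000) (κ := 9 / 2) (by norm_num) (by norm_num) (by norm_num)
    dig_sum3 (by norm_num) (fun m TM hm hTM hmin => ?_) (by norm_num) (by norm_num)
  have h : (2 : ℝ) * (CC 3 4 m (TM + 1) : ℝ) ≤ 9 * m := by exact_mod_cast range3 hm hTM hmin
  linarith

theorem fam4 : Fam 4 (4 / 11) := by
  refine fam_of (ν := 4) (L := 44 / 1000) (κ := 5 / 2) (by norm_num) (by norm_num) (by norm_num)
    dig_sum4 (by norm_num) (fun m TM hm hTM hmin => ?_) (by norm_num) (by norm_num)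
  have h : (2 : ℝ) * (CC 4 4 m (TM + 1) : ℝ) ≤ 5 * m := by exact_mod_cast range4 hm hTM hmin
  linarith

end Pool.Agent.Helper81.RV
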