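import Pool.Agent.Helper81.RU.Final
import Pool.Agent.Helper81.RV.BaseFinal

/-!
# The lower bound for `M_r(N)` for every `r ≥ 2`
-/

open Finset Filter

namespace Pool.Agent.Helper81.RV

open Helper16.UB (Admissible M om ll)
open Pool.Agent.Helper34.RB (Bdd le_M tail)
open Pool.Agent.Helper81.RU (SP adm2 weight_ge2)

theorem lower_of_fam {r : ℕ} (hr : 1 ≤ r) {c : ℝ} (hc : 0 ≤ c) (hfam : Fam r c) :
    ∀ᶠ N : ℕ in atTop, c * (Real.log N / Real.log (Real.log N)) ≤ M r N := by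
  classical
  obtain ⟨c', hcc, m0, hfam⟩ := hfam
  have hc' : 0 < c' := lt_of_le_of_lt hc hcc
  -- `δ` and `D`
  obtain ⟨δ, hδ0, hδ⟩ : ∃ δ : ℝ, 0 < δ ∧ c * (1 + 2 * δ) ≤ c' * (1 - 2 * δ) := by
    refine ⟨(c' - c) / (4 * c'), div_pos (by linarith) (by linarith), ?_⟩
    have h1 : c' * ((c' - c) / (4 * c')) = (c' - c) / 4 := by field_simp
    have h2 : c * ((c' - c) / (4 * c')) ≤ c' * ((c' - c) / (4 * c')) := by
      apply mul_le_mul_of_nonneg_right hcc.le
      apply div_nonneg <;> linarith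
    nlinarith
  obtain ⟨D, hD⟩ := exists_nat_gt (1 / δ)
  have hD0 : (0 : ℝ) < D := lt_trans (by positivity) hD
  have hD1 : 1 ≤ D := by exact_mod_cast hD0
  have hDδ : 1 / (D : ℝ) ≤ δ := by
    rw [div_le_iff₀ hD0]
    rw [div_lt_iff₀ hδ0] at hD
    linarith
  have hll := Helper16.UB.tendsto_ll
  filter_upwards [hll.eventually_ge_atTop (1 : ℝ), hll.eventually_ge_atTop (m0 : ℝ),
    hll.eventually_ge_atTop ((D : ℝ) / δ), tail hδ0 hδ0] with N hl1 hlm hlD ht
  set l := Real.log (Real.log N) with hl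
  have hll' : ll N = l := rfl
  rw [hll'] at hl1 hlm hlD
  set k := ⌊(1 + δ) * l⌋₊ with hk
  have hlpos : (0 : ℝ) < l := by linarith
  have hk0 : (k : ℝ) ≤ (1 + δ) * l := Nat.floor_le (by positivity)
  have hkl : l < (k : ℝ) + 1 := by
    have h1 := Nat.lt_floor_add_one ((1 + δ) * l)
    have h2 : l ≤ (1 + δ) * l := by nlinarith
    linarith
  have hkm : m0 ≤ k + D := by
    have h1 : (m0 : ℝ) < (k : ℝ) + 1 := by linarith
    have h2 : m0 < k + 1 := by exact_mod_cast h1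
    omega
  set I := (Icc 1 N).filter (fun a => (SP N a).card ≤ k + D) with hI
  obtain ⟨F, hF1, hF2⟩ := hfam N I (SP N) (fun a => 1 / (a : ℝ)) (fun a _ => by positivity)
    (k + D) hkm (fun a ha => (mem_filter.mp ha).2)
  have hW := weight_ge2 (N := N) (k := k) hD1 ht
  have hadm : Admissible r N (I.filter fun a => F (SP N a)) := by
    refine adm2 hr F hF1 _ fun a ha => ?_
    rw [mem_filter] at ha
    have h1 := mem_filter.mp ha.1
    have h2 := mem_Icc.mp h1.1
    exact ⟨h2.1, h2.2, ha.2⟩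
  refine le_trans ?_ (le_M hadm)
  set V := ∑ n ∈ I.filter (fun a => F (SP N a)), 1 / (n : ℝ) with hV
  set Wt := ∑ a ∈ I, 1 / (a : ℝ) with hWt
  have hL0 : 0 ≤ Real.log N := Real.log_natCast_nonneg N
  have hV0 : 0 ≤ V := sum_nonneg fun n _ => by positivity
  -- the size of `k + D`
  have hkD : ((k + D : ℕ) : ℝ) ≤ (1 + 2 * δ) * l := by
    push_cast
    have h1 : (D : ℝ) ≤ δ * l := by
      rw [div_le_iff₀ hδ0] at hlD
      linarith
    linarith
  have h1 : c' * ((1 - 2 * δ) * Real.log N) ≤ ((1 + 2 * δ) * l) * V := by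
    calc c' * ((1 - 2 * δ) * Real.log N)
        ≤ c' * ((1 - 1 / (D : ℝ) - δ) * Real.log N) :=
          mul_le_mul_of_nonneg_left (mul_le_mul_of_nonneg_right (by linarith) hL0) hc'.le
      _ ≤ c' * Wt := mul_le_mul_of_nonneg_left hW hc'.le
      _ ≤ ((k + D : ℕ) : ℝ) * V := hF2
      _ ≤ ((1 + 2 * δ) * l) * V := mul_le_mul_of_nonneg_right hkD hV0
  have h2 : c * (1 + 2 * δ) * Real.log N ≤ c' * ((1 - 2 * δ) * Real.log N) := by
    rw [← mul_assoc c']
    exact mul_le_mul_of_nonneg_right hδ hL0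
  have h3 : (1 + 2 * δ) * (c * Real.log N) ≤ (1 + 2 * δ) * (l * V) := by
    linarith
  have h4 : c * Real.log N ≤ l * V :=
    le_of_mul_le_mul_left h3 (by positivity)
  rw [← mul_div_assoc, div_le_iff₀ hlpos]
  linarith

theorem lower {r : ℕ} (hr : 2 ≤ r) :
    ∀ᶠ N : ℕ in atTop, ((r : ℝ) - 1) / 11 * (Real.log N / Real.log (Real.log N)) ≤
      Helper16.UB.M r N := by
  have hr' : (2 : ℝ) ≤ r := by exact_mod_cast hr
  exact lower_of_fam (by omega) (div_nonneg (by linarith) (by norm_num))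
    (Fam.all fam2 fam3 fam4 r hr)

end Pool.Agent.Helper81.RV
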