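import Pool.Agent.Helper81.RU.Offset
import Pool.Agent.Helper81.RV.Defs

/-!
# The base colouring, deterministic part (with the term `grp`)
-/

open Finset

namespace Pool.Agent.Helper81.RV

open Pool.Agent.Helper34.RB hiding Dd Dsum Good
open Pool.Agent.Helper81.RU (Dd Dsum Good Dd_lt)

/-- the intervals of the offsets of different loads are disjoint -/
theorem order {R w C N e : ℕ → ℕ} {TM : ℕ}
    (hC : ∀ t, 1 ≤ t → t ≤ TM →
      C t + e t + w t * N (t - 1) + w (t + 1) * N (t + 1) + 2 * (R t + R (t - 1) + R (t + 1)) ≤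
        C (t + 1)) {t t' : ℕ} (h1 : 1 ≤ t) (htt : t < t') (ht' : t' ≤ TM + 1) :
    C t + e t + w t * N (t - 1) + w (t + 1) * N (t + 1) + R t + R (t - 1) +
      (R t' + R (t' - 1)) ≤ C t' := by
  obtain ⟨d, rfl⟩ : ∃ d, t' = t + 1 + d := ⟨t' - (t + 1), by omega⟩
  clear htt
  induction d with
  | zero =>
    have h2 := hC t h1 (by omega)
    simp only [Nat.add_zero, Nat.add_sub_cancel]
    linarith
  | succ d ih =>
    have h2 := ih (by omega)
    have h3 := hC (t + 1 + d) (by omega) (by omega)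
    have h4 : t + 1 + (d + 1) = t + 1 + d + 1 := by omega
    rw [h4]
    simp only [Nat.add_sub_cancel] at h3 ⊢
    have h5 : 0 ≤ w (t + 1 + d) * N (t + 1 + d - 1) := Nat.zero_le _
    have h6 : 0 ≤ w (t + 1 + d + 1) * N (t + 1 + d + 1) := Nat.zero_le _
    have h7 : 0 ≤ R (t + 1 + d) := Nat.zero_le _
    have h8 : 0 ≤ R (t + 1 + d + 1) := Nat.zero_le _
    have h9 : 0 ≤ R (t + 1 + d - 1) := Nat.zero_le _
    have h10 : 0 ≤ e (t + 1 + d) := Nat.zero_le _
    linarith

section

variable {X : Type} [LinearOrder X] {n : ℕ} {h : X → Fin n} {T : Finset X} {x x' : X}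
  {q : ℕ → ℕ} {M : ∀ s, ℕ → Finset X → ZMod (q s)} {Φ : ∀ s, (Fin (s - 1) → ZMod (q s)) → ℕ}
  {R w C N e : ℕ → ℕ} {TM a : ℕ}

/-- the change of `grp` -/
def xt (a : ℕ) (h : X → Fin n) (T : Finset X) (x : X) : ℕ :=
  if ld h T (h x) = 1 then (h x : ℕ) / a else 0

theorem grp_erase (hx : x ∈ T) : grp a h T = grp a h (T.erase x) + xt a h T x := by
  unfold grp xt
  by_cases h1 : ld h T (h x) = 1
  · rw [if_pos h1]
    have h2 := Bs_erase_self (h := h) hx
    rw [h1] at h2
    rw [h2, Finset.sum_erase_add _ _ (mem_Bs.mpr (by omega))]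
  · rw [if_neg h1, Bs_erase_ne hx (fun h' => h1 h'.symm), add_zero]

/-- the value of a set -/
def val (a : ℕ) (h : X → Fin n) (C w : ℕ → ℕ) (q : ℕ → ℕ) (M : ∀ s, ℕ → Finset X → ZMod (q s))
    (Φ : ∀ s, (Fin (s - 1) → ZMod (q s)) → ℕ) (TM : ℕ) (E : Finset X) : ℕ :=
  stat h C w TM E + grp a h E + Dsum h q M Φ TM E

theorem total_erase (hx : x ∈ T) (ht : ld h T (h x) ≤ TM) :
    val a h C w q M Φ TM T + Dd h q M Φ TM (ld h T (h x)) (T.erase x) +
        Dd h q M Φ TM (ld h T (h x) - 1) (T.erase x) =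
      val a h C w q M Φ TM (T.erase x) +
        (C (ld h T (h x)) + addr h w T (ld h T (h x)) (h x) + xt a h T x +
          Dd h q M Φ TM (ld h T (h x)) T + Dd h q M Φ TM (ld h T (h x) - 1) T) := by
  have h1 := RU.total_erase (C := C) (w := w) (q := q) (M := M) (Φ := Φ) hx ht
  have h2 := grp_erase (a := a) (h := h) hx
  unfold val
  linarith

private theorem off_facts (he : n / a ≤ e 1) (hx : x ∈ T) (hg : Good h N q M TM (T.erase x)) :
    1 ≤ ld h T (h x) ∧ ld h T (h x) ≤ TM ∧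
      addr h w T (ld h T (h x)) (h x) ≤
        w (ld h T (h x)) * N (ld h T (h x) - 1) + w (ld h T (h x) + 1) * N (ld h T (h x) + 1) ∧
      xt a h T x ≤ e (ld h T (h x)) := by
  have h1 : 1 ≤ ld h T (h x) := ld_pos hx
  refine ⟨h1, ?_, ?_, ?_⟩
  · have h2 : h x ∉ Bs h (T.erase x) TM := by rw [hg.2.1]; exact notMem_empty _
    rw [mem_Bs] at h2
    have h3 := ld_erase_self (h := h) hx
    omega
  · refine addr_le ?_ ?_
    · rw [← Bs_erase_ne hx (u := ld h T (h x) - 1) (by omega)]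
      exact hg.1 _
    · rw [← Bs_erase_ne hx (u := ld h T (h x) + 1) (by omega)]
      exact hg.1 _
  · unfold xt
    split_ifs with h2
    · rw [h2]
      exact (Nat.div_le_div_right (h x).2.le).trans he
    · exact Nat.zero_le _

/-- If two good deletions have the same value, they are in the same cell, or in adjacent cells of
load `1`. -/
theorem same_cell {A : ℕ} (hR : ∀ u, 1 ≤ R u)
    (hΦ : ∀ s, 2 ≤ s → s ≤ TM → Compr (q s) s (R s) A (Φ s))
    (hw : ∀ t, 2 ≤ t → R t + R (t - 1) ≤ w t + 1) (he : n / a ≤ e 1)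
    (hC : ∀ t, 1 ≤ t → t ≤ TM →
      C t + e t + w t * N (t - 1) + w (t + 1) * N (t + 1) + 2 * (R t + R (t - 1) + R (t + 1)) ≤
        C (t + 1))
    (hx : x ∈ T) (hx' : x' ∈ T) (hg : Good h N q M TM (T.erase x))
    (hg' : Good h N q M TM (T.erase x'))
    (hv : val a h C w q M Φ TM (T.erase x) = val a h C w q M Φ TM (T.erase x')) :
    ld h T (h x) = ld h T (h x') ∧ (h x = h x' ∨
      (ld h T (h x) = 1 ∧ (h x : ℕ) / a = (h x' : ℕ) / a)) := by
  obtain ⟨a1, a2, a3, a4⟩ := off_facts (w := w) he hx hg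
  obtain ⟨b1, b2, b3, b4⟩ := off_facts (w := w) he hx' hg'
  have e1 := total_erase (a := a) (q := q) (M := M) (Φ := Φ) (w := w) (C := C) hx a2
  have e2 := total_erase (a := a) (q := q) (M := M) (Φ := Φ) (w := w) (C := C) hx' b2
  have D := fun u E => Dd_lt (h := h) (M := M) hR hΦ u E
  have x1 : xt a h T x = if ld h T (h x) = 1 then (h x : ℕ) / a else 0 := rfl
  have x2 : xt a h T x' = if ld h T (h x') = 1 then (h x' : ℕ) / a else 0 := rfl
  obtain ⟨t, ht⟩ : ∃ t, t = ld h T (h x) := ⟨_, rfl⟩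
  obtain ⟨t', ht'⟩ : ∃ t', t' = ld h T (h x') := ⟨_, rfl⟩
  rw [← ht] at a1 a2 a3 a4 e1 x1
  rw [← ht'] at b1 b2 b3 b4 e2 x2
  rw [← ht, ← ht']
  have d1 := D t T
  have d2 := D (t - 1) T
  have d3 := D t (T.erase x)
  have d4 := D (t - 1) (T.erase x)
  have d5 := D t' T
  have d6 := D (t' - 1) T
  have d7 := D t' (T.erase x')
  have d8 := D (t' - 1) (T.erase x')
  rcases lt_trichotomy t t' with hlt | heq | hgt
  · exfalso
    have ho := order (R := R) hC a1 hlt (by omega)
    have p1 : 0 ≤ addr h w T t' (h x') := Nat.zero_le _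
    have p2 : 0 ≤ Dd h q M Φ TM t (T.erase x) := Nat.zero_le _
    have p3 : 0 ≤ Dd h q M Φ TM (t - 1) (T.erase x) := Nat.zero_le _
    have p4 : 0 ≤ Dd h q M Φ TM t' T := Nat.zero_le _
    have p5 : 0 ≤ Dd h q M Φ TM (t' - 1) T := Nat.zero_le _
    have p6 : 0 ≤ xt a h T x' := Nat.zero_le _
    linarith
  · subst heq
    refine ⟨rfl, ?_⟩
    by_cases h1 : t = 1
    · -- load `1`
      right
      refine ⟨h1, ?_⟩
      subst h1
      rw [if_pos rfl] at x1 x2
      have z : ∀ u < 2, ∀ E : Finset X, Dd h q M Φ TM u E = 0 := by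
        intro u hu E
        unfold Dd
        rw [if_neg]
        rw [mem_Icc]
        omega
      rw [z 1 (by norm_num), z 1 (by norm_num), z (1 - 1) (by norm_num),
        z (1 - 1) (by norm_num)] at e1 e2
      by_contra hne
      have hne' : h x ≠ h x' := fun h' => hne (by rw [h'])
      rcases dir_total (t := 1) hne' with hd | hd
      · have hgap := addr_gap (w := w) (T := T) (h := h) (by omega) hd
        have hlt : h x' < h x := by
          rw [dir_iff, if_pos (by norm_num)] at hd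
          exact hd
        have hlt' : (h x' : ℕ) < (h x : ℕ) := hlt
        have hle : (h x' : ℕ) / a ≤ (h x : ℕ) / a := Nat.div_le_div_right hlt'.le
        omega
      · have hgap := addr_gap (w := w) (T := T) (h := h) (by omega) hd
        have hlt : h x < h x' := by
          rw [dir_iff, if_pos (by norm_num)] at hd
          exact hd
        have hlt' : (h x : ℕ) < (h x' : ℕ) := hlt
        have hle : (h x : ℕ) / a ≤ (h x' : ℕ) / a := Nat.div_le_div_right hlt'.le
        omega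
    · left
      rw [if_neg h1] at x1 x2
      by_contra hne
      have hwt := hw t (by omega)
      rcases dir_total (t := t) hne with hd | hd
      · have hgap := addr_gap (w := w) (T := T) (h := h) (by omega) hd
        linarith
      · have hgap := addr_gap (w := w) (T := T) (h := h) (by omega) hd
        linarith
  · exfalso
    have ho := order (R := R) hC b1 hgt (by omega)
    have p1 : 0 ≤ addr h w T t (h x) := Nat.zero_le _
    have p2 : 0 ≤ Dd h q M Φ TM t' (T.erase x') := Nat.zero_le _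
    have p3 : 0 ≤ Dd h q M Φ TM (t' - 1) (T.erase x') := Nat.zero_le _
    have p4 : 0 ≤ Dd h q M Φ TM t T := Nat.zero_le _
    have p5 : 0 ≤ Dd h q M Φ TM (t - 1) T := Nat.zero_le _
    have p6 : 0 ≤ xt a h T x := Nat.zero_le _
    linarith

/-- The values of good deletions lie in an interval of length less than `C (TM + 1)`. -/
theorem value_window {A : ℕ} (hR : ∀ u, 1 ≤ R u)
    (hΦ : ∀ s, 2 ≤ s → s ≤ TM → Compr (q s) s (R s) A (Φ s)) (he : n / a ≤ e 1)
    (hC1 : R 1 + R 0 ≤ C 1)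
    (hC : ∀ t, 1 ≤ t → t ≤ TM →
      C t + e t + w t * N (t - 1) + w (t + 1) * N (t + 1) + 2 * (R t + R (t - 1) + R (t + 1)) ≤
        C (t + 1))
    (hx : x ∈ T) (hg : Good h N q M TM (T.erase x)) :
    val a h C w q M Φ TM (T.erase x) < val a h C w q M Φ TM T ∧
    val a h C w q M Φ TM T < val a h C w q M Φ TM (T.erase x) + C (TM + 1) := by
  obtain ⟨a1, a2, a3, a4⟩ := off_facts (w := w) he hx hg
  have e1 := total_erase (a := a) (q := q) (M := M) (Φ := Φ) (w := w) (C := C) hx a2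
  have D := fun u E => Dd_lt (h := h) (M := M) hR hΦ u E
  obtain ⟨t, ht⟩ : ∃ t, t = ld h T (h x) := ⟨_, rfl⟩
  rw [← ht] at a1 a2 a3 a4 e1
  have d1 := D t T
  have d2 := D (t - 1) T
  have d3 := D t (T.erase x)
  have d4 := D (t - 1) (T.erase x)
  have hCt : R t + R (t - 1) ≤ C t := by
    rcases Nat.eq_or_lt_of_le a1 with h1 | h1
    · rw [← h1]
      exact hC1
    · have ho := order (R := R) hC (le_refl 1) h1 (by omega)
      have p1 : 0 ≤ w 1 * N (1 - 1) := Nat.zero_le _
      have p2 : 0 ≤ w (1 + 1) * N (1 + 1) := Nat.zero_le _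
      have p3 : 0 ≤ C 1 := Nat.zero_le _
      have p4 : 0 ≤ R 1 := Nat.zero_le _
      have p5 : 0 ≤ R (1 - 1) := Nat.zero_le _
      have p6 : 0 ≤ e 1 := Nat.zero_le _
      linarith
  have ho := order (R := R) hC a1 (show t < TM + 1 by omega) le_rfl
  have p1 : 0 ≤ addr h w T t (h x) := Nat.zero_le _
  have p2 : 0 ≤ Dd h q M Φ TM t (T.erase x) := Nat.zero_le _
  have p3 : 0 ≤ Dd h q M Φ TM (t - 1) (T.erase x) := Nat.zero_le _
  have p4 : 0 ≤ Dd h q M Φ TM t T := Nat.zero_le _
  have p5 : 0 ≤ Dd h q M Φ TM (t - 1) T := Nat.zero_le _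
  have p6 : 0 ≤ R (TM + 1) := Nat.zero_le _
  have p7 : 0 ≤ R (TM + 1 - 1) := Nat.zero_le _
  have p8 : 0 ≤ xt a h T x := Nat.zero_le _
  constructor <;> linarith

end

end Pool.Agent.Helper81.RV
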